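import Pool.Agent.H216.SOS.Sharp

set_option autoImplicit false

namespace Pool.Agent.H216.SOS

/-- the numbers `card (TT M)` -/
def TSet (n : ℕ) : Set ℕ := {m | ∃ M : Finset (Fin n →₀ ℕ), (TT M).card = m}

theorem zero_mem_TSet (n : ℕ) : 0 ∈ TSet n := by
  refine ⟨∅, ?_⟩
  rw [Finset.card_eq_zero]
  ext t
  rw [mem_TT]
  simp

/-- adding a monomial of large degree -/
theorem add_mem_TSet {n m : ℕ} (h : m ∈ TSet (n + 1)) : m + (n + 1) ∈ TSet (n + 1) := by
  classical
  obtain ⟨M, rfl⟩ := h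
  obtain ⟨D, hD⟩ : ∃ D, ∀ s ∈ M, s.degree < D :=
    ⟨M.sup (fun s => s.degree) + 1, fun s hs => Nat.lt_succ_of_le
      (Finset.le_sup (f := fun s : Fin (n + 1) →₀ ℕ => s.degree) hs)⟩
  let w : Fin (n + 1) →₀ ℕ := Finsupp.single 0 D
  have hw : w ∉ M := by
    intro h
    have := hD w h
    simp [w] at this
  refine ⟨insert w M, ?_⟩
  have h1 : TT (insert w M) = TT M ∪ (Finset.univ.image fun k => w + Finsupp.single k 1) := by
    ext t
    rw [Finset.mem_union, mem_TT, mem_TT]
    constructor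
    · rintro ⟨s, hs, k, rfl⟩
      rcases Finset.mem_insert.1 hs with rfl | hs
      · exact Or.inr (Finset.mem_image.2 ⟨k, Finset.mem_univ _, rfl⟩)
      · exact Or.inl ⟨s, hs, k, rfl⟩
    · rintro (⟨s, hs, k, rfl⟩ | h)
      · exact ⟨s, Finset.mem_insert_of_mem hs, k, rfl⟩
      · obtain ⟨k, -, rfl⟩ := Finset.mem_image.1 h
        exact ⟨w, Finset.mem_insert_self _ _, k, rfl⟩
  rw [h1, Finset.card_union_of_disjoint, Finset.card_image_of_injective]
  · simp
  · intro k l hkl
    have h3 : Finsupp.single k 1 = Finsupp.single l (1 : ℕ) := add_left_cancel hkl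
    exact (Finsupp.single_left_inj one_ne_zero).1 h3
  · rw [Finset.disjoint_left]
    intro t ht ht'
    obtain ⟨s, hs, k, rfl⟩ := mem_TT.1 ht
    obtain ⟨l, -, hl⟩ := Finset.mem_image.1 ht'
    have h2 := congrArg Finsupp.degree hl
    have h3 := hD s hs
    simp [map_add, w] at h2
    omega

theorem mul_mem_TSet (n κ : ℕ) : κ * (n + 1) ∈ TSet (n + 1) := by
  induction κ with
  | zero => simpa using zero_mem_TSet (n + 1)
  | succ κ ih =>
    have := add_mem_TSet ih
    rwa [← Nat.succ_mul] at this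

/-- the star of variables -/
theorem star_mem_TSet {n κ : ℕ} (h : κ ≤ n) {m : ℕ} (hm : 2 * m + κ * (κ - 1) = 2 * κ * n) :
    m ∈ TSet n := by
  classical
  let M : Finset (Fin n →₀ ℕ) := (Finset.univ : Finset (Fin κ)).image
    fun i => Finsupp.single (Fin.castLE h i) 1
  have hinj : Function.Injective fun i : Fin κ =>
      (Finsupp.single (Fin.castLE h i) 1 : Fin n →₀ ℕ) := by
    intro i j hij
    exact Fin.castLE_injective h ((Finsupp.single_left_inj one_ne_zero).1 hij)
  have hM : M.card = κ := by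
    simp only [M]
    rw [Finset.card_image_of_injective _ hinj]
    simp
  refine ⟨M, ?_⟩
  have h1 := card_TT M
  rw [hM] at h1
  -- the upper bound
  let P : Finset (Σ _ : Fin κ, Fin n) := (Finset.univ : Finset (Fin κ)).sigma
    fun i => Finset.univ.filter fun k : Fin n => i.1 ≤ k.1
  have hP : 2 * P.card + κ * (κ - 1) ≤ 2 * κ * n := by
    have e1 : P.card = ∑ i : Fin κ, (n - i.1) := by
      simp only [P]
      rw [Finset.card_sigma]
      apply Finset.sum_congr rfl
      intro i _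
      have hi : i.1 < n := lt_of_lt_of_le i.2 h
      have : (Finset.univ.filter fun k : Fin n => i.1 ≤ k.1) = Finset.Ici (⟨i.1, hi⟩ : Fin n) := by
        ext k
        simp [Fin.le_def]
      rw [this, Fin.card_Ici]
    have e2 : ∑ i : Fin κ, (n - i.1) = ∑ i ∈ Finset.range κ, (n - i) :=
      Fin.sum_univ_eq_sum_range (fun i => n - i) κ
    have e3 : ∀ j ≤ n, 2 * ∑ i ∈ Finset.range j, (n - i) + j * (j - 1) = 2 * j * n := by
      intro j
      induction j with
      | zero => simp
      | succ j ih =>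
        intro hj
        have h5 := ih (by omega)
        rw [Finset.sum_range_succ]
        obtain ⟨d, rfl⟩ : ∃ d, n = j + d := ⟨n - j, by omega⟩
        have e4 : j + d - j = d := by omega
        rw [e4]
        rcases j with _ | j
        · simp at h5 ⊢
        · simp only [Nat.add_sub_cancel] at h5 ⊢
          nlinarith
    rw [e1, e2]
    exact (e3 κ h).le
  have hsub : TT M ⊆ P.image fun x => Finsupp.single (Fin.castLE h x.1) 1 +
      Finsupp.single x.2 1 := by
    intro t ht
    obtain ⟨s, hs, k, rfl⟩ := mem_TT.1 ht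
    obtain ⟨i, -, rfl⟩ := Finset.mem_image.1 hs
    rw [Finset.mem_image]
    by_cases hik : i.1 ≤ k.1
    · exact ⟨⟨i, k⟩, by simp [P, hik], rfl⟩
    · push Not at hik
      refine ⟨⟨⟨k.1, lt_trans hik i.2⟩, Fin.castLE h i⟩, ?_, ?_⟩
      · simp only [P, Finset.mem_sigma, Finset.mem_univ, Finset.mem_filter, true_and]
        exact hik.le
      · rw [add_comm]
        congr 1
  have h2 := le_trans (Finset.card_le_card hsub) Finset.card_image_le
  have e : 2 * n * κ = 2 * κ * n := by ring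
  omega

/-- a computable version -/
def TTf {n : ℕ} (M : Finset (Fin n → ℕ)) : Finset (Fin n → ℕ) :=
  (M ×ˢ (Finset.univ : Finset (Fin n))).image fun x => x.1 + Pi.single x.2 1

theorem TTf_mem_TSet {n : ℕ} (M : Finset (Fin n → ℕ)) : (TTf M).card ∈ TSet n := by
  classical
  let e : (Fin n →₀ ℕ) ≃ (Fin n → ℕ) := Finsupp.equivFunOnFinite
  refine ⟨M.image e.symm, ?_⟩
  have h1 : TT (M.image e.symm) = (TTf M).image e.symm := by
    ext t
    rw [mem_TT, Finset.mem_image]
    constructor
    · rintro ⟨s, hs, k, rfl⟩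
      obtain ⟨s', hs', rfl⟩ := Finset.mem_image.1 hs
      refine ⟨s' + Pi.single k 1, ?_, ?_⟩
      · unfold TTf
        rw [Finset.mem_image]
        exact ⟨(s', k), by simp [hs'], rfl⟩
      · rw [Equiv.symm_apply_eq]
        funext i
        simp [e, Finsupp.single_apply, Pi.single_apply, eq_comm]
    · rintro ⟨t', ht', rfl⟩
      unfold TTf at ht'
      rw [Finset.mem_image] at ht'
      obtain ⟨⟨s', k⟩, hs', rfl⟩ := ht'
      refine ⟨e.symm s', Finset.mem_image.2 ⟨s', by simpa using hs', rfl⟩, k, ?_⟩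
      symm
      rw [Equiv.symm_apply_eq]
      funext i
      simp [e, Finsupp.single_apply, Pi.single_apply, eq_comm]
  rw [h1, Finset.card_image_of_injective _ e.symm.injective]

theorem mem_three_seven : 7 ∈ TSet 3 := by
  have h : (TTf ({![2, 0, 0], ![1, 1, 0], ![0, 2, 0]} : Finset (Fin 3 → ℕ))).card = 7 := by
    decide
  exact h ▸ TTf_mem_TSet _

theorem mem_four_ten : 10 ∈ TSet 4 := by
  have h : (TTf ({![2, 0, 0, 0], ![1, 1, 0, 0], ![0, 2, 0, 0]} :
      Finset (Fin 4 → ℕ))).card = 10 := by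
    decide
  exact h ▸ TTf_mem_TSet _

theorem mem_five_thirteen : 13 ∈ TSet 5 := by
  have h : (TTf ({![2, 0, 0, 0, 0], ![1, 1, 0, 0, 0], ![0, 2, 0, 0, 0]} :
      Finset (Fin 5 → ℕ))).card = 13 := by
    decide
  exact h ▸ TTf_mem_TSet _

theorem mem_five_sixteen : 16 ∈ TSet 5 := by
  have h : (TTf ({![2, 0, 0, 0, 0], ![1, 1, 0, 0, 0], ![1, 0, 1, 0, 0], ![0, 2, 0, 0, 0]} :
      Finset (Fin 5 → ℕ))).card = 16 := by
    decide
  exact h ▸ TTf_mem_TSet _

end Pool.Agent.H216.SOS
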