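import Pool.Agent.H216.SOS.Hyper

set_option autoImplicit false

namespace Pool.Agent.H216.SOS

open Filter MvPolynomial Module

/-- the space of the products of `h` with linear forms -/
noncomputable def S1 {k : ℕ} (h : R k) : Submodule ℂ (R k) :=
  LinearMap.range ((LinearMap.mulRight ℂ h).comp (linL k))

theorem mem_S1 {k : ℕ} {h f : R k} : f ∈ S1 h ↔ ∃ a, lin a * h = f := Iff.rfl

instance {k : ℕ} (h : R k) : FiniteDimensional ℂ (S1 h) := by
  unfold S1
  infer_instance

theorem finrank_S1 {k : ℕ} {h : R k} (hh : h ≠ 0) : finrank ℂ (S1 h) = k := by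
  unfold S1
  rw [LinearMap.finrank_range_of_inj]
  · simp
  · intro a b hab
    exact lin_injective (mul_right_cancel₀ hh hab)

/-- powers of linear forms -/
theorem powers_li {k p : ℕ} (hp : 2 ≤ p) :
    ∃ a : Fin (k + 2 + 1) → (Fin (k + 2) → ℂ), LinearIndependent ℂ (fun i => lin (a i) ^ p) := by
  let a : Fin (k + 2 + 1) → (Fin (k + 2) → ℂ) :=
    Fin.snoc (α := fun _ => Fin (k + 2) → ℂ) (fun i => Pi.single i 1)
      (Pi.single 0 1 + Pi.single 1 1)
  refine ⟨a, ?_⟩
  rw [Fintype.linearIndependent_iff]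
  intro c hc
  have hev : ∀ x : Fin (k + 2) → ℂ, (∑ i : Fin (k + 2), c i.castSucc * x i ^ p) +
      c (Fin.last (k + 2)) * (x 0 + x 1) ^ p = 0 := by
    intro x
    have := congrArg (eval x) hc
    rw [map_sum, Fin.sum_univ_castSucc] at this
    simpa [a, MvPolynomial.smul_eval, Pi.single_apply, add_mul, Finset.sum_add_distrib] using this
  have hp0 : p ≠ 0 := by omega
  have e0 := hev (Pi.single 0 1)
  have e1 := hev (Pi.single 1 1)
  have e01 := hev (Pi.single 0 1 + Pi.single 1 1)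
  have h2 : ((2 : ℂ) ^ p - 2) ≠ 0 := by
    intro h
    have h1 : (2 : ℂ) ^ p = 2 := sub_eq_zero.1 h
    have h3 : (2 : ℕ) ^ p = 2 := by exact_mod_cast h1
    have h4 : 2 ^ 2 ≤ 2 ^ p := Nat.pow_le_pow_right (by norm_num) hp
    omega
  have hs0 : (∑ i : Fin (k + 2), c i.castSucc * (Pi.single (M := fun _ => ℂ) 0 1 i) ^ p)
      = c (Fin.castSucc 0) := by
    rw [Finset.sum_eq_single 0]
    · simp
    · intro i _ hi
      simp [hi, hp0]
    · simp
  have hs1 : (∑ i : Fin (k + 2), c i.castSucc * (Pi.single (M := fun _ => ℂ) 1 1 i) ^ p)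
      = c (Fin.castSucc 1) := by
    rw [Finset.sum_eq_single 1]
    · simp
    · intro i _ hi
      simp [hi, hp0]
    · simp
  have hs01 : (∑ i : Fin (k + 2), c i.castSucc *
      ((Pi.single (M := fun _ => ℂ) 0 1 + Pi.single (M := fun _ => ℂ) 1 1 :
        Fin (k + 2) → ℂ) i) ^ p) = c (Fin.castSucc 0) + c (Fin.castSucc 1) := by
    rw [← hs0, ← hs1, ← Finset.sum_add_distrib]
    apply Finset.sum_congr rfl
    intro i _
    rw [← mul_add]
    congr 1
    by_cases h0 : i = 0
    · subst h0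
      simp [hp0]
    · simp [Pi.single_apply, h0, hp0]
  rw [hs0] at e0
  rw [hs1] at e1
  rw [hs01] at e01
  have hl : c (Fin.last (k + 2)) = 0 := by
    have h5 : c (Fin.last (k + 2)) * ((2 : ℂ) ^ p - 2) = 0 := by
      have e0' : c (Fin.castSucc 0) + c (Fin.last (k + 2)) = 0 := by simpa using e0
      have e1' : c (Fin.castSucc 1) + c (Fin.last (k + 2)) = 0 := by simpa using e1
      have e01' : c (Fin.castSucc 0) + c (Fin.castSucc 1) + c (Fin.last (k + 2)) * 2 ^ p = 0 := by
        simpa [one_add_one_eq_two] using e01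
      linear_combination e01' - e0' - e1'
    rcases mul_eq_zero.1 h5 with h | h
    · exact h
    · exact absurd h h2
  intro i
  refine Fin.lastCases hl (fun j => ?_) i
  have := hev (Pi.single j 1)
  rw [hl, zero_mul, add_zero, Finset.sum_eq_single j] at this
  · simpa using this
  · intro i _ hi
    simp [hi, hp0]
  · simp

/-- A space which contains all `a^p h` has dimension at least the number of variables, and
in case of equality it is `S1 h`. -/
theorem pow_space {k p : ℕ} (hp : 1 ≤ p) {W : Submodule ℂ (R (k + 2))}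
    [FiniteDimensional ℂ W] {h : R (k + 2)} (hh : h ≠ 0) (hW : ∀ a, lin a ^ p * h ∈ W) :
    k + 2 ≤ finrank ℂ W ∧ (finrank ℂ W ≤ k + 2 → p = 1 ∧ W = S1 h) := by
  rcases Nat.lt_or_ge 1 p with hp2 | hp1
  · obtain ⟨a, ha⟩ := powers_li (k := k) (p := p) hp2
    have h1 : LinearIndependent ℂ (fun i => lin (a i) ^ p * h) := by
      have := ha.map' (LinearMap.mulRight ℂ h) (LinearMap.ker_eq_bot.2
        (fun x y hxy => mul_right_cancel₀ hh hxy))
      exact this
    have h2 : LinearIndependent ℂ (fun i => (⟨lin (a i) ^ p * h, hW (a i)⟩ : W)) := by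
      apply LinearIndependent.of_comp W.subtype
      exact h1
    have h3 := h2.fintype_card_le_finrank
    simp at h3
    exact ⟨by omega, fun h => by omega⟩
  · have hp' : p = 1 := by omega
    subst hp'
    have h1 : S1 h ≤ W := by
      rintro _ ⟨a, rfl⟩
      have h5 := hW a
      rw [pow_one] at h5
      exact h5
    have h2 := Submodule.finrank_mono h1
    rw [finrank_S1 hh] at h2
    refine ⟨h2, fun h3 => ⟨rfl, ?_⟩⟩
    symm
    apply Submodule.eq_of_le_of_finrank_le h1
    rw [finrank_S1 hh]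
    exact h3

/-- if a polynomial with vector coefficients takes its values in a subspace then the
coefficients lie there -/
theorem coeff_mem {M : Type*} [AddCommGroup M] [Module ℂ M] (Z : Submodule ℂ M) (d : ℕ)
    (z : ℕ → M) (h : ∀ c : ℂ, ∑ j ∈ Finset.range (d + 1), c ^ j • z j ∈ Z) :
    ∀ j ≤ d, z j ∈ Z := by
  intro j hj
  by_contra hcon
  obtain ⟨L, hL1, hL2⟩ := Submodule.exists_le_ker_of_notMem hcon
  have hP : (∑ j ∈ Finset.range (d + 1), Polynomial.C (L (z j)) * Polynomial.X ^ j :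
      Polynomial ℂ) = 0 := by
    apply Polynomial.funext
    intro c
    have := hL2 (h c)
    rw [LinearMap.mem_ker, map_sum] at this
    rw [Polynomial.eval_finsetSum, Polynomial.eval_zero, ← this]
    apply Finset.sum_congr rfl
    intro i _
    rw [Polynomial.eval_mul, Polynomial.eval_C, Polynomial.eval_pow, Polynomial.eval_X,
      map_smul, smul_eq_mul, mul_comm]
  apply hL1
  have := congrArg (fun Q => Polynomial.coeff Q j) hP
  simp only [Polynomial.finsetSum_coeff, Polynomial.coeff_C_mul_X_pow,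
    Polynomial.coeff_zero] at this
  rw [Finset.sum_eq_single j] at this
  · simpa using this
  · intro i _ hi
    simp [Ne.symm hi]
  · intro h
    simp at h
    omega

theorem polarise {k p : ℕ} {Z : Submodule ℂ (R k)} {h : R k}
    (hZ : ∀ a, lin a ^ (p + 1) * h ∈ Z) (a b : Fin k → ℂ) : lin b * (lin a ^ p * h) ∈ Z := by
  let z : ℕ → R k := fun j => ((p + 1).choose j : ℂ) • (lin b ^ j * lin a ^ (p + 1 - j) * h)
  have h1 : ∀ c : ℂ, ∑ j ∈ Finset.range (p + 1 + 1), c ^ j • z j ∈ Z := by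
    intro c
    have h2 : ∑ j ∈ Finset.range (p + 1 + 1), c ^ j • z j = lin (c • b + a) ^ (p + 1) * h := by
      rw [lin_add, lin_smul, add_pow, Finset.sum_mul]
      apply Finset.sum_congr rfl
      intro j _
      simp only [z, MvPolynomial.smul_eq_C_mul, map_natCast, map_pow]
      ring
    rw [h2]
    exact hZ _
  have h3 := coeff_mem Z (p + 1) z h1 1 (by omega)
  have h4 : z 1 = ((p + 1 : ℕ) : ℂ) • (lin b * (lin a ^ p * h)) := by
    simp only [z, Nat.choose_one_right, pow_one, Nat.add_sub_cancel]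
    rw [mul_assoc]
  rw [h4] at h3
  have h5 : ((p + 1 : ℕ) : ℂ) ≠ 0 := by
    exact_mod_cast Nat.succ_ne_zero p
  exact (Submodule.smul_mem_iff Z h5).1 h3

/-- a generic linear form does not divide a given non-zero polynomial -/
theorem not_dvd_gen {k : ℕ} {f : R (k + 2)} (hf : f ≠ 0) :
    ∀ᶠ a in gen (Fin (k + 2) → ℂ), ¬ lin a ∣ f := by
  obtain ⟨x, hx⟩ : ∃ x, eval x f ≠ 0 := by
    by_contra h
    push Not at h
    exact hf (MvPolynomial.funext fun x => by simpa using h x)
  -- a vector `e` and a form `a₀` with `a₀ x = 0` and `a₀ e = 1`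
  obtain ⟨a₀, ha₀, hv⟩ := exists_left_null (k := k + 2) (j := 1) (by omega)
    (fun i _ => x i)
  obtain ⟨i0, hi0⟩ : ∃ i, a₀ i ≠ 0 := by
    by_contra h
    push Not at h
    exact ha₀ (funext h)
  have hax : ∑ i, a₀ i * x i = 0 := by
    have := congrFun hv 0
    simpa [Matrix.vecMul, dotProduct] using this
  let e : Fin (k + 2) → ℂ := Pi.single i0 (a₀ i0)⁻¹
  have hae : ∑ i, a₀ i * e i = 1 := by
    simp [e, Pi.single_apply, hi0]
  have hD : (fun a : Fin (k + 2) → ℂ => eval (fun i => (∑ m, a m * e m) * x i -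
      (∑ m, a m * x m) * e i) f) ∈ PolyFun (Fin (k + 2) → ℂ) := by
    apply eval_mem
    intro i
    exact sub_mem' (mul_mem' (sum_mem' _ fun m _ => mul_mem' (coord_mem m) (const_mem _))
      (const_mem _)) (mul_mem' (sum_mem' _ fun m _ => mul_mem' (coord_mem m) (const_mem _))
      (const_mem _))
  refine (gen_of_ne hD (x := a₀) ?_).mono ?_
  · simp only [hax, hae, one_mul, zero_mul, sub_zero]
    exact hx
  · rintro a ha ⟨g, rfl⟩
    apply ha
    rw [map_mul, eval_lin]
    have : ∑ i, a i * ((∑ m, a m * e m) * x i - (∑ m, a m * x m) * e i) = 0 := by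
      simp only [mul_sub, Finset.sum_sub_distrib, Finset.mul_sum, Finset.sum_mul]
      rw [sub_eq_zero, Finset.sum_comm]
      apply Finset.sum_congr rfl
      intro i _
      apply Finset.sum_congr rfl
      intro m _
      ring
    rw [this, zero_mul]

theorem lin_prime {k : ℕ} {a : Fin (k + 1) → ℂ} (ha : a ≠ 0) {f g : R (k + 1)}
    (h : lin a ∣ f * g) : lin a ∣ f ∨ lin a ∣ g := by
  obtain ⟨ψ, π, -, h1, h2, -⟩ := exists_param ha
  obtain ⟨q, hq⟩ := h
  have h3 : pb ψ f * pb ψ g = 0 := by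
    rw [← map_mul, hq, map_mul, pb_lin, h1]
    simp
  rcases mul_eq_zero.1 h3 with h4 | h4
  · exact Or.inl (h2 _ h4)
  · exact Or.inr (h2 _ h4)

theorem lin_dvd_lin {k : ℕ} {a b : Fin k → ℂ} (ha : a ≠ 0) (h : lin a ∣ lin b) :
    ∃ c : ℂ, b = c • a := by
  obtain ⟨i0, hi0⟩ : ∃ i, a i ≠ 0 := by
    by_contra h
    push Not at h
    exact ha (funext h)
  obtain ⟨q, hq⟩ := h
  refine ⟨b i0 / a i0, ?_⟩
  funext j
  have h1 := congrArg (eval (Pi.single j 1 - (a j / a i0) • Pi.single i0 1)) hq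
  simp [Pi.single_apply, mul_sub, Finset.sum_sub_distrib] at h1
  have h2 : a j - a i0 * (a j / a i0) = 0 := by
    field_simp
    ring
  rw [h2, zero_mul] at h1
  simp only [Pi.smul_apply, smul_eq_mul]
  field_simp
  field_simp at h1
  linear_combination h1

/-- If for generic `a` the space `U Z a` is of the form `S1 g` then `g` does not depend on
`a`. -/
theorem const_gen {k : ℕ} {Z : Submodule ℂ (R (k + 2))}
    (h : ∀ᶠ a in gen (Fin (k + 2) → ℂ), ∃ g, g ≠ 0 ∧ U Z a = S1 g) :
    ∃ g, g ≠ 0 ∧ ∀ᶠ a in gen (Fin (k + 2) → ℂ), U Z a = S1 g := by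
  obtain ⟨l, ⟨gl, hgl, hl⟩, hl0⟩ := (h.and gen_ne_zero).exists
  refine ⟨gl, hgl, ?_⟩
  have hne : lin l * gl ≠ 0 := mul_ne_zero (lin_ne_zero hl0) hgl
  filter_upwards [h, gen_ne_zero, not_dvd_gen hne] with m hm hm0 hdvd
  obtain ⟨gm, hgm, hm⟩ := hm
  have h1 : lin l * gl ∈ U Z m := by
    rw [mem_U]
    have h2 : lin m * gl ∈ U Z l := by
      rw [hl]
      exact ⟨m, rfl⟩
    rw [mem_U] at h2
    convert h2 using 1
    ring
  have h2 : lin m * gm ∈ U Z l := by
    rw [mem_U]
    have h2 : lin l * gm ∈ U Z m := by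
      rw [hm]
      exact ⟨l, rfl⟩
    rw [mem_U] at h2
    convert h2 using 1
    ring
  rw [hm, mem_S1] at h1
  rw [hl, mem_S1] at h2
  obtain ⟨s, hs⟩ := h1
  obtain ⟨s', hs'⟩ := h2
  have h3 : lin s * lin s' = lin l * lin m := by
    have : lin s * lin s' * (gm * gl) = lin l * lin m * (gm * gl) := by
      linear_combination hs * (lin s' * gl) + (lin l * gl) * hs'
    exact mul_right_cancel₀ (mul_ne_zero hgm hgl) this
  have h4 : lin m ∣ lin s * lin s' := ⟨lin l, by rw [h3]; ring⟩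
  rcases lin_prime hm0 h4 with h5 | h5
  · exfalso
    apply hdvd
    rw [← hs]
    exact h5.mul_right _
  · obtain ⟨c, hc⟩ := lin_dvd_lin hm0 h5
    rw [hc, lin_smul, smul_mul_assoc, ← mul_smul_comm] at hs'
    have h6 : c • gl = gm := mul_left_cancel₀ (lin_ne_zero hm0) hs'
    have hc0 : c ≠ 0 := by
      rintro rfl
      apply hgm
      rw [← h6, zero_smul]
    rw [hm, ← h6]
    ext f
    simp only [mem_S1]
    constructor
    · rintro ⟨a, rfl⟩
      exact ⟨c • a, by rw [lin_smul, smul_mul_assoc, mul_smul_comm]⟩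
    · rintro ⟨a, rfl⟩
      refine ⟨c⁻¹ • a, ?_⟩
      rw [lin_smul, smul_mul_assoc, mul_smul_comm, smul_smul, inv_mul_cancel₀ hc0, one_smul]

/-- the space spanned by the products of `g` with two linear forms -/
noncomputable def S2 {k : ℕ} (g : R k) : Submodule ℂ (R k) :=
  Submodule.span ℂ {f | ∃ a b, f = lin a * (lin b * g)}

theorem finrank_S2 (g : R 2) : finrank ℂ (S2 g) ≤ 3 := by
  have h1 : S2 g ≤ Submodule.span ℂ
      (({X 0 * (X 0 * g), X 0 * (X 1 * g), X 1 * (X 1 * g)} : Finset (R 2)) : Set (R 2)) := by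
    unfold S2
    rw [Submodule.span_le]
    rintro f ⟨a, b, rfl⟩
    have h2 : lin a * (lin b * g) = (a 0 * b 0) • (X 0 * (X 0 * g)) +
        (a 0 * b 1 + a 1 * b 0) • (X 0 * (X 1 * g)) + (a 1 * b 1) • (X 1 * (X 1 * g)) := by
      simp only [lin_def, Fin.sum_univ_two, MvPolynomial.smul_eq_C_mul, map_mul, map_add]
      ring
    rw [h2]
    refine Submodule.add_mem _ (Submodule.add_mem _ ?_ ?_) ?_ <;>
    · apply Submodule.smul_mem
      apply Submodule.subset_span
      simp
  refine le_trans (Submodule.finrank_mono h1) (le_trans (finrank_span_finset_le_card _) ?_)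
  exact Finset.card_le_three

theorem res_S2_le {n k : ℕ} (φ : Matrix (Fin n) (Fin k) ℂ) (g : R n) :
    res (S2 g) φ ≤ S2 (pb φ g) := by
  unfold res S2
  rw [Submodule.map_span, Submodule.span_le]
  rintro _ ⟨_, ⟨a, b, rfl⟩, rfl⟩
  apply Submodule.subset_span
  refine ⟨Matrix.vecMul a φ, Matrix.vecMul b φ, ?_⟩
  simp [pb_lin]

theorem rk_two_le {k : ℕ} {Z : Submodule ℂ (R k)} [FiniteDimensional ℂ Z] {g : R k}
    (h : Z ≤ S2 g) : rk Z 2 ≤ 3 := by
  obtain ⟨φ, hφ⟩ := exists_rk Z 2
  rw [← hφ]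
  have h1 : res Z φ ≤ S2 (pb φ g) := le_trans (Submodule.map_mono h) (res_S2_le φ g)
  have h2 : FiniteDimensional ℂ (S2 (pb φ g)) := by
    have : S2 (pb φ g) ≤ Submodule.span ℂ
      (({X 0 * (X 0 * pb φ g), X 0 * (X 1 * pb φ g), X 1 * (X 1 * pb φ g)} :
        Finset (R 2)) : Set (R 2)) := by
      unfold S2
      rw [Submodule.span_le]
      rintro f ⟨a, b, rfl⟩
      have h2 : lin a * (lin b * pb φ g) = (a 0 * b 0) • (X 0 * (X 0 * pb φ g)) +
          (a 0 * b 1 + a 1 * b 0) • (X 0 * (X 1 * pb φ g)) +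
          (a 1 * b 1) • (X 1 * (X 1 * pb φ g)) := by
        simp only [lin_def, Fin.sum_univ_two, MvPolynomial.smul_eq_C_mul, map_mul, map_add]
        ring
      rw [h2]
      refine Submodule.add_mem _ (Submodule.add_mem _ ?_ ?_) ?_ <;>
      · apply Submodule.smul_mem
        apply Submodule.subset_span
        simp
    exact Submodule.finiteDimensional_of_le this
  exact le_trans (Submodule.finrank_mono h1) (finrank_S2 _)

/-- `Z` is spanned by its elements which are divisible by a form in a given generic set -/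
def Spanned {k : ℕ} (Z : Submodule ℂ (R k)) : Prop :=
  ∀ P : (Fin k → ℂ) → Prop, (∀ᶠ a in gen (Fin k → ℂ), P a) →
    Z ≤ Submodule.span ℂ {f | ∃ a, P a ∧ ∃ g ∈ U Z a, f = lin a * g}

theorem Spanned.rk_two_le {k : ℕ} {Z : Submodule ℂ (R k)} [FiniteDimensional ℂ Z]
    (hs : Spanned Z) {g : R k} (h : ∀ᶠ a in gen (Fin k → ℂ), U Z a = S1 g) :
    rk Z 2 ≤ 3 := by
  apply Pool.Agent.H216.SOS.rk_two_le (g := g)
  refine le_trans (hs _ h) ?_
  rw [Submodule.span_le]
  rintro _ ⟨a, ha, q, hq, rfl⟩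
  rw [ha] at hq
  obtain ⟨b, rfl⟩ := hq
  exact Submodule.subset_span ⟨a, b, rfl⟩

end Pool.Agent.H216.SOS
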