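import Mathlib

set_option autoImplicit false

namespace Pool.Agent.H216.SOS

open Finset

theorem sum_sub_le (κ : ℕ) : ∀ n, 2 * ∑ k ∈ range n, (κ - k) ≤ κ * (κ + 1) := by
  induction κ with
  | zero => intro n; simp
  | succ κ ih =>
    intro n
    rcases n with _ | n
    · simp
    · rw [Finset.sum_range_succ']
      have h1 : ∑ k ∈ range n, (κ + 1 - (k + 1)) = ∑ k ∈ range n, (κ - k) := by
        apply Finset.sum_congr rfl
        intro k _
        omega
      rw [h1]
      have := ih n
      simp only [Nat.sub_zero]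
      nlinarith

/-- The counting lemma. -/
theorem counting (m κ : ℕ) (r : ℕ → ℕ) (hmono : ∀ k, r k ≤ r (k + 1)) (h1 : 1 ≤ r 1)
    (hP2 : ∀ k, k + 3 ≤ m + 2 → r (k + 2) ≤ r (k + 1) + (k + 2) →
      r (k + 3) + r (k + 1) ≤ r (k + 2) + r (k + 2))
    (hP3 : ∀ k, k + 3 ≤ m + 2 → r (k + 2) ≤ r (k + 1) + (k + 2) → r (k + 2) ≤ r (k + 1) + (κ + 1) →
      r (k + 3) + r (k + 1) < r (k + 2) + r (k + 2))
    (hs1 : r (m + 1) + 1 ≤ r (m + 2)) (hs2 : r m + 4 ≤ r (m + 2)) :
    (κ + 2) * (m + 2) ≤ r (m + 2) + κ * (κ + 1) + 2 := by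
  let δ : ℕ → ℕ := fun k => if k = 0 then r 1 else r (k + 1) - r k
  have hδ : ∀ k, 1 ≤ k → r (k + 1) = r k + δ k := fun k hk => by
    have := hmono k
    have h0 : k ≠ 0 := by omega
    simp only [δ, h0, if_false]
    omega
  have hδ0 : r 1 = δ 0 := by simp [δ]
  let dd : ℕ → ℕ := fun j => (κ - j) + (if j = 0 then 1 else 0)
  have hlate : ∀ i, ∀ k, k + i + 1 = m + 2 → 1 ≤ k → δ k ≤ k + 1 → κ + 2 ≤ δ k + dd i := by
    intro i
    induction i with
    | zero =>
      intro k hk _ _
      have hk' : k = m + 1 := by omega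
      subst hk'
      have := hδ (m + 1) (by omega)
      have hd : dd 0 = κ + 1 := by simp [dd]
      have e : m + 1 + 1 = m + 2 := by ring
      rw [e] at this
      omega
    | succ i ih =>
      intro k hk hk1 hle
      obtain ⟨k', rfl⟩ : ∃ k', k = k' + 1 := ⟨k - 1, by omega⟩
      have e1 := hδ (k' + 1) (by omega)
      have e2 := hδ (k' + 2) (by omega)
      have e3 : k' + 1 + 1 = k' + 2 := by ring
      have e4 : k' + 2 + 1 = k' + 3 := by ring
      rw [e3] at e1
      rw [e4] at e2
      have p2 := hP2 k' (by omega) (by omega)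
      by_cases hbig : κ + 2 ≤ δ (k' + 1)
      · omega
      · have p3 := hP3 k' (by omega) (by omega) (by omega)
        rcases Nat.eq_zero_or_pos i with rfl | hi
        · have hk' : k' + 1 = m := by omega
          have hd : dd (0 + 1) = κ - 1 := by simp [dd]
          rw [hd]
          have e5 : k' + 2 = m + 1 := by omega
          have e6 : k' + 3 = m + 2 := by omega
          rw [hk'] at e1 p3 p2
          rw [e5, e6] at e2
          rw [e5, e6] at p3 p2
          rw [e5] at e1
          rw [hk'] at hle hbig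
          rw [hk']
          omega
        · have h6 := ih (k' + 2) (by omega) (by omega) (by omega)
          have hd1 : dd i = κ - i := by simp [dd]; omega
          have hd2 : dd (i + 1) = κ - (i + 1) := by simp [dd]
          omega
  have hmain : ∀ k ∈ range (m + 2), κ + 2 ≤ δ k + dd k + dd (m + 2 - 1 - k) := by
    intro k hk
    rw [Finset.mem_range] at hk
    rcases Nat.eq_zero_or_pos k with rfl | hk1
    · have hd : dd 0 = κ + 1 := by simp [dd]
      omega
    · by_cases hl : δ k ≤ k + 1
      · have := hlate (m + 2 - 1 - k) k (by omega) hk1 hl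
        omega
      · have hd : dd k = κ - k := by simp [dd]; omega
        omega
  have hsum := Finset.sum_le_sum hmain
  simp only [Finset.sum_add_distrib, Finset.sum_const, Finset.card_range, smul_eq_mul] at hsum
  rw [Finset.sum_range_reflect] at hsum
  have htel : ∀ j, r (j + 1) = ∑ k ∈ range (j + 1), δ k := by
    intro j
    induction j with
    | zero => simp [hδ0]
    | succ j ih => rw [Finset.sum_range_succ, ← ih]; exact hδ (j + 1) (by omega)
  have hdd : 2 * ∑ k ∈ range (m + 2), dd k ≤ κ * (κ + 1) + 2 := by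
    simp only [dd, Finset.sum_add_distrib]
    have h3 := sum_sub_le κ (m + 2)
    have h4 : ∑ k ∈ range (m + 2), (if k = 0 then 1 else 0) = 1 := by
      simp
    rw [h4]
    omega
  have h5 := htel (m + 1)
  have e : m + 1 + 1 = m + 2 := by ring
  rw [e] at h5
  rw [← h5] at hsum
  nlinarith

end Pool.Agent.H216.SOS
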