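import Pool.Agent.H216.SOS.Delta

set_option autoImplicit false

namespace Pool.Agent.H216.SOS

open Filter MvPolynomial Module

theorem eval_self_mem {n : ℕ} (f : R n) :
    (fun v : Fin n → ℂ => eval v f) ∈ PolyFun (Fin n → ℂ) := by
  have h := eval_mem (S := Fin n → ℂ) (g := fun (i : Fin n) (v : Fin n → ℂ) => v i)
    (fun i => coord_mem i) f
  exact h

/-- generic values of a linearly independent family span -/
theorem mem_span_gen {n N : ℕ} {M : Type*} [AddCommGroup M] [Module ℂ M] (p : Fin N → M)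
    (p' : Fin N → R n) (hp' : LinearIndependent ℂ p') {P : (Fin n → ℂ) → Prop}
    (hP : ∀ᶠ v in gen (Fin n → ℂ), P v) (i : Fin N) :
    p i ∈ Submodule.span ℂ {m | ∃ v, P v ∧ m = ∑ j, eval v (p' j) • p j} := by
  by_contra hcon
  obtain ⟨L, hL1, hL2⟩ := Submodule.exists_le_ker_of_notMem hcon
  apply hL1
  have hmem : (fun v : Fin n → ℂ => ∑ j, eval v (p' j) * L (p j)) ∈ PolyFun (Fin n → ℂ) := by
    apply sum_mem'
    intro j _
    exact mul_mem' (eval_self_mem (p' j)) (const_mem _)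
  have hzero : ∀ v, ∑ j, eval v (p' j) * L (p j) = 0 := by
    by_contra hne
    push Not at hne
    obtain ⟨v₀, hv₀⟩ := hne
    obtain ⟨v, hv, hPv⟩ := ((gen_of_ne hmem hv₀).and hP).exists
    apply hv
    have h1 : (∑ j, eval v (p' j) • p j) ∈ LinearMap.ker L :=
      hL2 (Submodule.subset_span ⟨v, hPv, rfl⟩)
    rw [LinearMap.mem_ker, map_sum] at h1
    simpa using h1
  rw [Fintype.linearIndependent_iff] at hp'
  apply hp' (fun j => L (p j))
  apply MvPolynomial.funext
  intro v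
  rw [map_sum, map_zero, ← hzero v]
  apply Finset.sum_congr rfl
  intro j _
  rw [MvPolynomial.smul_eval, mul_comm]

/-- The data: `∑ p_j(z) p'_j(v) = (∑ z_i v_i) ∑ q_i(z) q'_i(v)` with linearly independent
families. -/
structure Dat (n N ρ : ℕ) where
  p : Fin N → R n
  p' : Fin N → R n
  q : Fin ρ → R n
  q' : Fin ρ → R n
  hp : LinearIndependent ℂ p
  hp' : LinearIndependent ℂ p'
  hq : LinearIndependent ℂ q
  hq' : LinearIndependent ℂ q'
  id : ∀ v : Fin n → ℂ, ∑ j, eval v (p' j) • p j = lin v * ∑ i, eval v (q' i) • q i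

namespace Dat

variable {n N ρ : ℕ} (D : Dat n N ρ)

/-- the span of the `p_j` -/
noncomputable def V : Submodule ℂ (R n) := Submodule.span ℂ (Set.range D.p)

/-- the span of the `q_i` -/
noncomputable def W : Submodule ℂ (R n) := Submodule.span ℂ (Set.range D.q)

/-- the value of `A` at `v` -/
noncomputable def A (v : Fin n → ℂ) : R n := ∑ i, eval v (D.q' i) • D.q i

/-- the value of `B` at `v` -/
noncomputable def B (v : Fin n → ℂ) : R n := ∑ j, eval v (D.p' j) • D.p j

theorem B_eq (v : Fin n → ℂ) : D.B v = lin v * D.A v := D.id v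

noncomputable instance : FiniteDimensional ℂ D.V := by
  unfold V
  exact FiniteDimensional.span_of_finite ℂ (Set.finite_range _)

noncomputable instance : FiniteDimensional ℂ D.W := by
  unfold W
  exact FiniteDimensional.span_of_finite ℂ (Set.finite_range _)

theorem finrank_V : finrank ℂ D.V = N := by
  unfold V
  rw [finrank_span_eq_card D.hp]
  simp

theorem finrank_W : finrank ℂ D.W = ρ := by
  unfold W
  rw [finrank_span_eq_card D.hq]
  simp

theorem B_mem (v : Fin n → ℂ) : D.B v ∈ D.V := by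
  unfold B V
  exact Submodule.sum_mem _ fun j _ => Submodule.smul_mem _ _ (Submodule.subset_span ⟨j, rfl⟩)

theorem A_mem (v : Fin n → ℂ) : D.A v ∈ D.W := by
  unfold A W
  exact Submodule.sum_mem _ fun j _ => Submodule.smul_mem _ _ (Submodule.subset_span ⟨j, rfl⟩)

theorem V_le_span {P : (Fin n → ℂ) → Prop} (hP : ∀ᶠ v in gen (Fin n → ℂ), P v) :
    D.V ≤ Submodule.span ℂ {m | ∃ v, P v ∧ m = D.B v} := by
  unfold V
  rw [Submodule.span_le]
  rintro _ ⟨j, rfl⟩
  exact mem_span_gen D.p D.p' D.hp' hP j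

theorem W_le_span {P : (Fin n → ℂ) → Prop} (hP : ∀ᶠ v in gen (Fin n → ℂ), P v) :
    D.W ≤ Submodule.span ℂ {m | ∃ v, P v ∧ m = D.A v} := by
  unfold W
  rw [Submodule.span_le]
  rintro _ ⟨j, rfl⟩
  exact mem_span_gen D.q D.q' D.hq' hP j

theorem pb_A_mem {k : ℕ} (χ : Matrix (Fin n) (Fin k) ℂ) (v : Fin n → ℂ) :
    pb χ (D.A v) ∈ U (res D.V χ) (Matrix.vecMul v χ) := by
  rw [mem_U, ← pb_lin, ← map_mul, ← B_eq]
  exact pb_mem_res _ (D.B_mem v)

/-- generic forms pull back to generic forms -/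
theorem _root_.Pool.Agent.H216.SOS.vecMul_tendsto {n k : ℕ} {χ : Matrix (Fin n) (Fin k) ℂ}
    {π : Matrix (Fin k) (Fin n) ℂ} (h : π * χ = 1) :
    Tendsto (fun v => Matrix.vecMul v χ) (gen (Fin n → ℂ)) (gen (Fin k → ℂ)) := by
  apply tendsto_linear (Matrix.vecMulLinear χ)
  intro b
  refine ⟨Matrix.vecMul b π, ?_⟩
  rw [Matrix.vecMulLinear_apply, Matrix.vecMul_vecMul, h, Matrix.vecMul_one]

theorem spanned {k : ℕ} {χ : Matrix (Fin n) (Fin k) ℂ}
    {π : Matrix (Fin k) (Fin n) ℂ} (h : π * χ = 1) : Spanned (res D.V χ) := by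
  intro P hP
  have h1 := (vecMul_tendsto h).eventually hP
  refine le_trans (Submodule.map_mono (D.V_le_span h1)) ?_
  rw [Submodule.map_span, Submodule.span_le]
  rintro _ ⟨_, ⟨v, hv, rfl⟩, rfl⟩
  apply Submodule.subset_span
  refine ⟨_, hv, _, D.pb_A_mem χ v, ?_⟩
  change pb χ (D.B v) = _
  rw [B_eq, map_mul, pb_lin]

theorem spanned_gen {k : ℕ} (hk : k ≤ n) :
    ∀ᶠ χ in gen (Matrix (Fin n) (Fin k) ℂ), Spanned (res D.V χ) :=
  (left_inv_gen hk).mono fun _ ⟨_, h⟩ => D.spanned h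

/-- the monotonicity of the increments -/
theorem P2 {k : ℕ} (hk : k + 2 ≤ n)
    (h : rk D.V (k + 2) < rk D.V (k + 1) + (k + 2) ∨
      (rk D.V (k + 2) ≤ rk D.V (k + 1) + (k + 2) ∧ 4 ≤ rk D.V 2)) :
    rk D.V (k + 3) + rk D.V (k + 1) ≤ rk D.V (k + 2) + rk D.V (k + 2) :=
  Pool.Agent.H216.SOS.P2 D.V (D.spanned_gen hk) h

/-- the plateau lemma -/
theorem P3 {k : ℕ} (hk : k + 2 ≤ n)
    (h1 : rk D.V (k + 2) ≤ rk D.V (k + 1) + (k + 2))
    (h2 : rk D.V (k + 2) + rk D.V (k + 2) ≤ rk D.V (k + 3) + rk D.V (k + 1)) :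
    rk D.W (k + 2) + rk D.V (k + 1) ≤ rk D.V (k + 2) := by
  obtain ⟨φ, hgV, hgW, π, hπ⟩ := ((good_gen (k + 2) D.V).and ((good_gen (k + 2) D.W).and
    ((fc_tendsto n (k + 2)).eventually (left_inv_gen hk)))).exists
  set χ := fc φ with hχ
  set Z := res D.V χ with hZ
  set Y := res D.V φ with hY
  have hmono := rk_mono_succ D.V (k + 1)
  -- dimension of `U Z c` for generic `c`
  have hUZ : ∀ᶠ c in gen (Fin (k + 2) → ℂ), c ≠ 0 ∧
      rk D.V (k + 2) = rk D.V (k + 1) + finrank ℂ (U Z c) := by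
    filter_upwards [U_gen Z] with c hc
    refine ⟨hc.1, ?_⟩
    have := hc.2
    rw [hgV.b, hgV.c (k + 1) (Nat.le_succ _)] at this
    exact this
  -- the last coordinate as a linear form
  let e : Fin (k + 3) → ℂ := Pi.single (Fin.last (k + 2)) 1
  have he0 : e ≠ 0 := by
    intro h
    have := congrFun h (Fin.last (k + 2))
    simp [e] at this
  have he : lin e = lc (k + 2) := by
    apply MvPolynomial.funext
    intro x
    simp [e, lc, Pi.single_apply]
  have hUY : rk D.V (k + 3) ≤ rk D.V (k + 2) + finrank ℂ (U Y e) := by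
    have := le_rk_add_U Y he0
    rw [hgV.a, hgV.d] at this
    exact this
  have hfdY := (finrank_U_eq Y he0).1
  -- for all `c`, `z0` maps `U Y e` into `U Z c`
  have hmap : ∀ c, (U Y e).map (pb (sn (0 : Fin (k + 2) → ℂ))).toLinearMap ≤ U Z c := by
    rintro c _ ⟨g, hg, rfl⟩
    replace hg : lin e * g ∈ Y := hg
    rw [he] at hg
    have := F1 Y hgV.hmax (p := 1) (g := g) (by rwa [pow_one]) c
    rw [resz, hY, res_fc, pow_one] at this
    exact this
  -- the constant space
  have hC : ∃ C : Submodule ℂ (R (k + 2)), FiniteDimensional ℂ C ∧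
      (∀ᶠ c in gen (Fin (k + 2) → ℂ), U Z c = C) := by
    by_cases hA : ∃ g ∈ U Y e, g ≠ 0 ∧ z0 g = 0
    · obtain ⟨g, hgU, hg0, hgz⟩ := hA
      obtain ⟨p, h, hgh, hh0⟩ := exists_factor hg0
      have hp : 1 ≤ p := by
        rcases Nat.eq_zero_or_pos p with rfl | hp
        · exfalso
          apply hh0
          rw [pow_zero, one_mul] at hgh
          rw [← hgh]
          exact hgz
        · exact hp
      have hF : ∀ b, lin b ^ (p + 1) * z0 h ∈ Z := by
        intro b
        have h3 : lc (k + 2) ^ (p + 1) * h ∈ Y := by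
          rw [mem_U, he, hgh] at hgU
          convert hgU using 1
          ring
        have h4 := F1 Y hgV.hmax h3 b
        rw [resz, hY, res_fc] at h4
        exact h4
      refine ⟨S1 (z0 h), inferInstance, hUZ.mono fun c hc => ?_⟩
      have hfd := (finrank_U_eq Z hc.1).1
      have h5 : ∀ b, lin b ^ p * z0 h ∈ U Z c := fun b => polarise hF b c
      exact ((pow_space hp hh0 h5).2 (by omega)).2
    · push Not at hA
      have hinj : Function.Injective
          ((pb (sn (0 : Fin (k + 2) → ℂ))).toLinearMap.domRestrict (U Y e)) := by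
        rw [← LinearMap.ker_eq_bot, LinearMap.ker_eq_bot']
        rintro ⟨g, hgm⟩ hg0
        by_contra hne
        exact hA g hgm (fun h => hne (Subtype.ext h)) hg0
      have h2' := LinearMap.finrank_range_of_inj hinj
      rw [LinearMap.range_domRestrict] at h2'
      refine ⟨(U Y e).map (pb (sn (0 : Fin (k + 2) → ℂ))).toLinearMap, inferInstance,
        hUZ.mono fun c hc => ?_⟩
      have hfd := (finrank_U_eq Z hc.1).1
      symm
      apply Submodule.eq_of_le_of_finrank_le (hmap c)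
      rw [h2']
      have := hc.2
      omega
  obtain ⟨C, hCfd, hC⟩ := hC
  have hW : res D.W χ ≤ C := by
    have h1 := (vecMul_tendsto hπ).eventually hC
    refine le_trans (Submodule.map_mono (D.W_le_span h1)) ?_
    rw [Submodule.map_span, Submodule.span_le]
    rintro _ ⟨_, ⟨v, hv, rfl⟩, rfl⟩
    rw [← hv]
    exact D.pb_A_mem χ v
  obtain ⟨c, hc, hcC⟩ := (hUZ.and hC).exists
  have h3 := Submodule.finrank_mono hW
  rw [hgW.b, ← hcC] at h3
  have := hc.2
  omega

/-- restrictions of `V` are contained in products of linear forms with restrictions of `W` -/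
theorem res_V_le {k : ℕ} (χ : Matrix (Fin n) (Fin k) ℂ) {g : R k} (h : res D.W χ ≤ S1 g) :
    res D.V χ ≤ S2 g := by
  refine le_trans (Submodule.map_mono (D.V_le_span (P := fun _ => True)
    (Filter.Eventually.of_forall fun _ => trivial))) ?_
  rw [Submodule.map_span, Submodule.span_le]
  rintro _ ⟨_, ⟨v, -, rfl⟩, rfl⟩
  change pb χ (D.B v) ∈ S2 g
  rw [B_eq, map_mul, pb_lin]
  obtain ⟨b, hb⟩ := h (pb_mem_res χ (D.A_mem v))
  apply Submodule.subset_span
  refine ⟨Matrix.vecMul v χ, b, ?_⟩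
  rw [← hb]
  rfl

end Dat

/-- A space of rank two on planes which is not of rank two on spaces of dimension three -/
theorem Q2 {n : ℕ} (X : Submodule ℂ (R n)) [FiniteDimensional ℂ X] (h1 : rk X 2 ≤ 2)
    (h2 : rk X 2 < rk X 3) {φ : Matrix (Fin n) (Fin 3) ℂ} (hg : Good (k := 2) X φ) :
    ∃ g, g ≠ 0 ∧ res X (fc φ) = S1 g := by
  obtain ⟨f, hf, hf0, hz⟩ := exists_kernel (V := X) (φ := φ) (by rw [hg.a, hg.b]; exact h2)
  obtain ⟨p, g, hg0, hF⟩ := hg.no_kernel hf hf0 hz
  have := (pow_space (k := 0) (by omega) hg0 hF).2 (by rw [hg.b]; exact h1)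
  exact ⟨g, hg0, this.2⟩

theorem Dat.rk_V_two_le {n N ρ : ℕ} (D : Dat n N ρ) (h1 : rk D.W 2 ≤ 2)
    (h2 : rk D.W 2 < rk D.W 3) : rk D.V 2 ≤ 3 := by
  obtain ⟨φ, hgV, hgW⟩ := ((good_gen 2 D.V).and (good_gen 2 D.W)).exists
  obtain ⟨g, hg0, hg⟩ := Q2 D.W h1 h2 hgW
  have h3 := rk_two_le (D.res_V_le (fc φ) (le_of_eq hg))
  rwa [hgV.c 2 le_rfl] at h3

/-- If `rk W K ≤ K` and `rk V 2 ≥ 4` then `rk W K` is the full rank. -/
theorem Dat.rank_le {n N ρ : ℕ} (D : Dat n N ρ) {K : ℕ} (hK : 2 ≤ K) (hKn : K ≤ n)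
    (h4 : 4 ≤ rk D.V 2 ∨ rk D.W K < K) (hW : rk D.W K ≤ K) : ρ ≤ rk D.W K := by
  by_contra hcon
  push Not at hcon
  have hn : rk D.W n = ρ := by rw [rk_self, D.finrank_W]
  have hmono : Monotone (rk D.W) := monotone_nat_of_le_succ (rk_mono_succ D.W)
  have hstep : ∀ j ≤ K, rk D.W j + 1 ≤ rk D.W (j + 1) := by
    intro j hj
    by_contra hlt
    have h1 : rk D.W (j + 1) = rk D.W j := le_antisymm (by omega) (rk_mono_succ _ _)
    have h2 := H1 D.W h1 (n - j)
    rw [Nat.add_sub_cancel' (by omega)] at h2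
    have := hmono hj
    omega
  have hge : ∀ j ≤ K, rk D.W 0 + j ≤ rk D.W j := by
    intro j
    induction j with
    | zero => intro _; exact le_rfl
    | succ j ih =>
      intro hj
      have := ih (by omega)
      have := hstep j (by omega)
      omega
  have hge2 : ∀ m, m + 2 ≤ K → rk D.W 2 + m ≤ rk D.W (m + 2) := by
    intro m
    induction m with
    | zero => intro _; exact le_rfl
    | succ m ih =>
      intro hj
      have := ih (by omega)
      have := hstep (m + 2) (by omega)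
      have h5 : m + 2 + 1 = m + 1 + 2 := by ring
      rw [h5] at this
      omega
  have h5 := hge2 (K - 2) (by omega)
  rw [Nat.sub_add_cancel hK] at h5
  have h6 := hge K le_rfl
  have h7 : rk D.W 2 + 1 ≤ rk D.W 3 := hstep 2 hK
  have h8 := D.rk_V_two_le (by omega) (by omega)
  omega

end Pool.Agent.H216.SOS
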