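import Pool.Agent.H216.SOS.Alg

set_option autoImplicit false

namespace Pool.Agent.H216.SOS

open Filter MvPolynomial Module

/-- right multiplication by a matrix -/
noncomputable def mulR (n : ℕ) {k j : ℕ} (ι : Matrix (Fin k) (Fin j) ℂ) :
    Matrix (Fin n) (Fin k) ℂ →ₗ[ℂ] Matrix (Fin n) (Fin j) ℂ where
  toFun χ := χ * ι
  map_add' a b := Matrix.add_mul a b ι
  map_smul' c a := Matrix.smul_mul c a ι

theorem mulR_surj (n : ℕ) {k j : ℕ} {ι : Matrix (Fin k) (Fin j) ℂ}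
    {π : Matrix (Fin j) (Fin k) ℂ} (h : π * ι = 1) : Function.Surjective (mulR n ι) := by
  intro θ
  refine ⟨θ * π, ?_⟩
  change θ * π * ι = θ
  rw [Matrix.mul_assoc, h, Matrix.mul_one]

theorem exists_incl {k j : ℕ} (h : j ≤ k) : ∃ (ι : Matrix (Fin k) (Fin j) ℂ)
    (π : Matrix (Fin j) (Fin k) ℂ), π * ι = 1 := by
  refine ⟨Matrix.of fun i l => if i = Fin.castLE h l then 1 else 0,
    Matrix.of fun l i => if i = Fin.castLE h l then 1 else 0, ?_⟩
  ext a b
  rw [Matrix.mul_apply]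
  simp [Matrix.one_apply, eq_comm]

theorem sn_left_inv {k : ℕ} : (sn (0 : Fin k → ℂ)).transpose * sn (0 : Fin k → ℂ) = 1 := by
  ext a b
  rw [Matrix.mul_apply, Fin.sum_univ_castSucc]
  simp [Matrix.one_apply, eq_comm]

/-- the first columns of a matrix -/
noncomputable def fc {n k : ℕ} (φ : Matrix (Fin n) (Fin (k + 1)) ℂ) :
    Matrix (Fin n) (Fin k) ℂ := mulR n (sn (0 : Fin k → ℂ)) φ

theorem fc_tendsto (n k : ℕ) :
    Tendsto fc (gen (Matrix (Fin n) (Fin (k + 1)) ℂ)) (gen (Matrix (Fin n) (Fin k) ℂ)) :=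
  tendsto_linear (mulR n (sn (0 : Fin k → ℂ))) (mulR_surj n sn_left_inv)

theorem res_fc {n k : ℕ} (X : Submodule ℂ (R n)) (φ : Matrix (Fin n) (Fin (k + 1)) ℂ) :
    res (res X φ) (sn (0 : Fin k → ℂ)) = res X (fc φ) := res_res _ _ _

theorem rk_res_gen {n : ℕ} (X : Submodule ℂ (R n)) [FiniteDimensional ℂ X] {k j : ℕ}
    (hj : j ≤ k) : ∀ᶠ χ in gen (Matrix (Fin n) (Fin k) ℂ), rk (res X χ) j = rk X j := by
  obtain ⟨ι, π, h⟩ := exists_incl hj
  have h1 := (tendsto_linear (mulR n ι) (mulR_surj n h)).eventually (rk_gen X j)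
  refine h1.mono fun χ hχ => le_antisymm (rk_res_le X χ j) ?_
  rw [← hχ]
  change finrank ℂ (res X (χ * ι)) ≤ _
  rw [← res_res]
  exact le_rk _ _

/-- generic conditions -/
structure Good {n k : ℕ} (X : Submodule ℂ (R n)) (φ : Matrix (Fin n) (Fin (k + 1)) ℂ) :
    Prop where
  a : finrank ℂ (res X φ) = rk X (k + 1)
  b : finrank ℂ (res X (fc φ)) = rk X k
  c : ∀ j ≤ k, rk (res X (fc φ)) j = rk X j
  d : rk (res X φ) k = rk X k

theorem good_gen {n : ℕ} (k : ℕ) (X : Submodule ℂ (R n)) [FiniteDimensional ℂ X] :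
    ∀ᶠ φ in gen (Matrix (Fin n) (Fin (k + 1)) ℂ), Good X φ := by
  have ht := fc_tendsto n k
  have h1 := ht.eventually (rk_gen X k)
  have h2 : ∀ᶠ χ in gen (Matrix (Fin n) (Fin k) ℂ), ∀ j ∈ Finset.range (k + 1),
      rk (res X χ) j = rk X j := by
    rw [Filter.eventually_all_finset]
    intro j hj
    exact rk_res_gen X (by simpa [Nat.lt_succ_iff] using hj)
  have h3 := ht.eventually h2
  filter_upwards [rk_gen X (k + 1), h1, h3, rk_res_gen X (Nat.le_succ k)] with φ ha hb hc hd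
  exact ⟨ha, hb, fun j hj => hc j (by simpa [Nat.lt_succ_iff] using hj), hd⟩

theorem left_inv_gen {n k : ℕ} (h : k ≤ n) :
    ∀ᶠ χ : Matrix (Fin n) (Fin k) ℂ in gen (Matrix (Fin n) (Fin k) ℂ),
      ∃ π : Matrix (Fin k) (Fin n) ℂ, π * χ = 1 := by
  obtain ⟨ι, π, hι⟩ := exists_incl h
  have hD : (fun χ : Matrix (Fin n) (Fin k) ℂ => (π * χ).det) ∈
      PolyFun (Matrix (Fin n) (Fin k) ℂ) := by
    apply det_mem
    intro i j
    simp only [Matrix.mul_apply]
    exact sum_mem' _ fun l _ => mul_mem' (const_mem _) (entry_mem l j)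
  refine (gen_of_ne hD (x := ι) (by simp [hι])).mono fun χ hχ => ?_
  refine ⟨(π * χ)⁻¹ * π, ?_⟩
  rw [Matrix.mul_assoc]
  exact Matrix.nonsing_inv_mul _ (isUnit_iff_ne_zero.2 hχ)

theorem snoc_ne_zero {k : ℕ} {a : Fin k → ℂ} (ha : a ≠ 0) :
    (Fin.snoc (α := fun _ => ℂ) a 0 : Fin (k + 1) → ℂ) ≠ 0 := by
  intro h
  apply ha
  funext i
  have := congrFun h i.castSucc
  simpa using this

theorem z0_lin_snoc {k : ℕ} (a : Fin k → ℂ) (c : ℂ) :
    z0 (lin (Fin.snoc (α := fun _ => ℂ) a c : Fin (k + 1) → ℂ)) = lin a := by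
  change pb (sn 0) (lin _) = _
  rw [pb_lin, vecMul_sn_zero]
  simp

section step

variable {n k : ℕ} {V : Submodule ℂ (R n)} [FiniteDimensional ℂ V]
  {φ : Matrix (Fin n) (Fin (k + 1)) ℂ}

omit [FiniteDimensional ℂ V] in
theorem Good.hmax (hg : Good V φ) :
    finrank ℂ (resz (res V φ)) = rk (res V φ) k := by
  rw [hg.d, ← hg.b, resz, res_fc]

/-- if there is no drop, then there is no kernel -/
theorem Good.no_kernel (hg : Good V φ) {f : R (k + 1)} (hf : f ∈ res V φ) (hf0 : f ≠ 0)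
    (hz : z0 f = 0) : ∃ (p : ℕ) (g : R k), g ≠ 0 ∧
      ∀ a, lin a ^ (p + 1) * g ∈ res V (fc φ) := by
  obtain ⟨p, g, hfg, hg0⟩ := exists_factor hf0
  rcases Nat.eq_zero_or_pos p with rfl | hp
  · exfalso
    apply hg0
    rw [pow_zero, one_mul] at hfg
    rw [← hfg]
    exact hz
  · obtain ⟨p, rfl⟩ : ∃ q, p = q + 1 := ⟨p - 1, by omega⟩
    refine ⟨p, z0 g, hg0, fun a => ?_⟩
    have := F1 (res V φ) hg.hmax (p := p + 1) (g := g) (by rw [← hfg]; exact hf) a
    rwa [resz, res_fc] at this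

theorem exists_kernel (h : finrank ℂ (res V (fc φ)) < finrank ℂ (res V φ)) :
    ∃ f ∈ res V φ, f ≠ 0 ∧ z0 f = 0 := by
  have h1 := finrank_res_add_ker (res V φ) (sn (0 : Fin k → ℂ))
  rw [res_fc] at h1
  have h2 : (LinearMap.ker (pb (sn (0 : Fin k → ℂ))).toLinearMap ⊓ res V φ :
      Submodule ℂ (R (k + 1))) ≠ ⊥ := by
    intro h3
    rw [h3, finrank_bot] at h1
    omega
  obtain ⟨f, hf, hf0⟩ := Submodule.exists_mem_ne_zero_of_ne_bot h2
  exact ⟨f, hf.2, hf0, hf.1⟩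

end step

/-- once the rank stabilises it does not grow any more: one step -/
theorem H1_step {n : ℕ} (X : Submodule ℂ (R n)) [FiniteDimensional ℂ X] {j : ℕ}
    (h : rk X (j + 1) = rk X j) : rk X (j + 1 + 1) = rk X (j + 1) := by
  obtain ⟨φ, hg⟩ := (good_gen (j + 1) X).exists
  rw [← hg.a, ← hg.b]
  by_contra hne
  have hle : finrank ℂ (res X (fc φ)) ≤ finrank ℂ (res X φ) := by
    rw [← res_fc]
    exact finrank_res_le _ _
  obtain ⟨f, hf, hf0, hz⟩ := exists_kernel (lt_of_le_of_ne hle (Ne.symm hne))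
  obtain ⟨p, g, hg0, hF⟩ := hg.no_kernel hf hf0 hz
  obtain ⟨a, ha0, ha⟩ := (U_gen (res X (fc φ))).exists
  rw [hg.b, hg.c j (Nat.le_succ j), h] at ha
  have h1 : finrank ℂ (U (res X (fc φ)) a) = 0 := by omega
  have h2 : lin a ^ p * g ∈ U (res X (fc φ)) a := by
    rw [mem_U]
    convert hF a using 1
    ring
  have hfd := (finrank_U_eq (res X (fc φ)) ha0).1
  rw [Submodule.finrank_eq_zero] at h1
  rw [h1, Submodule.mem_bot] at h2
  exact mul_ne_zero (pow_ne_zero _ (lin_ne_zero ha0)) hg0 h2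

theorem H1 {n : ℕ} (X : Submodule ℂ (R n)) [FiniteDimensional ℂ X] {j : ℕ}
    (h : rk X (j + 1) = rk X j) : ∀ m, rk X (j + m) = rk X j := by
  have h1 : ∀ m, rk X (j + m + 1) = rk X (j + m) := by
    intro m
    induction m with
    | zero => exact h
    | succ m ih => exact H1_step X ih
  intro m
  induction m with
  | zero => rfl
  | succ m ih => rw [← ih]; exact h1 m

theorem rk_mono_succ {n : ℕ} (X : Submodule ℂ (R n)) [FiniteDimensional ℂ X] (k : ℕ) :
    rk X k ≤ rk X (k + 1) := by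
  obtain ⟨φ, hg⟩ := (good_gen k X).exists
  rw [← hg.b, ← hg.a, ← res_fc]
  exact finrank_res_le _ _

/-- monotonicity of the increments -/
theorem P2 {n : ℕ} (V : Submodule ℂ (R n)) [FiniteDimensional ℂ V] {k : ℕ}
    (hs : ∀ᶠ χ in gen (Matrix (Fin n) (Fin (k + 2)) ℂ), Spanned (res V χ))
    (h : rk V (k + 2) < rk V (k + 1) + (k + 2) ∨
      (rk V (k + 2) ≤ rk V (k + 1) + (k + 2) ∧ 4 ≤ rk V 2)) :
    rk V (k + 3) + rk V (k + 1) ≤ rk V (k + 2) + rk V (k + 2) := by
  by_contra hcon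
  push Not at hcon
  have ht := fc_tendsto n (k + 2)
  obtain ⟨φ, hg, hsp⟩ := ((good_gen (k + 2) V).and (ht.eventually hs)).exists
  set Z := res V (fc φ) with hZ
  have hmono := rk_mono_succ V (k + 1)
  -- the key claim for generic `a`
  have key : ∀ᶠ a in gen (Fin (k + 2) → ℂ), ∃ g, g ≠ 0 ∧ k + 2 ≤ finrank ℂ (U Z a) ∧
      (finrank ℂ (U Z a) ≤ k + 2 → U Z a = S1 g) ∧
      finrank ℂ (U Z a) + rk V (k + 1) = rk V (k + 2) := by
    filter_upwards [U_gen Z] with a ha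
    obtain ⟨ha0, ha⟩ := ha
    rw [hg.b, hg.c (k + 1) (Nat.le_succ _)] at ha
    have ha1 : rk V (k + 2) = rk V (k + 1) + finrank ℂ (U Z a) := ha
    have hfd := (finrank_U_eq Z ha0).1
    let a' : Fin (k + 3) → ℂ := Fin.snoc (α := fun _ => ℂ) a 0
    have ha'0 : a' ≠ 0 := snoc_ne_zero ha0
    have h1 := le_rk_add_U (res V φ) ha'0
    rw [hg.a, hg.d] at h1
    have h1' : rk V (k + 3) ≤ rk V (k + 2) + finrank ℂ (U (res V φ) a') := h1
    have hfd' := (finrank_U_eq (res V φ) ha'0).1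
    -- the restriction `U Y a' → U Z a`
    have hmap : (U (res V φ) a').map (pb (sn (0 : Fin (k + 2) → ℂ))).toLinearMap ≤ U Z a := by
      rintro _ ⟨g, hgm, rfl⟩
      rw [mem_U]
      have h2 : lin a * z0 g = z0 (lin a' * g) := by
        change _ = pb (sn 0) (lin a' * g)
        rw [map_mul]
        change _ = z0 (lin a') * _
        rw [z0_lin_snoc]
      change lin a * z0 g ∈ _
      rw [h2, hZ, ← res_fc]
      exact pb_mem_res _ hgm
    have hex : ∃ g ∈ U (res V φ) a', g ≠ 0 ∧ z0 g = 0 := by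
      by_contra hno
      push Not at hno
      have hinj : Function.Injective
          ((pb (sn (0 : Fin (k + 2) → ℂ))).toLinearMap.domRestrict (U (res V φ) a')) := by
        rw [← LinearMap.ker_eq_bot, LinearMap.ker_eq_bot']
        rintro ⟨g, hgm⟩ hg0
        by_contra hne
        exact hno g hgm (fun h => hne (Subtype.ext h)) hg0
      have h2 := LinearMap.finrank_range_of_inj hinj
      rw [LinearMap.range_domRestrict] at h2
      have h3 := Submodule.finrank_mono hmap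
      rw [h2] at h3
      omega
    obtain ⟨g, hgU, hg0, hgz⟩ := hex
    obtain ⟨p, h, hgh, hh0⟩ := exists_factor hg0
    have hp : 1 ≤ p := by
      rcases Nat.eq_zero_or_pos p with rfl | hp
      · exfalso
        apply hh0
        rw [pow_zero, one_mul] at hgh
        rw [← hgh]
        exact hgz
      · exact hp
    have hF : ∀ b, lin b ^ p * z0 h ∈ U Z a := by
      intro b
      rw [mem_U]
      have h2 : lc (k + 2) ^ p * (lin a' * h) ∈ res V φ := by
        rw [mem_U, hgh] at hgU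
        convert hgU using 1
        ring
      have h3 := F1 (res V φ) hg.hmax h2 b
      rw [resz, res_fc] at h3
      convert h3 using 1
      change _ = _ * pb (sn 0) (lin a' * h)
      rw [map_mul]
      change _ = _ * (z0 (lin a') * _)
      rw [z0_lin_snoc]
      ring
    obtain ⟨h4, h5⟩ := pow_space hp hh0 hF
    exact ⟨z0 h, hh0, h4, fun h6 => (h5 h6).2, by omega⟩
  obtain ⟨a, g, hg0, h1, h2, h3⟩ := key.exists
  have h4 : rk V (k + 2) ≤ rk V (k + 1) + (k + 2) ∧ 4 ≤ rk V 2 := by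
    rcases h with h | h
    · omega
    · exact h
  have h5 : ∀ᶠ a in gen (Fin (k + 2) → ℂ), ∃ g, g ≠ 0 ∧ U Z a = S1 g := by
    refine key.mono ?_
    rintro a ⟨g, hg0, h1, h2, h3⟩
    exact ⟨g, hg0, h2 (by omega)⟩
  obtain ⟨g', hg'0, h6⟩ := const_gen h5
  have h7 := hsp.rk_two_le h6
  rw [hg.c 2 (by omega)] at h7
  omega

end Pool.Agent.H216.SOS
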