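import Pool.Agent.H216.SOS.Mac

set_option autoImplicit false

namespace Pool.Agent.H216.SOS

open MvPolynomial Module ComplexConjugate

/-- A linear functional can be applied in both groups of variables. -/
theorem herm_functional {n : ℕ} {κ : Type*} [Fintype κ] (c : κ → ℝ)
    (b : κ → MvPolynomial (Fin n) ℂ)
    (h : ∀ z w : Fin n → ℂ, ∑ l, (c l : ℂ) * (eval z (b l) * conj (eval w (b l))) = 0)
    (L : MvPolynomial (Fin n) ℂ →ₗ[ℂ] ℂ) : ∑ l, c l * ‖L (b l)‖ ^ 2 = 0 := by
  have h1 : ∀ w : Fin n → ℂ, ∑ l, ((c l : ℂ) * conj (eval w (b l))) • b l = 0 := by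
    intro w
    apply MvPolynomial.funext
    intro z
    rw [map_sum, map_zero, ← h z w]
    apply Finset.sum_congr rfl
    intro l _
    rw [MvPolynomial.smul_eval]
    ring
  have h2 : ∀ w : Fin n → ℂ, ∑ l, ((c l : ℂ) * conj (eval w (b l))) * L (b l) = 0 := by
    intro w
    have := congrArg L (h1 w)
    simpa [map_sum] using this
  have h3 : ∑ l, ((c l : ℂ) * conj (L (b l))) • b l = 0 := by
    apply MvPolynomial.funext
    intro w
    rw [map_sum, map_zero]
    have := congrArg conj (h2 w)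
    rw [map_sum, map_zero] at this
    rw [← this]
    apply Finset.sum_congr rfl
    intro l _
    rw [MvPolynomial.smul_eval, map_mul, map_mul, Complex.conj_conj, Complex.conj_ofReal]
    ring
  have h4 : ∑ l, ((c l : ℂ) * conj (L (b l))) * L (b l) = 0 := by
    have := congrArg L h3
    simpa [map_sum] using this
  have h5 : ((∑ l, c l * ‖L (b l)‖ ^ 2 : ℝ) : ℂ) = 0 := by
    rw [← h4]
    push_cast
    apply Finset.sum_congr rfl
    intro l _
    rw [mul_assoc, ← Complex.conj_mul']
  exact_mod_cast h5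

/-- The functional form of the identity. -/
theorem functional_id {n N ρ : ℕ} (p : Fin N → MvPolynomial (Fin n) ℂ)
    (q : Fin ρ → MvPolynomial (Fin n) ℂ) (lam : Fin ρ → ℝ)
    (hid : ∀ z w : Fin n → ℂ, ∑ j, eval z (p j) * conj (eval w (p j)) =
      (∑ k, z k * conj (w k)) * ∑ i, (lam i : ℂ) * (eval z (q i) * conj (eval w (q i))))
    (L : MvPolynomial (Fin n) ℂ →ₗ[ℂ] ℂ) :
    ∑ j, ‖L (p j)‖ ^ 2 = ∑ i, lam i * ∑ k, ‖L (X k * q i)‖ ^ 2 := by
  have h := herm_functional (κ := Fin N ⊕ Fin n × Fin ρ)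
    (Sum.elim (fun _ => 1) (fun x => -lam x.2)) (Sum.elim p (fun x => X x.1 * q x.2)) ?_ L
  · rw [Fintype.sum_sum_type, Fintype.sum_prod_type] at h
    simp only [Sum.elim_inl, Sum.elim_inr, one_mul, neg_mul, Finset.sum_neg_distrib] at h
    rw [Finset.sum_comm] at h
    simp only [← Finset.mul_sum] at h
    linarith
  · intro z w
    rw [Fintype.sum_sum_type, Fintype.sum_prod_type]
    simp only [Sum.elim_inl, Sum.elim_inr, Complex.ofReal_one, one_mul, Complex.ofReal_neg,
      neg_mul, Finset.sum_neg_distrib]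
    rw [hid, Finset.sum_mul_sum, add_neg_eq_zero]
    apply Finset.sum_congr rfl
    intro k _
    apply Finset.sum_congr rfl
    intro i _
    rw [map_mul, map_mul, eval_X, eval_X, map_mul]
    ring

/-- A Hermitian form of small rank whose product with the squared norm is positive is positive. -/
theorem pos_of_rank {n N ρ : ℕ} (p : Fin N → MvPolynomial (Fin n) ℂ)
    (q : Fin ρ → MvPolynomial (Fin n) ℂ) (hq : LinearIndependent ℂ q) (lam : Fin ρ → ℝ)
    (hlam : ∀ i, lam i ≠ 0)
    (hid : ∀ z w : Fin n → ℂ, ∑ j, eval z (p j) * conj (eval w (p j)) =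
      (∑ k, z k * conj (w k)) * ∑ i, (lam i : ℂ) * (eval z (q i) * conj (eval w (q i))))
    (hρ : ρ * (ρ - 1) < 2 * n) : ∀ i, 0 < lam i := by
  classical
  by_contra hcon
  push Not at hcon
  obtain ⟨i0, hi0⟩ := hcon
  let P : Finset (Fin ρ) := Finset.univ.filter fun i => 0 < lam i
  have hP : P.card + 1 ≤ ρ := by
    have h1 : P ⊆ Finset.univ.erase i0 := by
      intro i hi
      simp only [P, Finset.mem_filter, Finset.mem_univ, true_and] at hi
      rw [Finset.mem_erase]
      refine ⟨?_, Finset.mem_univ _⟩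
      rintro rfl
      linarith
    have h2 := Finset.card_le_card h1
    rw [Finset.card_erase_of_mem (Finset.mem_univ _)] at h2
    have h3 : 0 < ρ := i0.pos
    simp at h2
    omega
  let SP : Submodule ℂ (MvPolynomial (Fin n) ℂ) :=
    Submodule.span ℂ (Set.range fun x : Fin n × P => X x.1 * q x.2.1)
  have hSPfd : FiniteDimensional ℂ SP := FiniteDimensional.span_of_finite ℂ (Set.finite_range _)
  have hSP : finrank ℂ SP ≤ n * P.card := by
    have h := finrank_range_le_card (R := ℂ) (fun x : Fin n × P => X x.1 * q x.2.1)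
    simpa [Set.finrank] using h
  have hle : SS q ≤ SP := by
    unfold SS
    rw [Submodule.span_le]
    rintro _ ⟨⟨k, i⟩, rfl⟩
    by_contra hno
    obtain ⟨L, hL1, hL2⟩ := Submodule.exists_le_ker_of_notMem hno
    have hid' := functional_id p q lam hid L
    have hkill : ∀ i', 0 < lam i' → ∀ k', L (X k' * q i') = 0 := by
      intro i' hi' k'
      apply hL2
      exact Submodule.subset_span ⟨(k', ⟨i', by simp [P, hi']⟩), rfl⟩
    have hle0 : ∀ i', lam i' * ∑ k', ‖L (X k' * q i')‖ ^ 2 ≤ 0 := by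
      intro i'
      rcases lt_trichotomy (lam i') 0 with h | h | h
      · exact mul_nonpos_of_nonpos_of_nonneg h.le (Finset.sum_nonneg fun _ _ => by positivity)
      · exact absurd h (hlam i')
      · simp [hkill i' h]
    have hi : lam i < 0 := by
      rcases lt_trichotomy (lam i) 0 with h | h | h
      · exact h
      · exact absurd h (hlam i)
      · exact absurd (hkill i h k) hL1
    have hneg : lam i * ∑ k', ‖L (X k' * q i)‖ ^ 2 < 0 := by
      apply mul_neg_of_neg_of_pos hi
      apply Finset.sum_pos' (fun _ _ => by positivity)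
      refine ⟨k, Finset.mem_univ _, ?_⟩
      have : L (X k * q i) ≠ 0 := hL1
      positivity
    have h1 : ∑ i', lam i' * ∑ k', ‖L (X k' * q i')‖ ^ 2 < 0 := by
      calc _ = lam i * ∑ k', ‖L (X k' * q i)‖ ^ 2 + ∑ i' ∈ Finset.univ.erase i,
              lam i' * ∑ k', ‖L (X k' * q i')‖ ^ 2 :=
            (Finset.add_sum_erase _ _ (Finset.mem_univ i)).symm
        _ < 0 := by
            have := Finset.sum_nonpos (s := Finset.univ.erase i)
              (f := fun i' => lam i' * ∑ k', ‖L (X k' * q i')‖ ^ 2) (fun i' _ => hle0 i')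
            linarith
    have h2 : 0 ≤ ∑ j, ‖L (p j)‖ ^ 2 := Finset.sum_nonneg fun _ _ => by positivity
    linarith
  have h1 := Submodule.finrank_mono hle
  have h2 := macaulay q hq
  have h3 : finrank ℂ (SS q) ≤ n * (ρ - 1) :=
    le_trans (le_trans h1 hSP) (Nat.mul_le_mul_left _ (by omega))
  obtain ⟨c, rfl⟩ : ∃ c, ρ = c + 1 := ⟨ρ - 1, by omega⟩
  simp only [Nat.add_sub_cancel] at h2 h3 hρ
  nlinarith

/-- If the diagonal form of `A` is positive then the `p_j` span the same space as the products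
of the `q_i` with the variables. -/
theorem span_eq_SS {n N ρ : ℕ} (p : Fin N → MvPolynomial (Fin n) ℂ)
    (q : Fin ρ → MvPolynomial (Fin n) ℂ) (lam : Fin ρ → ℝ)
    (hlam : ∀ i, 0 < lam i)
    (hid : ∀ z w : Fin n → ℂ, ∑ j, eval z (p j) * conj (eval w (p j)) =
      (∑ k, z k * conj (w k)) * ∑ i, (lam i : ℂ) * (eval z (q i) * conj (eval w (q i)))) :
    Submodule.span ℂ (Set.range p) = SS q := by
  apply le_antisymm
  · rw [Submodule.span_le]
    rintro _ ⟨j, rfl⟩
    by_contra hno
    obtain ⟨L, hL1, hL2⟩ := Submodule.exists_le_ker_of_notMem hno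
    have hid' := functional_id p q lam hid L
    have h0 : ∑ i, lam i * ∑ k, ‖L (X k * q i)‖ ^ 2 = 0 := by
      apply Finset.sum_eq_zero
      intro i _
      have : ∀ k, L (X k * q i) = 0 := fun k => hL2 (Submodule.subset_span ⟨(k, i), rfl⟩)
      simp [this]
    rw [h0] at hid'
    have := (Finset.sum_eq_zero_iff_of_nonneg (fun _ _ => by positivity)).1 hid' j
      (Finset.mem_univ _)
    apply hL1
    simpa using this
  · unfold SS
    rw [Submodule.span_le]
    rintro _ ⟨⟨k, i⟩, rfl⟩
    by_contra hno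
    obtain ⟨L, hL1, hL2⟩ := Submodule.exists_le_ker_of_notMem hno
    have hid' := functional_id p q lam hid L
    have h0 : ∑ j, ‖L (p j)‖ ^ 2 = 0 := by
      apply Finset.sum_eq_zero
      intro j _
      have : L (p j) = 0 := hL2 (Submodule.subset_span ⟨j, rfl⟩)
      simp [this]
    rw [h0] at hid'
    have h1 := (Finset.sum_eq_zero_iff_of_nonneg (fun i _ => mul_nonneg (hlam i).le
      (Finset.sum_nonneg fun _ _ => by positivity))).1 hid'.symm i (Finset.mem_univ _)
    have h2 := (mul_eq_zero.1 h1).resolve_left (hlam i).ne'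
    have h3 := (Finset.sum_eq_zero_iff_of_nonneg (fun _ _ => by positivity)).1 h2 k
      (Finset.mem_univ _)
    apply hL1
    simpa using h3

theorem finrank_SS_le {n ρ : ℕ} (q : Fin ρ → MvPolynomial (Fin n) ℂ) :
    finrank ℂ (SS q) ≤ n * ρ := by
  have h := finrank_range_le_card (R := ℂ) (fun x : Fin n × Fin ρ =>
    (X x.1 * q x.2 : MvPolynomial (Fin n) ℂ))
  unfold SS
  refine le_trans h ?_
  simp

/-- the bounds for the rank when `A` is positive -/
theorem rank_bounds {n N ρ : ℕ} (p : Fin N → MvPolynomial (Fin n) ℂ)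
    (hp : LinearIndependent ℂ p)
    (q : Fin ρ → MvPolynomial (Fin n) ℂ) (hq : LinearIndependent ℂ q) (lam : Fin ρ → ℝ)
    (hlam : ∀ i, 0 < lam i)
    (hid : ∀ z w : Fin n → ℂ, ∑ j, eval z (p j) * conj (eval w (p j)) =
      (∑ k, z k * conj (w k)) * ∑ i, (lam i : ℂ) * (eval z (q i) * conj (eval w (q i)))) :
    N ≤ n * ρ ∧ ∀ m ≤ ρ, 2 * n * m ≤ 2 * N + m * (m - 1) := by
  have h1 := span_eq_SS p q lam hlam hid
  have h2 : finrank ℂ (SS q) = N := by
    rw [← h1, finrank_span_eq_card hp]
    simp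
  refine ⟨by rw [← h2]; exact finrank_SS_le q, fun m hm => ?_⟩
  have h3 := macaulay (fun i : Fin m => q (Fin.castLE hm i))
    (hq.comp _ (Fin.castLE_injective hm))
  have h4 : SS (fun i : Fin m => q (Fin.castLE hm i)) ≤ SS q := by
    unfold SS
    rw [Submodule.span_le]
    rintro _ ⟨⟨k, i⟩, rfl⟩
    exact Submodule.subset_span ⟨(k, Fin.castLE hm i), rfl⟩
  have h5 := Submodule.finrank_mono h4
  omega

end Pool.Agent.H216.SOS
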