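import Pool.Agent.H216.SOS.Super
import Pool.Agent.H216.SOS.Pos
import Pool.Agent.H216.SOS.Count

set_option autoImplicit false

namespace Pool.Agent.H216.SOS

open Filter MvPolynomial Module ComplexConjugate

theorem eventually_of_linear {S T : Type*} [AddCommGroup S] [Module ℂ S] [AddCommGroup T]
    [Module ℂ T] (Φ : S →ₗ[ℂ] T) (σ : T →ₗ[ℂ] S) (h : ∀ t, Φ (σ t) = t) {P : T → Prop}
    (hP : ∀ᶠ s in gen S, P (Φ s)) : ∀ᶠ t in gen T, P t := by
  obtain ⟨f, hf, ⟨s₀, hs₀⟩, hfP⟩ := hP
  have h1 : PolyMap (fun t : T => s₀ - σ (Φ s₀) + σ t) := by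
    intro L
    have : (fun t : T => L (s₀ - σ (Φ s₀) + σ t)) =
        fun t => L (s₀ - σ (Φ s₀)) + (L ∘ₗ σ) t := by
      funext t
      simp
    rw [this]
    exact add_mem' (const_mem _) (linear_mem _)
  refine (gen_of_ne (h1.comp_mem hf) (x := Φ s₀) (by simpa using hs₀)).mono fun t ht => ?_
  have := hfP _ ht
  change P (Φ (s₀ - σ (Φ s₀) + σ t)) at this
  rw [map_add, map_sub, h, h, sub_self, zero_add] at this
  exact this

theorem fc_section {n k : ℕ} {P : Matrix (Fin n) (Fin k) ℂ → Prop}
    (hP : ∀ᶠ φ in gen (Matrix (Fin n) (Fin (k + 1)) ℂ), P (fc φ)) :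
    ∀ᶠ χ in gen (Matrix (Fin n) (Fin k) ℂ), P χ := by
  refine eventually_of_linear (mulR n (sn (0 : Fin k → ℂ)))
    (mulR n (sn (0 : Fin k → ℂ)).transpose) ?_ hP
  intro χ
  change χ * (sn (0 : Fin k → ℂ)).transpose * sn (0 : Fin k → ℂ) = χ
  rw [Matrix.mul_assoc, sn_left_inv, Matrix.mul_one]

section

variable {n ρ : ℕ} (q : Fin ρ → R n)

/-- the cone of the values of the polynomial map `q` -/
def cone : Set (Fin ρ → ℂ) := {u | ∃ (c : ℂ) (z : Fin n → ℂ), u = fun i => c * eval z (q i)}

theorem key_add {x y : Fin n → ℂ} {g : R 2} (hg : g ≠ 0)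
    (h : res (Submodule.span ℂ (Set.range q)) (col2 n (x, y)) = S1 g) (c c' : ℂ) :
    (fun i => c * eval x (q i) + c' * eval y (q i)) ∈ closure (cone q) := by
  have h1 : ∀ i, ∃ a : Fin 2 → ℂ, lin a * g = pb (col2 n (x, y)) (q i) := by
    intro i
    have := pb_mem_res (col2 n (x, y)) (Submodule.subset_span (R := ℂ) ⟨i, rfl⟩ :
      q i ∈ Submodule.span ℂ (Set.range q))
    rw [h] at this
    exact this
  choose a ha using h1
  have hev : ∀ i (t : Fin 2 → ℂ), (∑ l, a i l * t l) * eval t g =
      eval ((col2 n (x, y)).mulVec t) (q i) := by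
    intro i t
    rw [← eval_pb, ← ha, map_mul, eval_lin]
  have hx : ∀ i, eval x (q i) = a i 0 * eval (![1, 0]) g := by
    intro i
    have := hev i ![1, 0]
    have h2 : (col2 n (x, y)).mulVec ![1, 0] = x := by
      funext j
      simp [col2, Matrix.mulVec, dotProduct, Fin.sum_univ_two]
    rw [h2] at this
    rw [← this]
    simp [Fin.sum_univ_two]
  have hy : ∀ i, eval y (q i) = a i 1 * eval (![0, 1]) g := by
    intro i
    have := hev i ![0, 1]
    have h2 : (col2 n (x, y)).mulVec ![0, 1] = y := by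
      funext j
      simp [col2, Matrix.mulVec, dotProduct, Fin.sum_univ_two]
    rw [h2] at this
    rw [← this]
    simp [Fin.sum_univ_two]
  let F : (Fin 2 → ℂ) → (Fin ρ → ℂ) := fun t i => ∑ l, a i l * t l
  have hF : Continuous F := by
    unfold F
    fun_prop
  have hgen : ∀ᶠ t in gen (Fin 2 → ℂ), eval t g ≠ 0 := by
    obtain ⟨t, ht⟩ : ∃ t, eval t g ≠ 0 := by
      by_contra h
      push Not at h
      exact hg (MvPolynomial.funext fun x => by simpa using h x)
    exact gen_of_ne (eval_self_mem g) ht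
  have hd := dense_of_gen hgen
  have hmap : ∀ t ∈ {t | eval t g ≠ 0}, F t ∈ cone q := by
    intro t ht
    refine ⟨(eval t g)⁻¹, (col2 n (x, y)).mulVec t, ?_⟩
    funext i
    have ht' : eval t g ≠ 0 := ht
    rw [← hev]
    simp only [F]
    field_simp
  have h3 := map_mem_closure hF (hd ![c * eval ![1, 0] g, c' * eval ![0, 1] g]) hmap
  convert h3 using 1
  funext i
  simp only [F, Fin.sum_univ_two, hx, hy, Matrix.cons_val_zero, Matrix.cons_val_one]
  ring

theorem pos_of_dense (hq : LinearIndependent ℂ q) (lam : Fin ρ → ℝ) (hlam : ∀ i, lam i ≠ 0)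
    (hnn : ∀ z, 0 ≤ ∑ i, lam i * ‖eval z (q i)‖ ^ 2)
    (h : ∀ᶠ χ in gen (Matrix (Fin n) (Fin 2) ℂ),
      ∃ g, g ≠ 0 ∧ res (Submodule.span ℂ (Set.range q)) χ = S1 g) : ∀ i, 0 < lam i := by
  have hpair : ∀ (c c' : ℂ) (x y : Fin n → ℂ),
      (fun i => c * eval x (q i) + c' * eval y (q i)) ∈ closure (cone q) := by
    intro c c' x y
    have h1 := (tendsto_linear (col2 n) (col2_surj n)).eventually h
    have hd := dense_of_gen h1
    let F : ((Fin n → ℂ) × (Fin n → ℂ)) → (Fin ρ → ℂ) :=
      fun s i => c * eval s.1 (q i) + c' * eval s.2 (q i)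
    have hF : Continuous F := by
      apply continuous_pi
      intro i
      exact (continuous_const.mul ((MvPolynomial.continuous_eval (q i)).comp continuous_fst)).add
        (continuous_const.mul ((MvPolynomial.continuous_eval (q i)).comp continuous_snd))
    have h3 := map_mem_closure hF (hd (x, y)) (t := closure (cone q)) ?_
    · rwa [closure_closure] at h3
    · rintro ⟨x', y'⟩ ⟨g, hg0, hg⟩
      exact key_add q hg0 hg c c'
  let K : Submodule ℂ (Fin ρ → ℂ) :=
    { carrier := closure (cone q)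
      add_mem' := by
        intro u v hu hv
        have h1 : Continuous (fun s : (Fin ρ → ℂ) × (Fin ρ → ℂ) => s.1 + s.2) := by fun_prop
        have h2 : (u, v) ∈ closure (cone q ×ˢ cone q) := by
          rw [closure_prod_eq]
          exact ⟨hu, hv⟩
        have h3 := map_mem_closure h1 h2 (t := closure (cone q)) ?_
        · rwa [closure_closure] at h3
        · rintro ⟨u', v'⟩ ⟨⟨c, x, hx⟩, ⟨c', y, hy⟩⟩
          simp only at hx hy
          simp only [hx, hy]
          exact hpair c c' x y
      zero_mem' := by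
        apply subset_closure
        exact ⟨0, 0, by funext i; simp⟩
      smul_mem' := by
        intro c u hu
        have h1 : Continuous (fun s : (Fin ρ → ℂ) => c • s) := by fun_prop
        refine map_mem_closure h1 hu ?_
        rintro u' ⟨c', x, rfl⟩
        exact ⟨c * c', x, by funext i; simp [mul_assoc]⟩ }
  have hK : K = ⊤ := by
    by_contra hne
    obtain ⟨L, hL0, hL⟩ := Submodule.exists_le_ker_of_lt_top _ (lt_top_iff_ne_top.2 hne)
    apply hL0
    have hc : ∀ i, L (Pi.single i 1) = 0 := by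
      rw [Fintype.linearIndependent_iff] at hq
      apply hq
      apply MvPolynomial.funext
      intro z
      have h1 : L (fun i => eval z (q i)) = 0 := by
        have : (fun i => eval z (q i)) ∈ K := subset_closure ⟨1, z, by funext i; simp⟩
        simpa using hL this
      have h2 : (fun i => eval z (q i)) =
          ∑ i, eval z (q i) • (Pi.single i 1 : Fin ρ → ℂ) := by
        funext j
        simp [Finset.sum_apply, Pi.single_apply]
      rw [h2, map_sum] at h1
      rw [map_sum, map_zero, ← h1]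
      apply Finset.sum_congr rfl
      intro i _
      rw [MvPolynomial.smul_eval, LinearMap.map_smul, smul_eq_mul, mul_comm]
    apply LinearMap.pi_ext'
    intro i
    ext
    simpa using hc i
  have hcl : ∀ u ∈ closure (cone q), 0 ≤ ∑ i, lam i * ‖u i‖ ^ 2 := by
    have hclosed : IsClosed {u : Fin ρ → ℂ | 0 ≤ ∑ i, lam i * ‖u i‖ ^ 2} :=
      isClosed_le continuous_const (by fun_prop)
    have hsub : cone q ⊆ {u : Fin ρ → ℂ | 0 ≤ ∑ i, lam i * ‖u i‖ ^ 2} := by
      rintro _ ⟨c, z, rfl⟩
      have h1 : ∑ i, lam i * ‖c * eval z (q i)‖ ^ 2 =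
          ‖c‖ ^ 2 * ∑ i, lam i * ‖eval z (q i)‖ ^ 2 := by
        rw [Finset.mul_sum]
        apply Finset.sum_congr rfl
        intro i _
        rw [norm_mul]
        ring
      change 0 ≤ ∑ i, lam i * ‖c * eval z (q i)‖ ^ 2
      rw [h1]
      exact mul_nonneg (by positivity) (hnn z)
    exact fun u hu => closure_minimal hsub hclosed hu
  intro i
  have h1 : (Pi.single i 1 : Fin ρ → ℂ) ∈ K := by rw [hK]; trivial
  have h2 := hcl _ h1
  have h3 : ∑ j, lam j * ‖(Pi.single i 1 : Fin ρ → ℂ) j‖ ^ 2 = lam i := by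
    rw [Finset.sum_eq_single i]
    · simp
    · intro j _ hj
      simp [hj]
    · simp
  rw [h3] at h2
  exact lt_of_le_of_ne h2 (hlam i).symm

end

/-- the rank of `A` is small (the case of rank at least four on planes) -/
theorem rank_small {m N ρ : ℕ} (D : Dat (m + 2) N ρ) (ho : Orth D.p) (κ : ℕ)
    (h4 : 4 ≤ rk D.V 2) (hn : κ * (κ + 1) + 4 ≤ 2 * (m + 2))
    (hgap : 2 * N + κ * (κ + 1) < 2 * (κ + 1) * (m + 2)) : ρ ≤ κ + 1 := by
  by_contra hcon
  push Not at hcon
  have hN : rk D.V (m + 2) = N := by rw [rk_self, D.finrank_V]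
  have hpos : 1 ≤ rk D.V 1 := by
    have hne : D.V ≠ ⊥ := by
      intro h
      have h1 := rk_le D.V 2
      rw [h, finrank_bot] at h1
      rw [h] at h4
      omega
    obtain ⟨f, hf, hf0⟩ := Submodule.exists_mem_ne_zero_of_ne_bot hne
    exact one_le_rk_one D.V hf hf0
  have hs1 := super_one (m := m + 1) D.p ho
  have hs2 := super_two D.p ho
  have key := counting m κ (rk D.V) (rk_mono_succ D.V) hpos ?_ ?_ ?_ ?_
  · rw [hN] at key
    nlinarith
  · intro k hk h
    exact D.P2 (by omega) (Or.inr ⟨h, h4⟩)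
  · intro k hk h h'
    by_contra hlt
    push Not at hlt
    have h1 := D.P3 (by omega) h hlt
    have h2 := D.rank_le (K := k + 2) (by omega) (by omega) (Or.inl h4) (by omega)
    omega
  · rw [hN]
    change rk D.V 1 + rk D.V (m + 1) ≤ N at hs1
    omega
  · rw [hN]
    change rk D.V 2 + rk D.V m ≤ N at hs2
    omega

/-- the rank of `A` on planes is at most two (the case of rank at most three on planes) -/
theorem rk_W_le {m N ρ : ℕ} (D : Dat (m + 4) N ρ) (ho : Orth D.p) (hN0 : N ≠ 0)
    (h3 : rk D.V 2 ≤ 3) : rk D.W 2 ≤ 2 := by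
  have hN : rk D.V (m + 4) = N := by rw [rk_self, D.finrank_V]
  have hpos : 1 ≤ rk D.V 1 := by
    have hne : D.V ≠ ⊥ := by
      intro h
      have h1 := D.finrank_V
      rw [h, finrank_bot] at h1
      exact hN0 h1.symm
    obtain ⟨f, hf, hf0⟩ := Submodule.exists_mem_ne_zero_of_ne_bot hne
    exact one_le_rk_one D.V hf hf0
  have hs1 : rk D.V 1 + rk D.V (m + 3) ≤ N := super_one (m := m + 3) D.p ho
  have hs2 : rk D.V 2 + rk D.V (m + 2) ≤ N := super_two (m := m + 2) D.p ho
  have h12 : rk D.V 1 ≤ rk D.V 2 := rk_mono_succ D.V 1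
  have key : rk D.V 2 + rk D.V 2 ≤ rk D.V 3 + rk D.V 1 := by
    by_contra hcon
    push Not at hcon
    by_cases h2 : rk D.V 2 = 3
    · -- all the later increments are at most one
      have hinc : ∀ k, k + 3 ≤ m + 4 → rk D.V (k + 3) ≤ rk D.V (k + 2) + 1 := by
        intro k
        induction k with
        | zero => intro _; simp only [zero_add]; omega
        | succ k ih =>
          intro hk
          have h5 := ih (by omega)
          have h6 := D.P2 (k := k + 1) (by omega) (Or.inl (by
            have e : k + 1 + 2 = k + 3 := by ring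
            have e' : k + 1 + 1 = k + 2 := by ring
            rw [e, e']
            omega))
          have e : k + 1 + 2 = k + 3 := by ring
          have e' : k + 1 + 1 = k + 2 := by ring
          have e'' : k + 1 + 3 = k + 4 := by ring
          rw [e, e', e''] at h6
          rw [e, e'']
          omega
      have h7 := hinc m (by omega)
      have h8 : rk D.V (m + 4) ≤ rk D.V (m + 3) + 1 := hinc (m + 1) (by omega)
      omega
    · have h5 : rk D.V (2 + 1) = rk D.V 2 := by
        have := rk_mono_succ D.V 2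
        have e : 2 + 1 = 3 := rfl
        rw [e] at this ⊢
        omega
      have h6 := H1 D.V h5 (m + 2)
      have h7 := H1 D.V h5 (m + 1)
      have e : rk D.V (2 + (m + 2)) = rk D.V (m + 4) := by
        congr 1
        ring
      have e' : rk D.V (2 + (m + 1)) = rk D.V (m + 3) := by
        congr 1
        ring
      rw [e] at h6
      rw [e'] at h7
      omega
  have := D.P3 (k := 0) (by omega) (by simp only [zero_add]; omega)
    (by simp only [zero_add]; exact key)
  simp only [zero_add] at this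
  omega

end Pool.Agent.H216.SOS
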