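import Mathlib

set_option autoImplicit false

namespace Pool.Agent.H216.SOS

open MvPolynomial Module ComplexConjugate

/-- the polynomial with conjugate coefficients -/
noncomputable def cj {n : ℕ} (f : MvPolynomial (Fin n) ℂ) : MvPolynomial (Fin n) ℂ :=
  map (starRingEnd ℂ) f

theorem eval_cj {n : ℕ} (f : MvPolynomial (Fin n) ℂ) (w : Fin n → ℂ) :
    eval w (cj f) = conj (eval (fun i => conj (w i)) f) := by
  induction f using MvPolynomial.induction_on with
  | C a => simp [cj]
  | add p q hp hq =>
    unfold cj at *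
    simp [map_add, hp, hq]
  | mul_X p i hp =>
    unfold cj at *
    simp [map_mul, hp]

theorem cj_li {n m : ℕ} {f : Fin m → MvPolynomial (Fin n) ℂ} (hf : LinearIndependent ℂ f) :
    LinearIndependent ℂ (fun i => cj (f i)) := by
  rw [Fintype.linearIndependent_iff] at hf ⊢
  intro c hc
  have h1 : ∑ i, conj (c i) • f i = 0 := by
    apply MvPolynomial.funext
    intro x
    have h2 := congrArg (fun P => conj (eval (fun i => conj (x i)) P)) hc
    simp only [map_sum, MvPolynomial.smul_eval, map_mul, eval_cj, Complex.conj_conj, map_zero]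
      at h2
    rw [map_sum, map_zero, ← h2]
    exact Finset.sum_congr rfl fun i _ => MvPolynomial.smul_eval _ _ _
  intro i
  have := hf _ h1 i
  simpa using this

/-- every polynomial in two groups of variables is a finite sum of products -/
theorem exists_tensor {n : ℕ} (A : MvPolynomial (Fin n ⊕ Fin n) ℂ) :
    ∃ (ι : Type) (_ : Fintype ι) (f g : ι → MvPolynomial (Fin n) ℂ),
      ∀ z v : Fin n → ℂ, eval (Sum.elim z v) A = ∑ i, eval z (f i) * eval v (g i) := by
  induction A using MvPolynomial.induction_on with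
  | C a => exact ⟨Unit, inferInstance, fun _ => C a, fun _ => 1, fun z v => by simp⟩
  | add p q hp hq =>
    obtain ⟨ι, _, f, g, h⟩ := hp
    obtain ⟨ι', _, f', g', h'⟩ := hq
    refine ⟨ι ⊕ ι', inferInstance, Sum.elim f f', Sum.elim g g', fun z v => ?_⟩
    simp [h, h']
  | mul_X p i hp =>
    obtain ⟨ι, _, f, g, h⟩ := hp
    rcases i with i | i
    · refine ⟨ι, inferInstance, fun j => f j * X i, g, fun z v => ?_⟩
      simp only [map_mul, eval_X, Sum.elim_inl, h, Finset.sum_mul]
      exact Finset.sum_congr rfl fun j _ => by ring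
    · refine ⟨ι, inferInstance, f, fun j => g j * X i, fun z v => ?_⟩
      simp only [map_mul, eval_X, Sum.elim_inr, h, Finset.sum_mul]
      exact Finset.sum_congr rfl fun j _ => by ring

/-- Diagonalisation of a Hermitian polynomial. -/
theorem herm_decomp {n : ℕ} (A : MvPolynomial (Fin n ⊕ Fin n) ℂ)
    (hA : ∀ z w : Fin n → ℂ, eval (Sum.elim z (fun i => conj (w i))) A =
      conj (eval (Sum.elim w (fun i => conj (z i))) A)) :
    ∃ (ρ : ℕ) (q : Fin ρ → MvPolynomial (Fin n) ℂ) (lam : Fin ρ → ℝ),
      LinearIndependent ℂ q ∧ (∀ i, lam i ≠ 0) ∧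
      ∀ z w : Fin n → ℂ, eval (Sum.elim z (fun i => conj (w i))) A =
        ∑ i, (lam i : ℂ) * (eval z (q i) * conj (eval w (q i))) := by
  classical
  obtain ⟨ι, _, f, g, hfg⟩ := exists_tensor A
  let h : ι → MvPolynomial (Fin n) ℂ := fun i => cj (g i)
  have hh : ∀ i w, conj (eval w (h i)) = eval (fun i => conj (w i)) (g i) := by
    intro i w
    simp [h, eval_cj]
  let W : Submodule ℂ (MvPolynomial (Fin n) ℂ) :=
    Submodule.span ℂ (Set.range f ∪ Set.range h)
  have hfd : FiniteDimensional ℂ W :=
    FiniteDimensional.span_of_finite ℂ ((Set.finite_range _).union (Set.finite_range _))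
  let m := finrank ℂ W
  let b : Basis (Fin m) ℂ W := finBasis ℂ W
  let e : Fin m → MvPolynomial (Fin n) ℂ := fun a => (b a : MvPolynomial (Fin n) ℂ)
  have he : LinearIndependent ℂ e :=
    b.linearIndependent.map' W.subtype (Submodule.ker_subtype _)
  have hspan : ∀ x ∈ W, ∃ α : Fin m → ℂ, x = ∑ a, α a • e a := by
    intro x hx
    refine ⟨fun a => b.repr ⟨x, hx⟩ a, ?_⟩
    have h1 := b.sum_repr ⟨x, hx⟩
    have h2 := congrArg W.subtype h1
    rw [map_sum] at h2
    simpa [e] using h2.symm
  have hf : ∀ i, ∃ α : Fin m → ℂ, f i = ∑ a, α a • e a := fun i =>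
    hspan _ (Submodule.subset_span (Or.inl ⟨i, rfl⟩))
  have hhW : ∀ i, ∃ α : Fin m → ℂ, h i = ∑ a, α a • e a := fun i =>
    hspan _ (Submodule.subset_span (Or.inr ⟨i, rfl⟩))
  choose α hα using hf
  choose β hβ using hhW
  let H : Matrix (Fin m) (Fin m) ℂ := Matrix.of fun a c =>
    (1 / 2 : ℂ) * ∑ i, (α i a * conj (β i c) + β i a * conj (α i c))
  have hH : H.IsHermitian := by
    ext a c
    simp only [H, Matrix.conjTranspose_apply, Matrix.of_apply]
    simp only [Complex.star_def, map_mul, map_sum, map_add, Complex.conj_conj, map_div₀, map_one]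
    congr 1
    · simp only [one_div]
      congr 1
      exact Complex.conj_eq_iff_im.2 (by simp)
    · apply Finset.sum_congr rfl
      intro i _
      ring
  have hK : ∀ z w : Fin n → ℂ, eval (Sum.elim z (fun i => conj (w i))) A =
      ∑ a, ∑ c, H a c * (eval z (e a) * conj (eval w (e c))) := by
    intro z w
    have e1 : eval (Sum.elim z (fun i => conj (w i))) A =
        ∑ i, eval z (f i) * conj (eval w (h i)) := by
      rw [hfg]
      exact Finset.sum_congr rfl fun i _ => by rw [hh]
    have e2 : eval (Sum.elim z (fun i => conj (w i))) A =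
        ∑ i, eval z (h i) * conj (eval w (f i)) := by
      rw [hA, hfg, map_sum]
      apply Finset.sum_congr rfl
      intro i _
      rw [map_mul, ← hh, Complex.conj_conj, mul_comm]
    have e3 : ∀ i (x : Fin n → ℂ), eval x (f i) = ∑ a, α i a * eval x (e a) := by
      intro i x
      rw [hα i, map_sum]
      exact Finset.sum_congr rfl fun a _ => MvPolynomial.smul_eval _ _ _
    have e4 : ∀ i (x : Fin n → ℂ), eval x (h i) = ∑ a, β i a * eval x (e a) := by
      intro i x
      rw [hβ i, map_sum]
      exact Finset.sum_congr rfl fun a _ => MvPolynomial.smul_eval _ _ _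
    have e5 : eval (Sum.elim z (fun i => conj (w i))) A = (1 / 2 : ℂ) *
        ∑ i, (eval z (f i) * conj (eval w (h i)) + eval z (h i) * conj (eval w (f i))) := by
      rw [Finset.sum_add_distrib, ← e1, ← e2]
      ring
    rw [e5]
    have e6 : ∀ i, eval z (f i) * conj (eval w (h i)) + eval z (h i) * conj (eval w (f i)) =
        ∑ a, ∑ c, (α i a * conj (β i c) + β i a * conj (α i c)) *
          (eval z (e a) * conj (eval w (e c))) := by
      intro i
      rw [e3, e4, e4, e3, map_sum, map_sum, Finset.sum_mul_sum, Finset.sum_mul_sum,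
        ← Finset.sum_add_distrib]
      apply Finset.sum_congr rfl
      intro a _
      rw [← Finset.sum_add_distrib]
      apply Finset.sum_congr rfl
      intro c _
      rw [map_mul, map_mul]
      ring
    simp only [e6]
    rw [Finset.sum_comm, Finset.mul_sum]
    apply Finset.sum_congr rfl
    intro a _
    rw [Finset.sum_comm, Finset.mul_sum]
    apply Finset.sum_congr rfl
    intro c _
    simp only [H, Matrix.of_apply, Finset.mul_sum, Finset.sum_mul]
    apply Finset.sum_congr rfl
    intro i _
    ring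
  -- spectral theorem
  let Um : Matrix (Fin m) (Fin m) ℂ := (hH.eigenvectorUnitary : Matrix (Fin m) (Fin m) ℂ)
  let ev : Fin m → ℝ := hH.eigenvalues
  have hsp : ∀ a c, H a c = ∑ i, (ev i : ℂ) * (Um a i * conj (Um c i)) := by
    intro a c
    have h1 := hH.spectral_theorem
    rw [Unitary.conjStarAlgAut_apply] at h1
    have h2 := congrFun (congrFun h1 a) c
    rw [h2, Matrix.mul_apply]
    apply Finset.sum_congr rfl
    intro i _
    rw [Matrix.mul_diagonal]
    simp only [Matrix.star_apply, Function.comp_apply, Um, ev, Complex.star_def]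
    change _ * ((hH.eigenvalues i : ℝ) : ℂ) * _ = _
    ring
  have hUm : Um.det ≠ 0 := by
    have h1 : star Um * Um = 1 := Unitary.coe_star_mul_self hH.eigenvectorUnitary
    intro h0
    have h2 := congrArg Matrix.det h1
    rw [Matrix.det_mul, h0, mul_zero, Matrix.det_one] at h2
    exact zero_ne_one h2
  let q0 : Fin m → MvPolynomial (Fin n) ℂ := fun i => ∑ a, Um a i • e a
  have hq0 : LinearIndependent ℂ q0 := by
    rw [Fintype.linearIndependent_iff] at he ⊢
    intro c hc
    have h1 : ∑ a, (Um.mulVec c a) • e a = 0 := by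
      rw [← hc]
      simp only [q0, Finset.smul_sum, Matrix.mulVec, dotProduct, Finset.sum_smul]
      rw [Finset.sum_comm]
      apply Finset.sum_congr rfl
      intro i _
      apply Finset.sum_congr rfl
      intro a _
      rw [smul_smul, mul_comm]
    have h2 := Matrix.eq_zero_of_mulVec_eq_zero hUm (funext (he _ h1))
    exact fun i => congrFun h2 i
  have hK2 : ∀ z w : Fin n → ℂ, eval (Sum.elim z (fun i => conj (w i))) A =
      ∑ i, (ev i : ℂ) * (eval z (q0 i) * conj (eval w (q0 i))) := by
    intro z w
    rw [hK]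
    have e1 : ∀ i (x : Fin n → ℂ), eval x (q0 i) = ∑ a, Um a i * eval x (e a) := by
      intro i x
      simp only [q0, map_sum]
      exact Finset.sum_congr rfl fun a _ => MvPolynomial.smul_eval _ _ _
    have e8 : ∀ i, (ev i : ℂ) * (eval z (q0 i) * conj (eval w (q0 i))) = ∑ a, ∑ c,
        (ev i : ℂ) * (Um a i * eval z (e a) * (conj (Um c i) * conj (eval w (e c)))) := by
      intro i
      rw [e1, e1, map_sum, Finset.sum_mul_sum, Finset.mul_sum]
      apply Finset.sum_congr rfl
      intro a _
      rw [Finset.mul_sum]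
      apply Finset.sum_congr rfl
      intro c _
      rw [map_mul]
    have e7 : ∀ a c, H a c * (eval z (e a) * conj (eval w (e c))) =
        ∑ i, (ev i : ℂ) * (Um a i * eval z (e a) * (conj (Um c i) * conj (eval w (e c)))) := by
      intro a c
      rw [hsp, Finset.sum_mul]
      apply Finset.sum_congr rfl
      intro i _
      ring
    simp only [e7, e8]
    symm
    rw [Finset.sum_comm]
    apply Finset.sum_congr rfl
    intro a _
    rw [Finset.sum_comm]
  let J := {i : Fin m // ev i ≠ 0}
  let ε : Fin (Fintype.card J) ≃ J := (Fintype.equivFin J).symm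
  refine ⟨Fintype.card J, fun i => q0 (ε i).1, fun i => ev (ε i).1, ?_, fun i => (ε i).2, ?_⟩
  · exact hq0.comp _ (Subtype.val_injective.comp ε.injective)
  · intro z w
    rw [hK2]
    have h1 : ∑ i : Fin (Fintype.card J), ((ev (ε i).1 : ℝ) : ℂ) *
        (eval z (q0 (ε i).1) * conj (eval w (q0 (ε i).1))) =
        ∑ j : J, ((ev j.1 : ℝ) : ℂ) * (eval z (q0 j.1) * conj (eval w (q0 j.1))) :=
      Equiv.sum_comp ε (fun j : J => ((ev j.1 : ℝ) : ℂ) *
        (eval z (q0 j.1) * conj (eval w (q0 j.1))))
    rw [h1]
    rw [← Finset.sum_subtype (Finset.univ.filter fun i => ev i ≠ 0) (by simp)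
      (fun i => ((ev i : ℝ) : ℂ) * (eval z (q0 i) * conj (eval w (q0 i))))]
    rw [Finset.sum_filter]
    apply Finset.sum_congr rfl
    intro i _
    by_cases h : ev i = 0
    · simp [h]
    · simp [h]

end Pool.Agent.H216.SOS
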