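import Pool.Agent.H216.SOS.Dens
import Pool.Agent.H216.SOS.Herm

set_option autoImplicit false

namespace Pool.Agent.H216.SOS

open Filter MvPolynomial Module ComplexConjugate

/-- polarisation -/
theorem polar {n : ℕ} (P : MvPolynomial (Fin n ⊕ Fin n) ℂ)
    (h : ∀ z : Fin n → ℂ, eval (Sum.elim z (fun k => conj (z k))) P = 0) : P = 0 := by
  let g : Fin n ⊕ Fin n → MvPolynomial (Fin n ⊕ Fin n) ℂ :=
    Sum.elim (fun k => X (Sum.inl k) + C Complex.I * X (Sum.inr k))
      (fun k => X (Sum.inl k) - C Complex.I * X (Sum.inr k))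
  have hev : ∀ v : Fin n ⊕ Fin n → ℂ, eval v (bind₁ g P) =
      eval (Sum.elim (fun k => v (Sum.inl k) + Complex.I * v (Sum.inr k))
        (fun k => v (Sum.inl k) - Complex.I * v (Sum.inr k))) P := by
    intro v
    have h1 : eval v (bind₁ g P) = eval (fun i => eval v (g i)) P :=
      eval₂Hom_bind₁ (RingHom.id ℂ) v g P
    rw [h1]
    congr 2
    funext i
    rcases i with k | k <;> simp [g]
  have hQ : bind₁ g P = 0 := by
    refine MvPolynomial.funext_set (fun _ => Set.range (fun r : ℝ => (r : ℂ)))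
      (fun _ => Set.infinite_range_of_injective Complex.ofReal_injective) ?_
    intro v hv
    have hr : ∀ i, ∃ r : ℝ, (r : ℂ) = v i := fun i => hv i (Set.mem_univ i)
    choose r hr using hr
    rw [map_zero, hev, ← h (fun k => v (Sum.inl k) + Complex.I * v (Sum.inr k))]
    congr 2
    funext i
    rcases i with k | k
    · rfl
    · simp only [Sum.elim_inr]
      rw [← hr, ← hr]
      simp [sub_eq_add_neg]
  apply MvPolynomial.funext
  intro u
  have h2 := hev (Sum.elim (fun k => (u (Sum.inl k) + u (Sum.inr k)) / 2)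
    (fun k => (u (Sum.inl k) - u (Sum.inr k)) / (2 * Complex.I)))
  rw [hQ, map_zero] at h2
  rw [map_zero, h2]
  congr 2
  funext i
  rcases i with k | k
  · simp only [Sum.elim_inl, Sum.elim_inr]
    field_simp
    ring
  · simp only [Sum.elim_inl, Sum.elim_inr]
    field_simp
    ring

/-- the polarised identity -/
theorem polarised {n N : ℕ} (p : Fin N → R n) (A : MvPolynomial (Fin n ⊕ Fin n) ℂ)
    (h : ∀ z : Fin n → ℂ, ((∑ j, ‖eval z (p j)‖ ^ 2 : ℝ) : ℂ) =
      ((∑ k, ‖z k‖ ^ 2 : ℝ) : ℂ) * eval (Sum.elim z (fun k => conj (z k))) A) :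
    ∀ z w : Fin n → ℂ, ∑ j, eval z (p j) * conj (eval w (p j)) =
      (∑ k, z k * conj (w k)) * eval (Sum.elim z (fun k => conj (w k))) A := by
  let F : MvPolynomial (Fin n ⊕ Fin n) ℂ :=
    ∑ j, rename Sum.inl (p j) * rename Sum.inr (cj (p j)) -
      (∑ k, X (Sum.inl k) * X (Sum.inr k)) * A
  have hF : ∀ z w : Fin n → ℂ, eval (Sum.elim z (fun k => conj (w k))) F =
      ∑ j, eval z (p j) * conj (eval w (p j)) -
        (∑ k, z k * conj (w k)) * eval (Sum.elim z (fun k => conj (w k))) A := by
    intro z w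
    simp only [F, map_sub, map_sum, map_mul, eval_rename, eval_X, Sum.elim_inl, Sum.elim_inr,
      Sum.elim_comp_inl, Sum.elim_comp_inr, eval_cj, Complex.conj_conj]
  have hF0 : F = 0 := by
    apply polar
    intro z
    rw [hF, sub_eq_zero]
    have := h z
    push_cast at this
    simp only [Complex.mul_conj'] at *
    exact this
  intro z w
  have := hF z w
  rw [hF0, map_zero] at this
  exact (sub_eq_zero.1 this.symm)

theorem eval_conj_map {σ : Type*} (A : MvPolynomial σ ℂ) (x : σ → ℂ) :
    eval (fun i => conj (x i)) (map (starRingEnd ℂ) A) = conj (eval x A) := by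
  induction A using MvPolynomial.induction_on with
  | C a => simp
  | add p q hp hq => rw [map_add, map_add, map_add, map_add, hp, hq]
  | mul_X p i hp => rw [map_mul, map_mul, map_mul, map_mul, hp, map_X, eval_X, eval_X]

theorem herm_of_polarised {n N : ℕ} (p : Fin N → R n) (A : MvPolynomial (Fin n ⊕ Fin n) ℂ)
    (h : ∀ z w : Fin n → ℂ, ∑ j, eval z (p j) * conj (eval w (p j)) =
      (∑ k, z k * conj (w k)) * eval (Sum.elim z (fun k => conj (w k))) A) (hn : 0 < n) :
    ∀ z w : Fin n → ℂ, eval (Sum.elim z (fun i => conj (w i))) A =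
      conj (eval (Sum.elim w (fun i => conj (z i))) A) := by
  let A' : MvPolynomial (Fin n ⊕ Fin n) ℂ := rename Sum.swap (map (starRingEnd ℂ) A)
  have hA' : ∀ z w : Fin n → ℂ, eval (Sum.elim z (fun i => conj (w i))) A' =
      conj (eval (Sum.elim w (fun i => conj (z i))) A) := by
    intro z w
    simp only [A', eval_rename]
    have : (Sum.elim z (fun i => conj (w i))) ∘ Sum.swap =
        fun i => conj ((Sum.elim w (fun i => conj (z i))) i) := by
      funext i
      rcases i with i | i <;> simp
    rw [this]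
    exact eval_conj_map A _
  let s : MvPolynomial (Fin n ⊕ Fin n) ℂ := ∑ k, X (Sum.inl k) * X (Sum.inr k)
  have hs : ∀ z w : Fin n → ℂ, eval (Sum.elim z (fun k => conj (w k))) s =
      ∑ k, z k * conj (w k) := by
    intro z w
    simp [s]
  have hs0 : s ≠ 0 := by
    intro h0
    have := hs (fun _ => 1) (fun _ => 1)
    rw [h0, map_zero] at this
    have h1 : (n : ℂ) = 0 := by simpa using this.symm
    have h2 : n = 0 := by exact_mod_cast h1
    omega
  have hprod : s * (A - A') = 0 := by
    apply polar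
    intro z
    rw [map_mul, hs, map_sub, hA', mul_sub, ← h z z]
    have h3 : (∑ k, z k * conj (z k)) = conj (∑ k, z k * conj (z k)) := by
      rw [map_sum]
      exact Finset.sum_congr rfl fun k _ => by rw [map_mul, Complex.conj_conj, mul_comm]
    rw [h3, ← map_mul, ← h z z, map_sum, sub_eq_zero]
    exact Finset.sum_congr rfl fun k _ => by rw [map_mul, Complex.conj_conj, mul_comm]
  have hAA' : A = A' := by
    rcases mul_eq_zero.1 hprod with h4 | h4
    · exact absurd h4 hs0
    · exact sub_eq_zero.1 h4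
  intro z w
  rw [← hA', ← hAA']

/-- The data attached to a sum of squares divisible by the squared norm. -/
theorem exists_dat {n N : ℕ} (hn : 0 < n) (p : Fin N → R n) (hp : LinearIndependent ℂ p)
    (A : MvPolynomial (Fin n ⊕ Fin n) ℂ)
    (h : ∀ z : Fin n → ℂ, ((∑ j, ‖eval z (p j)‖ ^ 2 : ℝ) : ℂ) =
      ((∑ k, ‖z k‖ ^ 2 : ℝ) : ℂ) * eval (Sum.elim z (fun k => conj (z k))) A) :
    Orth p ∧ ∃ (ρ : ℕ) (q : Fin ρ → R n) (lam : Fin ρ → ℝ) (D : Dat n N ρ),
      LinearIndependent ℂ q ∧ (∀ i, lam i ≠ 0) ∧ D.p = p ∧ D.q = q ∧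
      (∀ z w : Fin n → ℂ, eval (Sum.elim z (fun i => conj (w i))) A =
        ∑ i, (lam i : ℂ) * (eval z (q i) * conj (eval w (q i)))) ∧
      (∀ z w : Fin n → ℂ, ∑ j, eval z (p j) * conj (eval w (p j)) =
        (∑ k, z k * conj (w k)) * ∑ i, (lam i : ℂ) * (eval z (q i) * conj (eval w (q i)))) := by
  have h1 := polarised p A h
  have h2 := herm_of_polarised p A h1 hn
  obtain ⟨ρ, q, lam, hq, hlam, hA⟩ := herm_decomp A h2
  have h3 : ∀ z w : Fin n → ℂ, ∑ j, eval z (p j) * conj (eval w (p j)) =
      (∑ k, z k * conj (w k)) * ∑ i, (lam i : ℂ) * (eval z (q i) * conj (eval w (q i))) := by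
    intro z w
    rw [h1, hA]
  refine ⟨?_, ρ, q, lam, ⟨p, fun j => cj (p j), q, fun i => (lam i : ℂ) • cj (q i), hp,
    cj_li hp, hq, ?_, ?_⟩, hq, hlam, rfl, rfl, hA, h3⟩
  · intro z w hzw
    rw [h1, hzw, zero_mul]
  · have h4 := (cj_li hq).units_smul (fun i => Units.mk0 (lam i : ℂ)
      (Complex.ofReal_ne_zero.2 (hlam i)))
    exact h4
  · intro v
    apply MvPolynomial.funext
    intro z
    have h5 := h3 z (fun i => conj (v i))
    simp only [Complex.conj_conj] at h5
    rw [map_sum, map_mul, map_sum, eval_lin]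
    simp only [MvPolynomial.smul_eval, eval_cj]
    have h6 : ∑ j, conj (eval (fun i => conj (v i)) (p j)) * eval z (p j) =
        ∑ j, eval z (p j) * conj (eval (fun i => conj (v i)) (p j)) :=
      Finset.sum_congr rfl fun j _ => mul_comm _ _
    rw [h6, h5]
    congr 1
    · exact Finset.sum_congr rfl fun k _ => mul_comm _ _
    · apply Finset.sum_congr rfl
      intro i _
      ring

/-- The main theorem in dimension at least four. -/
theorem main_four {m N : ℕ} (κ : ℕ) (hn : κ * (κ + 1) + 4 ≤ 2 * (m + 4))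
    (hgap : 2 * N + κ * (κ + 1) < 2 * (κ + 1) * (m + 4))
    (p : Fin N → R (m + 4)) (hp : LinearIndependent ℂ p)
    (A : MvPolynomial (Fin (m + 4) ⊕ Fin (m + 4)) ℂ)
    (h : ∀ z : Fin (m + 4) → ℂ, ((∑ j, ‖eval z (p j)‖ ^ 2 : ℝ) : ℂ) =
      ((∑ k, ‖z k‖ ^ 2 : ℝ) : ℂ) * eval (Sum.elim z (fun k => conj (z k))) A) :
    ∃ (ρ : ℕ) (q : Fin ρ → R (m + 4)) (lam : Fin ρ → ℝ), ρ ≤ κ ∧
      LinearIndependent ℂ q ∧ (∀ i, 0 < lam i) ∧
      (∀ z w : Fin (m + 4) → ℂ, eval (Sum.elim z (fun i => conj (w i))) A =
        ∑ i, (lam i : ℂ) * (eval z (q i) * conj (eval w (q i)))) ∧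
      Submodule.span ℂ (Set.range p) = SS q ∧ N ≤ (m + 4) * ρ := by
  obtain ⟨ho, ρ, q, lam, D, hq, hlam, hDp, hDq, hA, hid⟩ := exists_dat (by omega) p hp A h
  have hoD : Orth D.p := by rw [hDp]; exact ho
  have hW : D.W = Submodule.span ℂ (Set.range q) := by rw [Dat.W, hDq]
  -- positivity of all the coefficients
  have hpos : ∀ i, 0 < lam i := by
    by_cases h4 : 4 ≤ rk D.V 2
    · have h5 := rank_small (m := m + 2) D hoD κ h4 hn hgap
      apply pos_of_rank p q hq lam hlam hid
      have h6 : ρ * (ρ - 1) ≤ (κ + 1) * κ := by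
        apply Nat.mul_le_mul h5
        omega
      nlinarith
    · by_cases hρ : ρ ≤ 2
      · apply pos_of_rank p q hq lam hlam hid
        have h6 : ρ * (ρ - 1) ≤ 2 * 1 := by
          apply Nat.mul_le_mul hρ
          omega
        omega
      · have hN0 : N ≠ 0 := by
          rintro rfl
          -- then `A = 0`
          have i0 : Fin ρ := ⟨0, by omega⟩
          have hV : D.V = ⊥ := by
            rw [← Submodule.finrank_eq_zero (S := D.V) (R := ℂ), D.finrank_V]
          have h7 : ∀ v, D.A v = 0 ∨ lin v = 0 := by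
            intro v
            have h8 := D.B_mem v
            rw [hV, Submodule.mem_bot, D.B_eq] at h8
            rcases mul_eq_zero.1 h8 with h9 | h9
            · exact Or.inr h9
            · exact Or.inl h9
          have h8 : D.W ≤ ⊥ := by
            refine le_trans (D.W_le_span (P := fun v => v ≠ 0) gen_ne_zero) ?_
            rw [Submodule.span_le]
            rintro _ ⟨v, hv, rfl⟩
            rcases h7 v with h9 | h9
            · simpa using h9
            · exact absurd h9 (lin_ne_zero hv)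
          have h9 := D.finrank_W
          rw [le_bot_iff.1 h8, finrank_bot] at h9
          omega
        have h5 := rk_W_le D hoD hN0 (by omega)
        have h6 : rk D.W 2 < rk D.W 3 := by
          by_contra hcon
          have h7 : rk D.W (2 + 1) = rk D.W 2 :=
            le_antisymm (by push Not at hcon; exact hcon) (rk_mono_succ _ _)
          have h8 := H1 D.W h7 (m + 2)
          have e : rk D.W (2 + (m + 2)) = rk D.W (m + 4) := by
            congr 1
            ring
          rw [e, rk_self, D.finrank_W] at h8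
          omega
        apply pos_of_dense q hq lam hlam
        · have hclosed : IsClosed {z : Fin (m + 4) → ℂ |
              0 ≤ ∑ i, lam i * ‖eval z (q i)‖ ^ 2} := by
            apply isClosed_le continuous_const
            apply continuous_finsetSum
            intro i _
            exact continuous_const.mul ((MvPolynomial.continuous_eval (q i)).norm.pow 2)
          have hd : Dense {z : Fin (m + 4) → ℂ | z ≠ 0} := dense_of_gen gen_ne_zero
          suffices hsub : {z : Fin (m + 4) → ℂ | z ≠ 0} ⊆ {z : Fin (m + 4) → ℂ |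
              0 ≤ ∑ i, lam i * ‖eval z (q i)‖ ^ 2} from
            fun z => closure_minimal hsub hclosed (hd z)
          intro z hz
          have h7 := hid z z
          have h8 : ((∑ j, ‖eval z (p j)‖ ^ 2 : ℝ) : ℂ) = ((∑ k, ‖z k‖ ^ 2) *
              ∑ i, lam i * ‖eval z (q i)‖ ^ 2 : ℝ) := by
            push_cast
            simp only [← Complex.mul_conj']
            exact h7
          have h9 : (∑ j, ‖eval z (p j)‖ ^ 2) = (∑ k, ‖z k‖ ^ 2) *
              ∑ i, lam i * ‖eval z (q i)‖ ^ 2 := by exact_mod_cast h8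
          have h10 : 0 < ∑ k, ‖z k‖ ^ 2 := by
            obtain ⟨k, hk⟩ : ∃ k, z k ≠ 0 := by
              by_contra hcon
              push Not at hcon
              exact hz (funext hcon)
            apply Finset.sum_pos' (fun _ _ => by positivity)
            exact ⟨k, Finset.mem_univ _, by positivity⟩
          have h11 : 0 ≤ ∑ j, ‖eval z (p j)‖ ^ 2 := Finset.sum_nonneg fun _ _ => by positivity
          rw [h9] at h11
          exact nonneg_of_mul_nonneg_right h11 h10
        · apply fc_section
          refine (good_gen 2 D.W).mono fun φ hg => ?_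
          rw [← hW]
          exact Q2 D.W h5 h6 hg
  have hb := rank_bounds p hp q hq lam hpos hid
  refine ⟨ρ, q, lam, ?_, hq, hpos, hA, span_eq_SS p q lam hpos hid, hb.1⟩
  by_contra hcon
  push Not at hcon
  have h1 := hb.2 (κ + 1) hcon
  simp only [Nat.add_sub_cancel] at h1
  nlinarith

end Pool.Agent.H216.SOS
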