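import Mathlib

set_option autoImplicit false

namespace Pool.Agent.H216.SOS

open Filter

section Poly

variable {S T : Type*} [AddCommGroup S] [Module ℂ S] [AddCommGroup T] [Module ℂ T]

/-- The algebra of polynomial functions on a complex vector space. -/
def PolyFun (S : Type*) [AddCommGroup S] [Module ℂ S] : Subalgebra ℂ (S → ℂ) :=
  Algebra.adjoin ℂ (Set.range (fun (L : S →ₗ[ℂ] ℂ) => (L : S → ℂ)))

theorem linear_mem (L : S →ₗ[ℂ] ℂ) : (fun s => L s) ∈ PolyFun S :=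
  Algebra.subset_adjoin ⟨L, rfl⟩

theorem const_mem (c : ℂ) : (fun _ : S => c) ∈ PolyFun S :=
  (PolyFun S).algebraMap_mem c

theorem add_mem' {f g : S → ℂ} (hf : f ∈ PolyFun S) (hg : g ∈ PolyFun S) :
    (fun s => f s + g s) ∈ PolyFun S := (PolyFun S).add_mem hf hg

theorem sub_mem' {f g : S → ℂ} (hf : f ∈ PolyFun S) (hg : g ∈ PolyFun S) :
    (fun s => f s - g s) ∈ PolyFun S := (PolyFun S).sub_mem hf hg

theorem mul_mem' {f g : S → ℂ} (hf : f ∈ PolyFun S) (hg : g ∈ PolyFun S) :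
    (fun s => f s * g s) ∈ PolyFun S := (PolyFun S).mul_mem hf hg

theorem sum_mem' {ι : Type*} (t : Finset ι) {f : ι → S → ℂ} (hf : ∀ i ∈ t, f i ∈ PolyFun S) :
    (fun s => ∑ i ∈ t, f i s) ∈ PolyFun S := by
  have := (PolyFun S).sum_mem hf
  convert this using 1
  funext s
  simp

theorem prod_mem' {ι : Type*} (t : Finset ι) {f : ι → S → ℂ} (hf : ∀ i ∈ t, f i ∈ PolyFun S) :
    (fun s => ∏ i ∈ t, f i s) ∈ PolyFun S := by
  have := (PolyFun S).prod_mem hf
  convert this using 1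
  funext s
  simp

theorem det_mem {ι : Type*} [Fintype ι] [DecidableEq ι] {M : S → Matrix ι ι ℂ}
    (hM : ∀ i j, (fun s => M s i j) ∈ PolyFun S) : (fun s => (M s).det) ∈ PolyFun S := by
  have : (fun s => (M s).det) = fun s => ∑ σ : Equiv.Perm ι,
      ((Equiv.Perm.sign σ : ℤ) : ℂ) * ∏ i, M s (σ i) i := by
    funext s
    rw [Matrix.det_apply]
    apply Finset.sum_congr rfl
    intro σ _
    rw [Units.smul_def, zsmul_eq_mul]
  rw [this]
  exact sum_mem' _ fun σ _ => mul_mem' (const_mem _) (prod_mem' _ fun i _ => hM _ _)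

theorem eval_mem {σ : Type*} {g : σ → S → ℂ} (hg : ∀ i, g i ∈ PolyFun S)
    (f : MvPolynomial σ ℂ) :
    (fun s => MvPolynomial.eval (fun i => g i s) f) ∈ PolyFun S := by
  induction f using MvPolynomial.induction_on with
  | C a => simpa using const_mem (S := S) a
  | add p q hp hq => simpa using add_mem' hp hq
  | mul_X p i hp => simpa using mul_mem' hp (hg i)

/-- A polynomial function is a polynomial in one variable on each line. -/
theorem exists_line {f : S → ℂ} (hf : f ∈ PolyFun S) (x v : S) :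
    ∃ P : Polynomial ℂ, ∀ t : ℂ, f (x + t • v) = P.eval t := by
  induction hf using Algebra.adjoin_induction with
  | mem f hf =>
    obtain ⟨L, rfl⟩ := hf
    refine ⟨Polynomial.C (L x) + Polynomial.X * Polynomial.C (L v), fun t => ?_⟩
    simp
    ring
  | algebraMap c => exact ⟨Polynomial.C c, fun t => by simp⟩
  | add f g _ _ hf hg =>
    obtain ⟨P, hP⟩ := hf
    obtain ⟨Q, hQ⟩ := hg
    exact ⟨P + Q, fun t => by simp [hP, hQ]⟩
  | mul f g _ _ hf hg =>
    obtain ⟨P, hP⟩ := hf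
    obtain ⟨Q, hQ⟩ := hg
    exact ⟨P * Q, fun t => by simp [hP, hQ]⟩

theorem exists_mul_ne_zero {f g : S → ℂ} (hf : f ∈ PolyFun S) (hg : g ∈ PolyFun S)
    {x y : S} (hx : f x ≠ 0) (hy : g y ≠ 0) : ∃ z, f z * g z ≠ 0 := by
  obtain ⟨P, hP⟩ := exists_line hf x (y - x)
  obtain ⟨Q, hQ⟩ := exists_line hg x (y - x)
  have hP0 : P ≠ 0 := by
    rintro rfl
    have := hP 0
    simp at this
    exact hx this
  have hQ0 : Q ≠ 0 := by
    rintro rfl
    have := hQ 1
    simp at this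
    exact hy this
  have hPQ : P * Q ≠ 0 := mul_ne_zero hP0 hQ0
  by_contra hcon
  push Not at hcon
  apply hPQ
  apply Polynomial.funext
  intro t
  have := hcon (x + t • (y - x))
  rw [hP, hQ] at this
  simpa using this

/-- The filter of generic sets: the sets containing the non-vanishing locus of a non-zero
polynomial function. -/
def gen (S : Type*) [AddCommGroup S] [Module ℂ S] : Filter S where
  sets := {s | ∃ f ∈ PolyFun S, (∃ x, f x ≠ 0) ∧ ∀ x, f x ≠ 0 → x ∈ s}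
  univ_sets := ⟨_, const_mem 1, ⟨0, one_ne_zero⟩, fun _ _ => trivial⟩
  sets_of_superset := by
    rintro s t ⟨f, hf, hx, h⟩ hst
    exact ⟨f, hf, hx, fun x hx => hst (h x hx)⟩
  inter_sets := by
    rintro s t ⟨f, hf, ⟨x, hx⟩, h⟩ ⟨g, hg, ⟨y, hy⟩, h'⟩
    exact ⟨_, mul_mem' hf hg, exists_mul_ne_zero hf hg hx hy,
      fun z hz => ⟨h z (left_ne_zero_of_mul hz), h' z (right_ne_zero_of_mul hz)⟩⟩

theorem eventually_gen {P : S → Prop} :
    (∀ᶠ s in gen S, P s) ↔ ∃ f ∈ PolyFun S, (∃ x, f x ≠ 0) ∧ ∀ x, f x ≠ 0 → P x := Iff.rfl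

instance gen_neBot : (gen S).NeBot := by
  rw [neBot_iff]
  intro h
  have : (∅ : Set S) ∈ gen S := by rw [h]; trivial
  obtain ⟨f, _, ⟨x, hx⟩, h⟩ := this
  exact h x hx

theorem gen_of_ne {f : S → ℂ} (hf : f ∈ PolyFun S) {x : S} (hx : f x ≠ 0) :
    ∀ᶠ s in gen S, f s ≠ 0 := ⟨f, hf, ⟨x, hx⟩, fun _ h => h⟩

/-- polynomial maps between vector spaces -/
def PolyMap (Φ : S → T) : Prop := ∀ L : T →ₗ[ℂ] ℂ, (fun s => L (Φ s)) ∈ PolyFun S

theorem PolyMap.comp_mem {Φ : S → T} (hΦ : PolyMap Φ) {f : T → ℂ} (hf : f ∈ PolyFun T) :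
    (fun s => f (Φ s)) ∈ PolyFun S := by
  induction hf using Algebra.adjoin_induction with
  | mem f hf =>
    obtain ⟨L, rfl⟩ := hf
    exact hΦ L
  | algebraMap c => exact const_mem c
  | add f g _ _ hf hg => exact add_mem' hf hg
  | mul f g _ _ hf hg => exact mul_mem' hf hg

theorem LinearMap.polyMap (Φ : S →ₗ[ℂ] T) : PolyMap (fun s => Φ s) :=
  fun L => linear_mem (L ∘ₗ Φ)

theorem PolyMap.tendsto {Φ : S → T} (hΦ : PolyMap Φ) (hs : Function.Surjective Φ) :
    Tendsto Φ (gen S) (gen T) := by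
  rintro s ⟨f, hf, ⟨x, hx⟩, h⟩
  obtain ⟨y, rfl⟩ := hs x
  exact ⟨_, hΦ.comp_mem hf, ⟨y, hx⟩, fun z hz => h _ hz⟩

theorem tendsto_linear (Φ : S →ₗ[ℂ] T) (hs : Function.Surjective Φ) :
    Tendsto Φ (gen S) (gen T) := (LinearMap.polyMap Φ).tendsto hs

theorem conj_comp_mem (σ : S →ₛₗ[starRingEnd ℂ] T) {f : T → ℂ} (hf : f ∈ PolyFun T) :
    (fun s => starRingEnd ℂ (f (σ s))) ∈ PolyFun S := by
  induction hf using Algebra.adjoin_induction with
  | mem f hf =>
    obtain ⟨L, rfl⟩ := hf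
    let M : S →ₗ[ℂ] ℂ :=
      { toFun := fun s => starRingEnd ℂ (L (σ s))
        map_add' := fun x y => by simp
        map_smul' := fun c x => by simp }
    exact linear_mem M
  | algebraMap c => exact const_mem (starRingEnd ℂ c)
  | add f g _ _ hf hg => simpa using add_mem' hf hg
  | mul f g _ _ hf hg => simpa using mul_mem' hf hg

theorem tendsto_conj (σ : S →ₛₗ[starRingEnd ℂ] T) (hs : Function.Surjective σ) :
    Tendsto σ (gen S) (gen T) := by
  rintro s ⟨f, hf, ⟨x, hx⟩, h⟩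
  obtain ⟨y, rfl⟩ := hs x
  refine ⟨_, conj_comp_mem σ hf, ⟨y, ?_⟩, fun z hz => h _ ?_⟩
  · simpa using hx
  · intro h0
    apply hz
    simp [h0]

theorem gen_ne_zero_complex : ∀ᶠ c in gen ℂ, c ≠ 0 :=
  gen_of_ne (linear_mem LinearMap.id) (x := 1) (by simp)

/-- generic sets are dense -/
theorem dense_of_gen [TopologicalSpace S] [ContinuousAdd S] [ContinuousSMul ℂ S]
    {P : S → Prop} (h : ∀ᶠ s in gen S, P s) : Dense {s | P s} := by
  obtain ⟨f, hf, ⟨x₀, hx₀⟩, h⟩ := h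
  intro x
  obtain ⟨Q, hQ⟩ := exists_line hf x (x₀ - x)
  have hQ0 : Q ≠ 0 := by
    rintro rfl
    have := hQ 1
    simp at this
    exact hx₀ this
  have hfin : {t : ℂ | Q.eval t = 0}.Finite := by
    have := Q.rootSet_finite ℂ
    refine (Q.roots.toFinset.finite_toSet).subset ?_
    intro t ht
    simp [Polynomial.mem_roots hQ0]
    exact ht
  have hd : Dense {t : ℂ | Q.eval t = 0}ᶜ := hfin.countable.dense_compl ℂ
  have h0 : (0 : ℂ) ∈ closure {t : ℂ | Q.eval t = 0}ᶜ := hd 0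
  have hc : Continuous (fun t : ℂ => x + t • (x₀ - x)) := by fun_prop
  have := map_mem_closure (t := {s | P s}) hc h0 (fun t ht => ?_)
  · simpa using this
  · apply h
    rw [hQ]
    exact ht

end Poly

end Pool.Agent.H216.SOS
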