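import Pool.Agent.H216.SOS.Rank

set_option autoImplicit false

namespace Pool.Agent.H216.SOS

open Filter MvPolynomial Module

/-- the graph of the linear form `a` -/
noncomputable def sn {k : ℕ} (a : Fin k → ℂ) : Matrix (Fin (k + 1)) (Fin k) ℂ :=
  fun i j => Fin.lastCases (motive := fun _ => ℂ) (a j) (fun i' => if i' = j then 1 else 0) i

@[simp] theorem sn_last {k : ℕ} (a : Fin k → ℂ) (j : Fin k) : sn a (Fin.last k) j = a j := by
  simp [sn]

@[simp] theorem sn_castSucc {k : ℕ} (a : Fin k → ℂ) (i j : Fin k) :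
    sn a i.castSucc j = if i = j then 1 else 0 := by
  simp [sn]

theorem sn_mulVec {k : ℕ} (a x : Fin k → ℂ) :
    (sn a).mulVec x = Fin.snoc (α := fun _ => ℂ) x (∑ j, a j * x j) := by
  funext i
  refine Fin.lastCases ?_ (fun j => ?_) i
  · simp [Matrix.mulVec, dotProduct]
  · simp [Matrix.mulVec, dotProduct]

theorem vecMul_sn_zero {k : ℕ} (a : Fin (k + 1) → ℂ) :
    Matrix.vecMul a (sn (0 : Fin k → ℂ)) = fun i : Fin k => a i.castSucc := by
  funext j
  simp [Matrix.vecMul, dotProduct, Fin.sum_univ_castSucc]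

/-- The last coordinate. -/
noncomputable def lc (k : ℕ) : R (k + 1) := X (Fin.last k)

theorem lc_ne_zero (k : ℕ) : lc k ≠ 0 := X_ne_zero _

theorem eval_sn_lc {k : ℕ} (a : Fin k → ℂ) : pb (sn a) (lc k) = lin a := by
  apply MvPolynomial.funext
  intro x
  rw [eval_pb, sn_mulVec]
  simp [lc]

/-- restriction to the hyperplane where the last coordinate vanishes -/
noncomputable abbrev z0 {k : ℕ} (f : R (k + 1)) : R k := pb (sn 0) f

/-- restriction of a space to the hyperplane where the last coordinate vanishes -/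
noncomputable abbrev resz {k : ℕ} (Y : Submodule ℂ (R (k + 1))) : Submodule ℂ (R k) :=
  res Y (sn 0)

/-- The main limit argument. -/
theorem F1 {k : ℕ} (Y : Submodule ℂ (R (k + 1))) [FiniteDimensional ℂ Y]
    (hmax : finrank ℂ (resz Y) = rk Y k) {p : ℕ} {g : R (k + 1)} (hg : lc k ^ p * g ∈ Y)
    (a : Fin k → ℂ) : lin a ^ p * z0 g ∈ resz Y := by
  by_contra hcon
  obtain ⟨f, hf, hli, hspan⟩ := exists_li_of_finrank Y (sn 0) hmax
  let F : Fin (rk Y k + 1) → ℂ → R k :=
    Fin.cons (fun c => lin a ^ p * pb (sn (c • a)) g) (fun i c => pb (sn (c • a)) (f i))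
  have hsn : ∀ i j, (fun c : ℂ => sn (c • a) i j) ∈ PolyFun ℂ := by
    intro i j
    refine Fin.lastCases ?_ (fun i' => ?_) i
    · simpa using mul_mem' (linear_mem (LinearMap.id : ℂ →ₗ[ℂ] ℂ)) (const_mem (a j))
    · simpa using const_mem (S := ℂ) (if i' = j then (1 : ℂ) else 0)
  have hF : ∀ i x, (fun c => eval x (F i c)) ∈ PolyFun ℂ := by
    intro i x
    refine Fin.cases ?_ (fun i' => ?_) i
    · simp only [F, Fin.cons_zero, map_mul]
      exact mul_mem' (const_mem _) (eval_pb_mem hsn g x)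
    · simp only [F, Fin.cons_succ]
      exact eval_pb_mem hsn _ x
  have h0 : LinearIndependent ℂ (fun i => F i 0) := by
    have : (fun i => F i 0) = Fin.cons (lin a ^ p * z0 g) (fun i => pb (sn 0) (f i)) := by
      funext i
      refine Fin.cases ?_ (fun i' => ?_) i
      · simp [F]
      · simp [F]
    rw [this, linearIndependent_finCons]
    exact ⟨hli, by rw [hspan]; exact hcon⟩
  obtain ⟨c, hc, hc0⟩ := ((li_open F hF 0 h0).and gen_ne_zero_complex).exists
  let G : Fin (rk Y k + 1) → R k :=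
    Fin.cons (pb (sn (c • a)) (lc k ^ p * g)) (fun i => pb (sn (c • a)) (f i))
  have hGF : ∀ i, G i = (Fin.cons (Units.mk0 (c ^ p) (pow_ne_zero _ hc0)) (fun _ => 1) :
      Fin (rk Y k + 1) → ℂˣ) i • F i c := by
    intro i
    refine Fin.cases ?_ (fun i' => ?_) i
    · simp only [G, F, Fin.cons_zero, map_mul, map_pow, eval_sn_lc, lin_smul, smul_pow,
        Units.smul_def, Units.val_mk0, smul_mul_assoc]
    · simp [G, F]
  have hG : LinearIndependent ℂ G := by
    have := hc.units_smul (Fin.cons (Units.mk0 (c ^ p) (pow_ne_zero _ hc0)) (fun _ => 1))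
    convert this using 1
    funext i
    exact hGF i
  have hmem : ∀ i, G i ∈ res Y (sn (c • a)) := by
    intro i
    refine Fin.cases ?_ (fun i' => ?_) i
    · exact pb_mem_res _ hg
    · exact pb_mem_res _ (hf i')
  have h2 : LinearIndependent ℂ (fun i => (⟨G i, hmem i⟩ : res Y (sn (c • a)))) := by
    apply LinearIndependent.of_comp (res Y (sn (c • a))).subtype
    exact hG
  have h3 := h2.fintype_card_le_finrank
  have h4 := le_rk Y (sn (c • a))
  simp at h3
  omega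

/-- `U Z a` is the space of all `g` with `a g ∈ Z`. -/
noncomputable def U {k : ℕ} (Z : Submodule ℂ (R k)) (a : Fin k → ℂ) : Submodule ℂ (R k) :=
  Z.comap (LinearMap.mulLeft ℂ (lin a))

theorem mem_U {k : ℕ} {Z : Submodule ℂ (R k)} {a : Fin k → ℂ} {g : R k} :
    g ∈ U Z a ↔ lin a * g ∈ Z := Iff.rfl

theorem finrank_U_eq {k : ℕ} (Z : Submodule ℂ (R k)) [FiniteDimensional ℂ Z] {a : Fin k → ℂ}
    (ha : a ≠ 0) : FiniteDimensional ℂ (U Z a) ∧
      finrank ℂ (U Z a) = finrank ℂ ((U Z a).map (LinearMap.mulLeft ℂ (lin a))) := by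
  have hinj : Function.Injective (LinearMap.mulLeft ℂ (lin a)) := by
    intro f g h
    exact mul_left_cancel₀ (lin_ne_zero ha) h
  have hle : (U Z a).map (LinearMap.mulLeft ℂ (lin a)) ≤ Z := by
    rintro _ ⟨g, hg, rfl⟩
    exact hg
  have hfd : FiniteDimensional ℂ ((U Z a).map (LinearMap.mulLeft ℂ (lin a))) :=
    Submodule.finiteDimensional_of_le hle
  let e := Submodule.equivMapOfInjective (LinearMap.mulLeft ℂ (lin a)) hinj (U Z a)
  exact ⟨LinearEquiv.finiteDimensional e.symm, e.finrank_eq⟩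

theorem finrank_res_add_ker {n k : ℕ} (X : Submodule ℂ (R n)) [FiniteDimensional ℂ X]
    (φ : Matrix (Fin n) (Fin k) ℂ) :
    finrank ℂ (res X φ) + finrank ℂ (LinearMap.ker (pb φ).toLinearMap ⊓ X : Submodule ℂ (R n))
      = finrank ℂ X := by
  have h := LinearMap.finrank_range_add_finrank_ker ((pb φ).toLinearMap.domRestrict X)
  rw [LinearMap.range_domRestrict] at h
  have h2 : finrank ℂ (LinearMap.ker ((pb φ).toLinearMap.domRestrict X)) =
      finrank ℂ (LinearMap.ker (pb φ).toLinearMap ⊓ X : Submodule ℂ (R n)) := by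
    rw [LinearMap.ker_domRestrict, ← Submodule.finrank_map_subtype_eq X,
      Submodule.map_comap_subtype, inf_comm]
  rw [← h, h2]
  rfl

theorem shift_dvd {n : ℕ} (a e : Fin n → ℂ) (f : R n) :
    lin a ∣ f - pb (1 - Matrix.vecMulVec e a) f := by
  rw [← Ideal.mem_span_singleton, ← Ideal.Quotient.eq_zero_iff_mem, map_sub, sub_eq_zero]
  have : (Ideal.Quotient.mkₐ ℂ (Ideal.span {lin a})).comp (pb (1 - Matrix.vecMulVec e a)) =
      Ideal.Quotient.mkₐ ℂ (Ideal.span {lin a}) := by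
    apply MvPolynomial.algHom_ext
    intro i
    simp only [AlgHom.coe_comp, Function.comp_apply, Ideal.Quotient.mkₐ_eq_mk]
    rw [Ideal.Quotient.eq, Ideal.mem_span_singleton]
    have h1 : pb (1 - Matrix.vecMulVec e a) (X i) = X i - C (e i) * lin a := by
      apply MvPolynomial.funext
      intro x
      rw [eval_pb, Matrix.sub_mulVec, Matrix.one_mulVec]
      simp [Matrix.vecMulVec_mulVec, dotProduct]
    rw [h1]
    exact ⟨-C (e i), by ring⟩
  exact (congrArg (fun h => h f) this).symm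

theorem exists_param {k : ℕ} {a : Fin (k + 1) → ℂ} (ha : a ≠ 0) :
    ∃ (ψ : Matrix (Fin (k + 1)) (Fin k) ℂ) (π : Matrix (Fin k) (Fin (k + 1)) ℂ),
      π * ψ = 1 ∧ Matrix.vecMul a ψ = 0 ∧ (∀ f, pb ψ f = 0 → lin a ∣ f) ∧
      ∀ (j : ℕ) (χ : Matrix (Fin (k + 1)) (Fin j) ℂ), Matrix.vecMul a χ = 0 →
        ψ * (π * χ) = χ := by
  obtain ⟨i0, hi0⟩ : ∃ i, a i ≠ 0 := by
    by_contra h
    push Not at h
    exact ha (funext h)
  let ψ : Matrix (Fin (k + 1)) (Fin k) ℂ := fun i l =>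
    if i = i0 then -a (i0.succAbove l) / a i0 else if i = i0.succAbove l then 1 else 0
  let π : Matrix (Fin k) (Fin (k + 1)) ℂ := fun l i => if i = i0.succAbove l then 1 else 0
  let e : Fin (k + 1) → ℂ := Pi.single i0 (a i0)⁻¹
  have h1 : ψ * π = 1 - Matrix.vecMulVec e a := by
    ext i m
    rw [Matrix.mul_apply]
    rcases Fin.eq_self_or_eq_succAbove i0 i with rfl | ⟨l, rfl⟩
    · rcases Fin.eq_self_or_eq_succAbove i m with rfl | ⟨l', rfl⟩
      · simp [ψ, π, e, Matrix.vecMulVec_apply, hi0]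
      · simp [ψ, π, e, Matrix.vecMulVec_apply, eq_comm]
        field_simp
    · rcases Fin.eq_self_or_eq_succAbove i0 m with rfl | ⟨l', rfl⟩
      · simp [ψ, π, e, Matrix.vecMulVec_apply]
      · simp [ψ, π, e, Matrix.vecMulVec_apply, Matrix.one_apply, eq_comm]
  have h2 : π * ψ = 1 := by
    ext i m
    rw [Matrix.mul_apply, Fin.sum_univ_succAbove _ i0]
    simp [ψ, π, Matrix.one_apply, eq_comm]
  have h3 : Matrix.vecMul a ψ = 0 := by
    funext l
    simp only [Matrix.vecMul, dotProduct, Fin.sum_univ_succAbove _ i0]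
    simp [ψ]
    field_simp
    simp
  refine ⟨ψ, π, h2, h3, ?_, ?_⟩
  · intro f hf
    have h4 := shift_dvd a e f
    rw [← h1, ← pb_pb, hf, map_zero, sub_zero] at h4
    exact h4
  · intro j χ hχ
    rw [← Matrix.mul_assoc, h1, Matrix.sub_mul, Matrix.one_mul, Matrix.vecMulVec_mul, hχ]
    ext i l
    simp [Matrix.vecMulVec_apply]

theorem map_U_le {k : ℕ} (Z : Submodule ℂ (R k)) (a : Fin k → ℂ) :
    (U Z a).map (LinearMap.mulLeft ℂ (lin a)) ≤ Z := by
  rintro _ ⟨g, hg, rfl⟩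
  exact hg

/-- the first hyperplane estimate: hyperplane sections have rank at most `rk` -/
theorem le_rk_add_U {k : ℕ} (Z : Submodule ℂ (R (k + 1))) [FiniteDimensional ℂ Z]
    {a : Fin (k + 1) → ℂ} (ha : a ≠ 0) :
    finrank ℂ Z ≤ rk Z k + finrank ℂ (U Z a) := by
  obtain ⟨ψ, π, -, -, hψ, -⟩ := exists_param ha
  rw [← finrank_res_add_ker Z ψ]
  apply add_le_add (le_rk Z ψ)
  rw [(finrank_U_eq Z ha).2]
  have : FiniteDimensional ℂ ((U Z a).map (LinearMap.mulLeft ℂ (lin a))) :=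
    Submodule.finiteDimensional_of_le (map_U_le Z a)
  apply Submodule.finrank_mono
  rintro f ⟨hf1, hf2⟩
  obtain ⟨g, rfl⟩ := hψ f hf1
  exact ⟨g, hf2, rfl⟩

theorem res_add_U_le {k j : ℕ} (Z : Submodule ℂ (R k)) [FiniteDimensional ℂ Z]
    {a : Fin k → ℂ} (ha : a ≠ 0) (ψ : Matrix (Fin k) (Fin j) ℂ)
    (hψ : Matrix.vecMul a ψ = 0) :
    finrank ℂ (res Z ψ) + finrank ℂ (U Z a) ≤ finrank ℂ Z := by
  rw [← finrank_res_add_ker Z ψ]
  apply add_le_add le_rfl
  rw [(finrank_U_eq Z ha).2]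
  have : FiniteDimensional ℂ (LinearMap.ker (pb ψ).toLinearMap ⊓ Z : Submodule ℂ (R k)) :=
    Submodule.finiteDimensional_of_le inf_le_right
  apply Submodule.finrank_mono
  rintro _ ⟨g, hg, rfl⟩
  refine ⟨?_, hg⟩
  simp [pb_lin, hψ]

theorem exists_left_null {k j : ℕ} (hj : j < k) (χ : Matrix (Fin k) (Fin j) ℂ) :
    ∃ a : Fin k → ℂ, a ≠ 0 ∧ Matrix.vecMul a χ = 0 := by
  have := LinearMap.ker_ne_bot_of_finrank_lt (f := Matrix.vecMulLinear χ) (by simpa using hj)
  obtain ⟨a, ha, ha0⟩ := Submodule.exists_mem_ne_zero_of_ne_bot this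
  exact ⟨a, ha0, by simpa using ha⟩

/-- generic hyperplanes contain subspaces with maximal rank -/
theorem exists_hyper_gen {k j : ℕ} (Z : Submodule ℂ (R k)) [FiniteDimensional ℂ Z]
    (hj : j < k) :
    ∀ᶠ a in gen (Fin k → ℂ), ∃ ψ : Matrix (Fin k) (Fin j) ℂ,
      Matrix.vecMul a ψ = 0 ∧ rk Z j ≤ finrank ℂ (res Z ψ) := by
  obtain ⟨χ, hχ⟩ := exists_rk Z j
  obtain ⟨a₀, ha₀, hv⟩ := exists_left_null hj χ
  obtain ⟨i0, hi0⟩ : ∃ i, a₀ i ≠ 0 := by
    by_contra h
    push Not at h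
    exact ha₀ (funext h)
  let e : Fin k → ℂ := Pi.single i0 (a₀ i0)⁻¹
  let Φ : (Fin k → ℂ) → Matrix (Fin k) (Fin j) ℂ := fun a i l =>
    (∑ m, a m * e m) * χ i l - e i * ∑ m, a m * χ m l
  have h1 : ∀ i l, (fun a => Φ a i l) ∈ PolyFun (Fin k → ℂ) := fun i l =>
    sub_mem' (mul_mem' (sum_mem' _ fun m _ => mul_mem' (coord_mem m) (const_mem _))
      (const_mem _)) (mul_mem' (const_mem _)
      (sum_mem' _ fun m _ => mul_mem' (coord_mem m) (const_mem _)))
  have h2 : Φ a₀ = χ := by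
    ext i l
    have h3 : ∑ m, a₀ m * χ m l = 0 := by
      have := congrFun hv l
      simpa [Matrix.vecMul, dotProduct] using this
    simp [Φ, h3, e, Pi.single_apply, hi0]
  refine (rank_open Z Φ h1 a₀).mono fun a ha => ⟨Φ a, ?_, ?_⟩
  · funext l
    simp only [Matrix.vecMul, dotProduct, Φ, Pi.zero_apply]
    simp only [mul_sub, Finset.sum_sub_distrib, Finset.mul_sum]
    simp only [Finset.sum_mul, Finset.mul_sum]
    rw [sub_eq_zero, Finset.sum_comm]
    apply Finset.sum_congr rfl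
    intro i _
    apply Finset.sum_congr rfl
    intro m _
    ring
  · rw [← hχ, ← h2]
    exact ha

theorem gen_ne_zero {k : ℕ} : ∀ᶠ a in gen (Fin (k + 1) → ℂ), a ≠ 0 := by
  refine (gen_of_ne (coord_mem (0 : Fin (k + 1))) (x := fun _ => 1) (by simp)).mono ?_
  rintro a ha rfl
  exact ha rfl

/-- for generic hyperplanes the kernel of the restriction has minimal dimension -/
theorem U_gen {k : ℕ} (Z : Submodule ℂ (R (k + 1))) [FiniteDimensional ℂ Z] :
    ∀ᶠ a in gen (Fin (k + 1) → ℂ), a ≠ 0 ∧ finrank ℂ Z = rk Z k + finrank ℂ (U Z a) := by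
  filter_upwards [exists_hyper_gen Z (Nat.lt_succ_self k), gen_ne_zero] with a ha ha0
  refine ⟨ha0, le_antisymm (le_rk_add_U Z ha0) ?_⟩
  obtain ⟨ψ, h1, h2⟩ := ha
  have := res_add_U_le Z ha0 ψ h1
  omega

theorem z0_eq_zero {k : ℕ} {f : R (k + 1)} (hf : z0 f = 0) : lc k ∣ f := by
  let e : Fin (k + 1) → ℂ := Pi.single (Fin.last k) 1
  have h1 : (1 : Matrix (Fin (k + 1)) (Fin (k + 1)) ℂ) - Matrix.vecMulVec e e =
      sn (0 : Fin k → ℂ) * (sn (0 : Fin k → ℂ)).transpose := by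
    ext i m
    rw [Matrix.mul_apply]
    refine Fin.lastCases ?_ (fun i' => ?_) i
    · refine Fin.lastCases ?_ (fun m' => ?_) m
      · simp [e, Matrix.vecMulVec_apply]
      · simp [e, Matrix.vecMulVec_apply, (Fin.castSucc_lt_last m').ne']
    · refine Fin.lastCases ?_ (fun m' => ?_) m
      · simp [e, Matrix.vecMulVec_apply]
      · simp [e, Matrix.vecMulVec_apply, Matrix.one_apply]
  have h2 := shift_dvd e e f
  rw [h1, ← pb_pb] at h2
  change lin e ∣ f - pb _ (z0 f) at h2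
  rw [hf, map_zero, sub_zero] at h2
  have h3 : lin e = lc k := by
    apply MvPolynomial.funext
    intro x
    simp [e, lc, Pi.single_apply]
  rwa [h3] at h2

theorem z0_lc {k : ℕ} (f : R (k + 1)) : z0 (lc k * f) = 0 := by
  change pb (sn 0) (lc k * f) = 0
  rw [map_mul, eval_sn_lc]
  simp

theorem exists_factor {k : ℕ} {f : R (k + 1)} (hf : f ≠ 0) :
    ∃ (p : ℕ) (g : R (k + 1)), f = lc k ^ p * g ∧ z0 g ≠ 0 := by
  have hu : ¬ IsUnit (lc k) := by
    intro h
    have h1 := h.map (eval (0 : Fin (k + 1) → ℂ))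
    simp [lc] at h1
  obtain ⟨g, hg1, hg2⟩ :=
    (FiniteMultiplicity.of_not_isUnit hu hf).exists_eq_pow_mul_and_not_dvd
  exact ⟨_, g, hg1, fun h => hg2 (z0_eq_zero h)⟩

end Pool.Agent.H216.SOS
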