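import Mathlib

set_option autoImplicit false

namespace Pool.Agent.H216.SOS

open MvPolynomial Module

section

variable {n : ℕ}

/-- polynomials with distinct leading exponents are linearly independent -/
theorem li_of_degree {ι : Type*} [Fintype ι] (f : ι → MvPolynomial (Fin n) ℂ)
    (hf : ∀ i, f i ≠ 0)
    (hinj : Function.Injective fun i => (MonomialOrder.lex (σ := Fin n)).degree (f i)) :
    LinearIndependent ℂ f := by
  classical
  rw [Fintype.linearIndependent_iff]
  intro c hc
  by_contra hcon
  push Not at hcon
  obtain ⟨j, hj⟩ := hcon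
  let T : Finset ι := Finset.univ.filter fun i => c i ≠ 0
  have hT : T.Nonempty := ⟨j, by simp [T, hj]⟩
  obtain ⟨i0, hi0, hmax⟩ := Finset.exists_max_image T
    (fun i => (MonomialOrder.lex (σ := Fin n)).toSyn
      ((MonomialOrder.lex (σ := Fin n)).degree (f i))) hT
  have hci0 : c i0 ≠ 0 := by simpa [T] using hi0
  have h1 := congrArg (coeff ((MonomialOrder.lex (σ := Fin n)).degree (f i0))) hc
  rw [coeff_sum, coeff_zero, Finset.sum_eq_single i0] at h1
  · rw [coeff_smul, smul_eq_mul] at h1
    rcases mul_eq_zero.1 h1 with h2 | h2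
    · exact hci0 h2
    · exact MonomialOrder.coeff_degree_ne_zero_iff.2 (hf i0) h2
  · intro i _ hi
    rw [coeff_smul, smul_eq_mul]
    by_cases hci : c i = 0
    · simp [hci]
    · have h2 := hmax i (by simp [T, hci])
      have h3 : (MonomialOrder.lex (σ := Fin n)).toSyn
          ((MonomialOrder.lex (σ := Fin n)).degree (f i)) <
          (MonomialOrder.lex (σ := Fin n)).toSyn
          ((MonomialOrder.lex (σ := Fin n)).degree (f i0)) := by
        apply lt_of_le_of_ne h2
        intro h4
        exact hi (hinj ((MonomialOrder.lex (σ := Fin n)).toSyn.injective h4))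
      rw [MonomialOrder.coeff_eq_zero_of_lt h3, mul_zero]
  · simp

/-- all products with one variable -/
noncomputable def TT (M : Finset (Fin n →₀ ℕ)) : Finset (Fin n →₀ ℕ) := by
  classical
  exact (M ×ˢ (Finset.univ : Finset (Fin n))).image fun x => x.1 + Finsupp.single x.2 1

theorem mem_TT {M : Finset (Fin n →₀ ℕ)} {t : Fin n →₀ ℕ} :
    t ∈ TT M ↔ ∃ s ∈ M, ∃ k, s + Finsupp.single k 1 = t := by
  classical
  unfold TT
  simp only [Finset.mem_image, Finset.mem_product, Finset.mem_univ, and_true, Prod.exists]
  constructor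
  · rintro ⟨s, k, hs, h⟩
    exact ⟨s, hs, k, h⟩
  · rintro ⟨s, hs, k, h⟩
    exact ⟨s, k, hs, h⟩

theorem card_TT (M : Finset (Fin n →₀ ℕ)) :
    2 * n * M.card ≤ 2 * (TT M).card + M.card * (M.card - 1) := by
  classical
  induction M using Finset.induction_on with
  | empty => simp
  | insert s M hs ih =>
    rw [Finset.card_insert_of_notMem hs]
    let bad : Finset (Fin n) := Finset.univ.filter fun k => s + Finsupp.single k 1 ∈ TT M
    let good : Finset (Fin n) := Finset.univ.filter fun k => s + Finsupp.single k 1 ∉ TT M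
    have hbg : bad.card + good.card = n := by
      have := Finset.card_filter_add_card_filter_not (s := (Finset.univ : Finset (Fin n)))
        (fun k => s + Finsupp.single k 1 ∈ TT M)
      simpa using this
    have hbad : bad.card ≤ M.card := by
      have h1 : ∀ k ∈ bad, ∃ s' ∈ M, ∃ k', s' + Finsupp.single k' 1 = s + Finsupp.single k 1 := by
        intro k hk
        have : s + Finsupp.single k 1 ∈ TT M := by simpa [bad] using hk
        exact mem_TT.1 this
      choose! g hg1 k' hk' using h1
      apply Finset.card_le_card_of_injOn g (fun k hk => hg1 k hk)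
      intro k hk l hl hkl
      by_contra hne
      have e1 := hk' k hk
      have e2 := hk' l hl
      have hkk : k' k ≠ k := by
        intro h
        rw [h] at e1
        have := add_right_cancel e1
        exact hs (this ▸ hg1 k hk)
      have a1 := DFunLike.congr_fun e1 k
      have a2 := DFunLike.congr_fun e2 k
      have hkl' : g k = g l := hkl
      rw [← hkl'] at a2
      simp [Finsupp.single_apply, hkk, Ne.symm hne] at a1 a2
      omega
    have hdisj : Disjoint (TT M) (good.image fun k => s + Finsupp.single k 1) := by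
      rw [Finset.disjoint_right]
      intro t ht
      obtain ⟨k, hk, rfl⟩ := Finset.mem_image.1 ht
      simpa [good] using hk
    have hsub : TT M ∪ (good.image fun k => s + Finsupp.single k 1) ⊆ TT (insert s M) := by
      intro t ht
      rcases Finset.mem_union.1 ht with h | h
      · obtain ⟨s', hs', k, hk⟩ := mem_TT.1 h
        exact mem_TT.2 ⟨s', Finset.mem_insert_of_mem hs', k, hk⟩
      · obtain ⟨k, hk, rfl⟩ := Finset.mem_image.1 h
        exact mem_TT.2 ⟨s, Finset.mem_insert_self _ _, k, rfl⟩
    have h2 := Finset.card_le_card hsub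
    rw [Finset.card_union_of_disjoint hdisj, Finset.card_image_of_injective] at h2
    · rw [Nat.add_sub_cancel]
      rcases Nat.eq_zero_or_pos M.card with h0 | h0
      · rw [h0] at ih hbad ⊢
        simp at ih ⊢
        omega
      · obtain ⟨c, hc⟩ : ∃ c, M.card = c + 1 := ⟨M.card - 1, by omega⟩
        rw [hc] at ih hbad ⊢
        rw [Nat.add_sub_cancel] at ih
        nlinarith
    · intro k l hkl
      have h3 : Finsupp.single k 1 = Finsupp.single l (1 : ℕ) := add_left_cancel hkl
      exact (Finsupp.single_left_inj one_ne_zero).1 h3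

/-- products of the members of a family with the variables -/
noncomputable def SS {m : ℕ} (q : Fin m → MvPolynomial (Fin n) ℂ) :
    Submodule ℂ (MvPolynomial (Fin n) ℂ) :=
  Submodule.span ℂ (Set.range fun x : Fin n × Fin m => X x.1 * q x.2)

instance {m : ℕ} (q : Fin m → MvPolynomial (Fin n) ℂ) : FiniteDimensional ℂ (SS q) := by
  unfold SS
  exact FiniteDimensional.span_of_finite ℂ (Set.finite_range _)

theorem X_mul_mem_SS {m : ℕ} {q : Fin m → MvPolynomial (Fin n) ℂ} {f : MvPolynomial (Fin n) ℂ}
    (hf : f ∈ Submodule.span ℂ (Set.range q)) (k : Fin n) : X k * f ∈ SS q := by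
  have h1 : (Submodule.span ℂ (Set.range q)).map (LinearMap.mulLeft ℂ (X k)) ≤ SS q := by
    rw [Submodule.map_span, Submodule.span_le]
    rintro _ ⟨_, ⟨i, rfl⟩, rfl⟩
    exact Submodule.subset_span ⟨(k, i), rfl⟩
  exact h1 ⟨f, hf, rfl⟩

/-- Macaulay type lower bound for the dimension of the space of products of a family of
polynomials with the variables. -/
theorem macaulay {m : ℕ} (q : Fin m → MvPolynomial (Fin n) ℂ) (hq : LinearIndependent ℂ q) :
    2 * n * m ≤ 2 * finrank ℂ (SS q) + m * (m - 1) := by
  classical
  set mo := MonomialOrder.lex (σ := Fin n) with hmo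
  let Q := Submodule.span ℂ (Set.range q)
  have hQ : finrank ℂ Q = m := by
    simp only [Q]
    rw [finrank_span_eq_card hq]
    simp
  have hQfd : FiniteDimensional ℂ Q := FiniteDimensional.span_of_finite ℂ (Set.finite_range _)
  let E : Finset (Fin n →₀ ℕ) := (Finset.univ.biUnion fun i => (q i).support).filter
    fun d => ∃ f ∈ Q, f ≠ 0 ∧ mo.degree f = d
  have hE : ∀ f ∈ Q, f ≠ 0 → mo.degree f ∈ E := by
    intro f hf hf0
    simp only [E, Finset.mem_filter, Finset.mem_biUnion, Finset.mem_univ, true_and]
    refine ⟨?_, f, hf, hf0, rfl⟩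
    obtain ⟨c, hc⟩ := (Submodule.mem_span_range_iff_exists_fun ℂ).1 hf
    by_contra hno
    push Not at hno
    apply MonomialOrder.coeff_degree_ne_zero_iff.2 hf0
    have h0 : coeff (mo.degree f) (∑ i, c i • q i) = 0 := by
      rw [coeff_sum]
      apply Finset.sum_eq_zero
      intro i _
      rw [coeff_smul, notMem_support_iff.1 (hno i), smul_zero]
    rw [hc] at h0
    exact h0
  have hcardE : m ≤ E.card := by
    let T : Q →ₗ[ℂ] (E → ℂ) :=
      { toFun := fun f d => coeff d.1 (f : MvPolynomial (Fin n) ℂ)
        map_add' := fun f g => by funext d; simp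
        map_smul' := fun c f => by funext d; simp }
    have hT : Function.Injective T := by
      rw [← LinearMap.ker_eq_bot, LinearMap.ker_eq_bot']
      intro f hf
      by_contra hne
      have hf0 : (f : MvPolynomial (Fin n) ℂ) ≠ 0 := fun h => hne (Subtype.ext h)
      have h1 := congrFun hf ⟨_, hE f f.2 hf0⟩
      exact MonomialOrder.coeff_degree_ne_zero_iff.2 hf0 h1
    have := LinearMap.finrank_le_finrank_of_injective hT
    rw [hQ] at this
    simpa using this
  obtain ⟨M, hME, hM⟩ := Finset.exists_subset_card_eq hcardE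
  have h1 : ∀ t : TT M, ∃ f ∈ SS q, f ≠ 0 ∧ mo.degree f = t.1 := by
    rintro ⟨t, ht⟩
    obtain ⟨s, hs, k, rfl⟩ := mem_TT.1 ht
    have hsE := hME hs
    simp only [E, Finset.mem_filter] at hsE
    obtain ⟨-, f, hf, hf0, hfs⟩ := hsE
    refine ⟨X k * f, X_mul_mem_SS hf k, mul_ne_zero (X_ne_zero k) hf0, ?_⟩
    rw [MonomialOrder.degree_mul (X_ne_zero k) hf0, hfs, MonomialOrder.degree_X, add_comm]
  choose f hf hf0 hfd using h1
  have h2 : LinearIndependent ℂ f := by
    apply li_of_degree f hf0
    intro a b hab
    simp only at hab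
    change mo.degree (f a) = mo.degree (f b) at hab
    rw [hfd, hfd] at hab
    exact Subtype.ext hab
  have h3 : LinearIndependent ℂ (fun t => (⟨f t, hf t⟩ : SS q)) := by
    apply LinearIndependent.of_comp (SS q).subtype
    exact h2
  have h4 := h3.fintype_card_le_finrank
  have h5 := card_TT M
  rw [hM] at h5
  simp only [Fintype.card_coe] at h4
  omega

end

end Pool.Agent.H216.SOS
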