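import Pool.Agent.H216.SOS.Gen

set_option autoImplicit false

namespace Pool.Agent.H216.SOS

open Filter MvPolynomial Module

/-- Linearly independent functions have a non-vanishing evaluation determinant. -/
theorem exists_det_ne_zero {X : Type*} {r : ℕ} (F : Fin r → X → ℂ)
    (h : LinearIndependent ℂ F) :
    ∃ x : Fin r → X, (Matrix.of fun i j => F i (x j)).det ≠ 0 := by
  let w : X → (Fin r → ℂ) := fun x i => F i x
  have hspan : Submodule.span ℂ (Set.range w) = ⊤ := by
    by_contra hne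
    obtain ⟨L, hL0, hL⟩ := Submodule.exists_le_ker_of_lt_top _ (lt_top_iff_ne_top.2 hne)
    apply hL0
    have hc : ∀ i, L (Pi.single i 1) = 0 := by
      rw [Fintype.linearIndependent_iff] at h
      apply h
      funext x
      have h1 : L (w x) = 0 := by
        have := hL (Submodule.subset_span ⟨x, rfl⟩)
        simpa using this
      have h2 : w x = ∑ i, w x i • (Pi.single i 1 : Fin r → ℂ) := by
        funext j
        simp [Finset.sum_apply, Pi.single_apply]
      rw [h2, map_sum] at h1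
      simp only [map_smul, smul_eq_mul] at h1
      simp only [Finset.sum_apply, Pi.smul_apply, smul_eq_mul, Pi.zero_apply]
      rw [← h1]
      exact Finset.sum_congr rfl fun i _ => mul_comm _ _
    apply LinearMap.pi_ext'
    intro i
    ext
    simpa using hc i
  obtain ⟨f, hf, -, hli⟩ := Submodule.exists_fun_fin_finrank_span_eq ℂ (Set.range w)
  have hr : finrank ℂ (Submodule.span ℂ (Set.range w)) = r := by
    rw [hspan, finrank_top]
    simp
  choose y hy using hf
  refine ⟨fun i => y (Fin.cast hr.symm i), ?_⟩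
  have hli' : LinearIndependent ℂ (fun i : Fin r => f (Fin.cast hr.symm i)) :=
    hli.comp _ (Fin.cast_injective _)
  have hunit : IsUnit (Matrix.of fun j i => F i (y (Fin.cast hr.symm j))) := by
    rw [← Matrix.linearIndependent_rows_iff_isUnit]
    have he : (Matrix.of fun j i => F i (y (Fin.cast hr.symm j))).row =
        fun i : Fin r => f (Fin.cast hr.symm i) := by
      funext j
      exact hy _
    rw [he]
    exact hli'
  have hdet := (Matrix.isUnit_iff_isUnit_det _).1 hunit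
  have := hdet.ne_zero
  rw [← Matrix.det_transpose] at this
  exact this

/-- polynomials in `k` variables -/
abbrev R (k : ℕ) : Type := MvPolynomial (Fin k) ℂ

/-- linear forms -/
noncomputable def linL (k : ℕ) : (Fin k → ℂ) →ₗ[ℂ] R k where
  toFun a := ∑ i, C (a i) * X i
  map_add' a b := by simp [add_mul, Finset.sum_add_distrib]
  map_smul' c a := by simp [Finset.smul_sum, MvPolynomial.smul_eq_C_mul, mul_assoc]

/-- linear forms -/
noncomputable def lin {k : ℕ} (a : Fin k → ℂ) : R k := linL k a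

theorem lin_def {k : ℕ} (a : Fin k → ℂ) : lin a = ∑ i, C (a i) * X i := rfl

@[simp] theorem eval_lin {k : ℕ} (a x : Fin k → ℂ) : eval x (lin a) = ∑ i, a i * x i := by
  simp [lin_def]

theorem lin_add {k : ℕ} (a b : Fin k → ℂ) : lin (a + b) = lin a + lin b := map_add _ _ _

theorem lin_smul {k : ℕ} (c : ℂ) (a : Fin k → ℂ) : lin (c • a) = c • lin a := map_smul _ _ _

@[simp] theorem lin_zero {k : ℕ} : lin (0 : Fin k → ℂ) = 0 := map_zero _

theorem lin_ne_zero {k : ℕ} {a : Fin k → ℂ} (ha : a ≠ 0) : lin a ≠ 0 := by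
  intro h
  apply ha
  funext i
  have := congrArg (eval (Pi.single i 1)) h
  simpa [Pi.single_apply] using this

theorem lin_injective {k : ℕ} {a b : Fin k → ℂ} (h : lin a = lin b) : a = b := by
  have h1 : lin (a - b) = 0 := by
    change linL k (a - b) = 0
    rw [map_sub]
    exact sub_eq_zero.2 h
  by_contra hab
  exact lin_ne_zero (sub_ne_zero.2 hab) h1

/-- pull back of polynomials by a linear map -/
noncomputable def pb {n k : ℕ} (φ : Matrix (Fin n) (Fin k) ℂ) : R n →ₐ[ℂ] R k :=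
  aeval (fun i => lin (φ i))

theorem eval_pb {n k : ℕ} (φ : Matrix (Fin n) (Fin k) ℂ) (f : R n) (x : Fin k → ℂ) :
    eval x (pb φ f) = eval (φ.mulVec x) f := by
  induction f using MvPolynomial.induction_on with
  | C a => simp [pb]
  | add p q hp hq => simp [map_add, hp, hq]
  | mul_X p i hp =>
    rw [map_mul, map_mul, map_mul, hp]
    congr 1
    simp [pb, Matrix.mulVec, dotProduct]

theorem eval_pb_mem {S : Type*} [AddCommGroup S] [Module ℂ S] {n k : ℕ}
    {Φ : S → Matrix (Fin n) (Fin k) ℂ} (hΦ : ∀ i j, (fun s => Φ s i j) ∈ PolyFun S)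
    (f : R n) (x : Fin k → ℂ) : (fun s => eval x (pb (Φ s) f)) ∈ PolyFun S := by
  simp only [eval_pb]
  apply eval_mem
  intro i
  simp only [Matrix.mulVec, dotProduct]
  exact sum_mem' _ fun j _ => mul_mem' (hΦ i j) (const_mem _)

theorem pb_pb {n k l : ℕ} (φ : Matrix (Fin n) (Fin k) ℂ) (ψ : Matrix (Fin k) (Fin l) ℂ)
    (f : R n) : pb ψ (pb φ f) = pb (φ * ψ) f := by
  apply MvPolynomial.funext
  intro x
  rw [eval_pb, eval_pb, eval_pb, Matrix.mulVec_mulVec]

theorem pb_one {n : ℕ} (f : R n) : pb (1 : Matrix (Fin n) (Fin n) ℂ) f = f := by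
  apply MvPolynomial.funext
  intro x
  rw [eval_pb, Matrix.one_mulVec]

theorem pb_lin {n k : ℕ} (φ : Matrix (Fin n) (Fin k) ℂ) (a : Fin n → ℂ) :
    pb φ (lin a) = lin (Matrix.vecMul a φ) := by
  apply MvPolynomial.funext
  intro x
  rw [eval_pb, eval_lin, eval_lin]
  have := Matrix.dotProduct_mulVec a φ x
  simpa [dotProduct] using this

/-- Restriction of a space of polynomials along a linear map. -/
noncomputable def res {n k : ℕ} (X : Submodule ℂ (R n)) (φ : Matrix (Fin n) (Fin k) ℂ) :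
    Submodule ℂ (R k) := X.map (pb φ).toLinearMap

theorem mem_res {n k : ℕ} {X : Submodule ℂ (R n)} {φ : Matrix (Fin n) (Fin k) ℂ} {g : R k} :
    g ∈ res X φ ↔ ∃ f ∈ X, pb φ f = g := Iff.rfl

theorem pb_mem_res {n k : ℕ} {X : Submodule ℂ (R n)} (φ : Matrix (Fin n) (Fin k) ℂ) {f : R n}
    (hf : f ∈ X) : pb φ f ∈ res X φ := ⟨f, hf, rfl⟩

theorem res_res {n k l : ℕ} (X : Submodule ℂ (R n)) (φ : Matrix (Fin n) (Fin k) ℂ)
    (ψ : Matrix (Fin k) (Fin l) ℂ) : res (res X φ) ψ = res X (φ * ψ) := by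
  ext g
  simp only [mem_res]
  constructor
  · rintro ⟨_, ⟨f, hf, rfl⟩, rfl⟩
    exact ⟨f, hf, (pb_pb φ ψ f).symm⟩
  · rintro ⟨f, hf, rfl⟩
    exact ⟨_, ⟨f, hf, rfl⟩, pb_pb φ ψ f⟩

theorem res_one {n : ℕ} (X : Submodule ℂ (R n)) :
    res X (1 : Matrix (Fin n) (Fin n) ℂ) = X := by
  ext g
  simp [mem_res, pb_one]

instance {n k : ℕ} (X : Submodule ℂ (R n)) [FiniteDimensional ℂ X]
    (φ : Matrix (Fin n) (Fin k) ℂ) : FiniteDimensional ℂ (res X φ) := by
  unfold res
  infer_instance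

/-- the maximal dimension of the restrictions of `X` to `k`-dimensional spaces -/
noncomputable def rk {n : ℕ} (X : Submodule ℂ (R n)) (k : ℕ) : ℕ :=
  ⨆ φ : Matrix (Fin n) (Fin k) ℂ, finrank ℂ (res X φ)

section

variable {n : ℕ} (X : Submodule ℂ (R n)) [FiniteDimensional ℂ X]

theorem finrank_res_le {k : ℕ} (φ : Matrix (Fin n) (Fin k) ℂ) :
    finrank ℂ (res X φ) ≤ finrank ℂ X := Submodule.finrank_map_le _ _

theorem le_rk {k : ℕ} (φ : Matrix (Fin n) (Fin k) ℂ) : finrank ℂ (res X φ) ≤ rk X k :=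
  le_ciSup (f := fun φ : Matrix (Fin n) (Fin k) ℂ => finrank ℂ (res X φ))
    ⟨finrank ℂ X, by rintro _ ⟨φ, rfl⟩; exact finrank_res_le X φ⟩ φ

theorem exists_rk (k : ℕ) : ∃ φ : Matrix (Fin n) (Fin k) ℂ, finrank ℂ (res X φ) = rk X k := by
  have := Nat.sSup_mem (s := Set.range fun φ : Matrix (Fin n) (Fin k) ℂ => finrank ℂ (res X φ))
    ⟨_, 0, rfl⟩ ⟨finrank ℂ X, by rintro _ ⟨φ, rfl⟩; exact finrank_res_le X φ⟩
  exact this

theorem rk_le (k : ℕ) : rk X k ≤ finrank ℂ X := by
  obtain ⟨φ, hφ⟩ := exists_rk X k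
  rw [← hφ]
  exact finrank_res_le X φ

theorem rk_self : rk X n = finrank ℂ X := by
  apply le_antisymm (rk_le X n)
  have := le_rk X (1 : Matrix (Fin n) (Fin n) ℂ)
  rwa [res_one] at this

theorem rk_res_le {k : ℕ} (φ : Matrix (Fin n) (Fin k) ℂ) (j : ℕ) :
    rk (res X φ) j ≤ rk X j := by
  obtain ⟨ψ, hψ⟩ := exists_rk (res X φ) j
  rw [← hψ, res_res]
  exact le_rk X _

end

/-- Linear independence is an open (generic) condition. -/
theorem li_open {S : Type*} [AddCommGroup S] [Module ℂ S] {k r : ℕ} (F : Fin r → S → R k)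
    (hF : ∀ i x, (fun s => eval x (F i s)) ∈ PolyFun S) (s₀ : S)
    (h : LinearIndependent ℂ (fun i => F i s₀)) :
    ∀ᶠ s in gen S, LinearIndependent ℂ (fun i => F i s) := by
  have h' : LinearIndependent ℂ (fun i => fun x : Fin k → ℂ => eval x (F i s₀)) := by
    rw [Fintype.linearIndependent_iff] at h ⊢
    intro g hg
    apply h
    apply MvPolynomial.funext
    intro x
    have := congrFun hg x
    simpa [MvPolynomial.smul_eval] using this
  obtain ⟨x, hx⟩ := exists_det_ne_zero _ h'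
  have hD : (fun s => (Matrix.of fun i j => eval (x j) (F i s)).det) ∈ PolyFun S :=
    det_mem fun i j => hF i (x j)
  refine (gen_of_ne hD (x := s₀) hx).mono fun s hs => ?_
  have h1 := Matrix.linearIndependent_rows_of_det_ne_zero hs
  rw [Fintype.linearIndependent_iff] at h1 ⊢
  intro g hg
  apply h1
  funext j
  have := congrArg (eval (x j)) hg
  simpa [MvPolynomial.smul_eval, map_sum, Finset.sum_apply] using this

theorem exists_li_of_finrank {n k : ℕ} (X : Submodule ℂ (R n)) [FiniteDimensional ℂ X]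
    (φ : Matrix (Fin n) (Fin k) ℂ) {r : ℕ} (hr : finrank ℂ (res X φ) = r) :
    ∃ f : Fin r → R n, (∀ i, f i ∈ X) ∧ LinearIndependent ℂ (fun i => pb φ (f i)) ∧
      Submodule.span ℂ (Set.range fun i => pb φ (f i)) = res X φ := by
  let b := finBasisOfFinrankEq ℂ (res X φ) hr
  have hb : ∀ i, ∃ f ∈ X, pb φ f = (b i : R k) := fun i => (b i).2
  choose f hf hfb using hb
  refine ⟨f, hf, ?_, ?_⟩
  · simp only [hfb]
    exact b.linearIndependent.map' (res X φ).subtype (Submodule.ker_subtype _)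
  · simp only [hfb]
    have : (Set.range fun i => ((b i : res X φ) : R k)) =
        (res X φ).subtype '' Set.range b := by
      rw [← Set.range_comp]
      rfl
    rw [this, ← Submodule.map_span, b.span_eq, Submodule.map_top, Submodule.range_subtype]

/-- lower semicontinuity of the rank -/
theorem rank_open {S : Type*} [AddCommGroup S] [Module ℂ S] {n k : ℕ}
    (X : Submodule ℂ (R n)) [FiniteDimensional ℂ X]
    (Φ : S → Matrix (Fin n) (Fin k) ℂ) (hΦ : ∀ i j, (fun s => Φ s i j) ∈ PolyFun S) (s₀ : S) :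
    ∀ᶠ s in gen S, finrank ℂ (res X (Φ s₀)) ≤ finrank ℂ (res X (Φ s)) := by
  obtain ⟨f, hf, hli, -⟩ := exists_li_of_finrank X (Φ s₀) rfl
  have := li_open (fun i s => pb (Φ s) (f i)) (fun i x => eval_pb_mem hΦ _ _) s₀ hli
  refine this.mono fun s hs => ?_
  have h2 : LinearIndependent ℂ (fun i => (⟨pb (Φ s) (f i), pb_mem_res _ (hf i)⟩ :
      res X (Φ s))) := by
    apply LinearIndependent.of_comp (res X (Φ s)).subtype
    exact hs
  simpa using h2.fintype_card_le_finrank

theorem entry_mem {n k : ℕ} (i : Fin n) (j : Fin k) :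
    (fun φ : Matrix (Fin n) (Fin k) ℂ => φ i j) ∈ PolyFun (Matrix (Fin n) (Fin k) ℂ) :=
  linear_mem ((LinearMap.proj j : (Fin k → ℂ) →ₗ[ℂ] ℂ) ∘ₗ
    (LinearMap.proj i : (Fin n → Fin k → ℂ) →ₗ[ℂ] (Fin k → ℂ)))

theorem coord_mem {k : ℕ} (j : Fin k) :
    (fun a : Fin k → ℂ => a j) ∈ PolyFun (Fin k → ℂ) :=
  linear_mem (LinearMap.proj j : (Fin k → ℂ) →ₗ[ℂ] ℂ)

theorem rk_gen {n : ℕ} (X : Submodule ℂ (R n)) [FiniteDimensional ℂ X] (k : ℕ) :
    ∀ᶠ φ in gen (Matrix (Fin n) (Fin k) ℂ), finrank ℂ (res X φ) = rk X k := by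
  obtain ⟨φ₀, h₀⟩ := exists_rk X k
  refine (rank_open X (fun φ => φ) entry_mem φ₀).mono fun φ hφ => ?_
  exact le_antisymm (le_rk X φ) (h₀ ▸ hφ)

end Pool.Agent.H216.SOS
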