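import Pool.Agent.H216.SOS.Final

set_option autoImplicit false

namespace Pool.Agent.H216.SOS

open MvPolynomial Module ComplexConjugate

/-- Every finite sum of squares is a sum of squares of linearly independent polynomials; the
number of them is the dimension of the span. -/
theorem reduce_sum {n : ℕ} {κ : Type} [Fintype κ] (f : κ → MvPolynomial (Fin n) ℂ) :
    ∃ p : Fin (finrank ℂ (Submodule.span ℂ (Set.range f))) → MvPolynomial (Fin n) ℂ,
      LinearIndependent ℂ p ∧ ∀ z : Fin n → ℂ, ∑ j, ‖eval z (p j)‖ ^ 2 =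
        ∑ l, ‖eval z (f l)‖ ^ 2 := by
  classical
  let A : MvPolynomial (Fin n ⊕ Fin n) ℂ :=
    ∑ l, rename Sum.inl (f l) * rename Sum.inr (cj (f l))
  have hA : ∀ z w : Fin n → ℂ, eval (Sum.elim z (fun k => conj (w k))) A =
      ∑ l, eval z (f l) * conj (eval w (f l)) := by
    intro z w
    simp only [A, map_sum, map_mul, eval_rename, Sum.elim_comp_inl, Sum.elim_comp_inr, eval_cj,
      Complex.conj_conj]
  obtain ⟨ρ, q, lam, hq, hlam, hid⟩ := herm_decomp A (by
    intro z w
    rw [hA, hA, map_sum]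
    exact Finset.sum_congr rfl fun l _ => by rw [map_mul, Complex.conj_conj, mul_comm])
  have hid' : ∀ z w : Fin n → ℂ, ∑ l, eval z (f l) * conj (eval w (f l)) =
      ∑ i, (lam i : ℂ) * (eval z (q i) * conj (eval w (q i))) := by
    intro z w
    rw [← hA, hid]
  have hL : ∀ L : MvPolynomial (Fin n) ℂ →ₗ[ℂ] ℂ,
      ∑ l, ‖L (f l)‖ ^ 2 = ∑ i, lam i * ‖L (q i)‖ ^ 2 := by
    intro L
    have h := herm_functional (κ := κ ⊕ Fin ρ) (Sum.elim (fun _ => 1) (fun x => -lam x))
      (Sum.elim f q) (by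
        intro z w
        rw [Fintype.sum_sum_type]
        simp only [Sum.elim_inl, Sum.elim_inr, Complex.ofReal_one, one_mul, Complex.ofReal_neg,
          neg_mul, Finset.sum_neg_distrib]
        rw [hid', add_neg_cancel]) L
    rw [Fintype.sum_sum_type] at h
    simp only [Sum.elim_inl, Sum.elim_inr, one_mul, neg_mul, Finset.sum_neg_distrib] at h
    linarith
  have hpos : ∀ i, 0 < lam i := by
    intro i
    -- the functional dual to `q i`
    have hnot : q i ∉ Submodule.span ℂ (q '' {j | j ≠ i}) := by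
      have := hq.notMem_span_image (s := {j | j ≠ i}) (x := i) (by simp)
      exact this
    obtain ⟨L, hL1, hL2⟩ := Submodule.exists_le_ker_of_notMem hnot
    have h1 := hL L
    have h2 : ∑ j, lam j * ‖L (q j)‖ ^ 2 = lam i * ‖L (q i)‖ ^ 2 := by
      apply Finset.sum_eq_single i
      · intro j _ hj
        have : L (q j) = 0 := hL2 (Submodule.subset_span ⟨j, hj, rfl⟩)
        simp [this]
      · simp
    have h3 : 0 ≤ ∑ l, ‖L (f l)‖ ^ 2 := Finset.sum_nonneg fun _ _ => by positivity
    rw [h1, h2] at h3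
    have h4 : 0 < ‖L (q i)‖ ^ 2 := by positivity
    exact lt_of_le_of_ne (nonneg_of_mul_nonneg_left h3 h4) (hlam i).symm
  have hspan : Submodule.span ℂ (Set.range f) = Submodule.span ℂ (Set.range q) := by
    apply le_antisymm
    · rw [Submodule.span_le]
      rintro _ ⟨l, rfl⟩
      by_contra hno
      obtain ⟨L, hL1, hL2⟩ := Submodule.exists_le_ker_of_notMem hno
      have h0 : ∑ i, lam i * ‖L (q i)‖ ^ 2 = 0 := by
        apply Finset.sum_eq_zero
        intro i _
        have : L (q i) = 0 := hL2 (Submodule.subset_span ⟨i, rfl⟩)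
        simp [this]
      have h1 := hL L
      rw [h0] at h1
      have := (Finset.sum_eq_zero_iff_of_nonneg (fun _ _ => by positivity)).1 h1 l
        (Finset.mem_univ _)
      apply hL1
      simpa using this
    · rw [Submodule.span_le]
      rintro _ ⟨i, rfl⟩
      by_contra hno
      obtain ⟨L, hL1, hL2⟩ := Submodule.exists_le_ker_of_notMem hno
      have h0 : ∑ l, ‖L (f l)‖ ^ 2 = 0 := by
        apply Finset.sum_eq_zero
        intro l _
        have : L (f l) = 0 := hL2 (Submodule.subset_span ⟨l, rfl⟩)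
        simp [this]
      have h1 := hL L
      rw [h0] at h1
      have h2 := (Finset.sum_eq_zero_iff_of_nonneg (fun i _ => mul_nonneg (hpos i).le
        (by positivity))).1 h1.symm i (Finset.mem_univ _)
      have h3 := (mul_eq_zero.1 h2).resolve_left (hpos i).ne'
      apply hL1
      simpa using h3
  have hρ : finrank ℂ (Submodule.span ℂ (Set.range f)) = ρ := by
    rw [hspan, finrank_span_eq_card hq]
    simp
  rw [hρ]
  refine ⟨fun i => ((Real.sqrt (lam i) : ℝ) : ℂ) • q i, ?_, ?_⟩
  · exact hq.units_smul (fun i => Units.mk0 ((Real.sqrt (lam i) : ℝ) : ℂ)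
      (Complex.ofReal_ne_zero.2 (Real.sqrt_pos.2 (hpos i)).ne'))
  · intro z
    have h1 := hid' z z
    have h2 : ((∑ l, ‖eval z (f l)‖ ^ 2 : ℝ) : ℂ) =
        ((∑ i, lam i * ‖eval z (q i)‖ ^ 2 : ℝ) : ℂ) := by
      push_cast
      simp only [← Complex.mul_conj']
      exact h1
    have h3 : ∑ l, ‖eval z (f l)‖ ^ 2 = ∑ i, lam i * ‖eval z (q i)‖ ^ 2 := by
      exact_mod_cast h2
    rw [h3]
    apply Finset.sum_congr rfl
    intro i _
    rw [MvPolynomial.smul_eval, norm_mul, mul_pow, Complex.norm_real, Real.norm_eq_abs,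
      sq_abs, Real.sq_sqrt (hpos i).le]

/-- The rank of the product of the squared norm with a sum of squares. -/
theorem exists_of_SS {n m : ℕ} (q : Fin m → MvPolynomial (Fin n) ℂ) :
    ∃ (p : Fin (finrank ℂ (SS q)) → MvPolynomial (Fin n) ℂ)
      (A : MvPolynomial (Fin n ⊕ Fin n) ℂ), LinearIndependent ℂ p ∧
      ∀ z : Fin n → ℂ, ((∑ j, ‖eval z (p j)‖ ^ 2 : ℝ) : ℂ) =
        ((∑ k, ‖z k‖ ^ 2 : ℝ) : ℂ) * eval (Sum.elim z (fun k => conj (z k))) A := by
  unfold SS
  obtain ⟨p, hp, hid⟩ := reduce_sum (fun x : Fin n × Fin m => X x.1 * q x.2)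
  let A : MvPolynomial (Fin n ⊕ Fin n) ℂ :=
    ∑ l, rename Sum.inl (q l) * rename Sum.inr (cj (q l))
  have hA : ∀ z : Fin n → ℂ, eval (Sum.elim z (fun k => conj (z k))) A =
      ((∑ l, ‖eval z (q l)‖ ^ 2 : ℝ) : ℂ) := by
    intro z
    simp only [A, map_sum, map_mul, eval_rename, Sum.elim_comp_inl, Sum.elim_comp_inr, eval_cj,
      Complex.conj_conj, Complex.mul_conj']
    push_cast
    rfl
  refine ⟨p, A, hp, fun z => ?_⟩
  rw [hA, hid z, ← Complex.ofReal_mul, Fintype.sum_prod_type]
  congr 1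
  rw [Finset.sum_mul_sum]
  apply Finset.sum_congr rfl
  intro k _
  apply Finset.sum_congr rfl
  intro i _
  rw [map_mul, eval_X, norm_mul, mul_pow]

/-- monomials give spaces whose products with the variables have dimension `card (TT M)` -/
theorem exists_of_TT {n : ℕ} (M : Finset (Fin n →₀ ℕ)) :
    ∃ q : Fin M.card → MvPolynomial (Fin n) ℂ, LinearIndependent ℂ q ∧
      finrank ℂ (SS q) = (TT M).card := by
  classical
  let e : Fin M.card ≃ M := M.equivFin.symm
  let q : Fin M.card → MvPolynomial (Fin n) ℂ := fun i => monomial (e i).1 1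
  have hq : LinearIndependent ℂ q := by
    have h1 := (MvPolynomial.basisMonomials (Fin n) ℂ).linearIndependent
    rw [MvPolynomial.coe_basisMonomials] at h1
    exact h1.comp (fun i : Fin M.card => (e i).1) (Subtype.val_injective.comp e.injective)
  refine ⟨q, hq, ?_⟩
  have h2 : SS q = Submodule.span ℂ (Set.range fun t : TT M =>
      (monomial t.1 (1 : ℂ) : MvPolynomial (Fin n) ℂ)) := by
    unfold SS
    congr 1
    ext f
    simp only [Set.mem_range, Prod.exists, Subtype.exists]
    constructor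
    · rintro ⟨k, i, rfl⟩
      refine ⟨(e i).1 + Finsupp.single k 1, mem_TT.2 ⟨_, (e i).2, k, rfl⟩, ?_⟩
      simp only [q, X, monomial_mul, mul_one]
      rw [add_comm]
    · rintro ⟨t, ht, rfl⟩
      obtain ⟨s, hs, k, rfl⟩ := mem_TT.1 ht
      refine ⟨k, e.symm ⟨s, hs⟩, ?_⟩
      simp only [q, X, monomial_mul, mul_one, Equiv.apply_symm_apply]
      rw [add_comm]
  rw [h2, finrank_span_eq_card]
  · simp
  · have h1 := (MvPolynomial.basisMonomials (Fin n) ℂ).linearIndependent
    rw [MvPolynomial.coe_basisMonomials] at h1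
    exact h1.comp (fun t : TT M => t.1) Subtype.val_injective

end Pool.Agent.H216.SOS
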