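import Pool.Agent.H216.SOS.Data

set_option autoImplicit false

namespace Pool.Agent.H216.SOS

open Filter MvPolynomial Module ComplexConjugate

/-- Orthogonal subspaces are mapped to orthogonal subspaces: the ranks add up. -/
theorem orth_add {n N j k : ℕ} (p : Fin N → R n)
    (χ : Matrix (Fin n) (Fin j) ℂ) (ψ : Matrix (Fin n) (Fin k) ℂ)
    (h : ∀ s t, ∑ m, eval (χ.mulVec s) (p m) * conj (eval (ψ.mulVec t) (p m)) = 0) :
    finrank ℂ (res (Submodule.span ℂ (Set.range p)) χ) +
      finrank ℂ (res (Submodule.span ℂ (Set.range p)) ψ) ≤ N := by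
  have hfd : FiniteDimensional ℂ (Submodule.span ℂ (Set.range p)) :=
    FiniteDimensional.span_of_finite ℂ (Set.finite_range _)
  let T : (Fin N → ℂ) →ₗ[ℂ] R j := Fintype.linearCombination ℂ (fun m => pb χ (p m))
  have hT : LinearMap.range T = res (Submodule.span ℂ (Set.range p)) χ := by
    rw [Fintype.range_linearCombination, res, Submodule.map_span, ← Set.range_comp]
    rfl
  have h1 := LinearMap.finrank_range_add_finrank_ker T
  rw [hT] at h1
  have h2 : finrank ℂ (res (Submodule.span ℂ (Set.range p)) ψ) ≤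
      finrank ℂ (LinearMap.ker T) := by
    obtain ⟨f, hf, hli, -⟩ := exists_li_of_finrank (Submodule.span ℂ (Set.range p)) ψ rfl
    have h' : LinearIndependent ℂ (fun i => fun x : Fin k → ℂ => eval x (pb ψ (f i))) := by
      rw [Fintype.linearIndependent_iff] at hli ⊢
      intro g hg
      apply hli
      apply MvPolynomial.funext
      intro x
      have := congrFun hg x
      simpa [MvPolynomial.smul_eval] using this
    obtain ⟨t, ht⟩ := exists_det_ne_zero _ h'
    have hC : ∀ i, ∃ c : Fin N → ℂ, ∑ m, c m • p m = f i := fun i =>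
      (Submodule.mem_span_range_iff_exists_fun ℂ).1 (hf i)
    choose c hc using hC
    let κ : Fin (finrank ℂ (res (Submodule.span ℂ (Set.range p)) ψ)) → (Fin N → ℂ) :=
      fun l m => conj (eval (ψ.mulVec (t l)) (p m))
    have hκ : ∀ l, κ l ∈ LinearMap.ker T := by
      intro l
      rw [LinearMap.mem_ker]
      apply MvPolynomial.funext
      intro s
      simp only [T, Fintype.linearCombination_apply, map_sum, MvPolynomial.smul_eval, map_zero,
        eval_pb, κ]
      rw [← h s (t l)]
      exact Finset.sum_congr rfl fun m _ => mul_comm _ _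
    have hκli : LinearIndependent ℂ κ := by
      rw [Fintype.linearIndependent_iff]
      intro d hd
      have hMd : (Matrix.of fun i l => eval (t l) (pb ψ (f i))).mulVec (fun l => conj (d l)) = 0 := by
        funext i
        simp only [Matrix.mulVec, dotProduct, Matrix.of_apply, Pi.zero_apply]
        have h3 : ∀ l, eval (t l) (pb ψ (f i)) = ∑ m, c i m * eval (ψ.mulVec (t l)) (p m) := by
          intro l
          rw [eval_pb, ← hc i, map_sum]
          exact Finset.sum_congr rfl fun m _ => MvPolynomial.smul_eval _ _ _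
        have h4 : ∀ m, ∑ l, eval (ψ.mulVec (t l)) (p m) * conj (d l) = 0 := by
          intro m
          have := congrFun hd m
          simp only [Finset.sum_apply, Pi.smul_apply, smul_eq_mul, κ, Pi.zero_apply] at this
          have h5 := congrArg conj this
          rw [map_sum, map_zero] at h5
          rw [← h5]
          apply Finset.sum_congr rfl
          intro l _
          rw [map_mul, Complex.conj_conj, mul_comm]
        calc ∑ l, eval (t l) (pb ψ (f i)) * conj (d l)
            = ∑ l, ∑ m, c i m * (eval (ψ.mulVec (t l)) (p m) * conj (d l)) := by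
              apply Finset.sum_congr rfl
              intro l _
              rw [h3, Finset.sum_mul]
              exact Finset.sum_congr rfl fun m _ => by ring
          _ = ∑ m, c i m * ∑ l, eval (ψ.mulVec (t l)) (p m) * conj (d l) := by
              rw [Finset.sum_comm]
              exact Finset.sum_congr rfl fun m _ => by rw [Finset.mul_sum]
          _ = 0 := by simp [h4]
      have h5 := Matrix.eq_zero_of_mulVec_eq_zero ht hMd
      intro l
      have := congrFun h5 l
      simpa using this
    have h6 : LinearIndependent ℂ (fun l => (⟨κ l, hκ l⟩ : LinearMap.ker T)) := by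
      apply LinearIndependent.of_comp (LinearMap.ker T).subtype
      exact hκli
    simpa using h6.fintype_card_le_finrank
  simp only [finrank_fintype_fun_eq_card, Fintype.card_fin] at h1
  omega

/-- complex conjugation of vectors -/
noncomputable def conjV (n : ℕ) : (Fin n → ℂ) →ₛₗ[starRingEnd ℂ] (Fin n → ℂ) where
  toFun x i := conj (x i)
  map_add' x y := by funext i; simp
  map_smul' c x := by funext i; simp

theorem conjV_surj (n : ℕ) : Function.Surjective (conjV n) := by
  intro x
  refine ⟨fun i => conj (x i), ?_⟩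
  funext i
  simp [conjV]

theorem conjV_tendsto (n : ℕ) : Tendsto (conjV n) (gen (Fin n → ℂ)) (gen (Fin n → ℂ)) :=
  tendsto_conj (conjV n) (conjV_surj n)

/-- the matrix with one column -/
noncomputable def col1 (n : ℕ) : (Fin n → ℂ) →ₗ[ℂ] Matrix (Fin n) (Fin 1) ℂ where
  toFun x := Matrix.of fun i _ => x i
  map_add' x y := by ext; simp
  map_smul' c x := by ext; simp

/-- the matrix with two columns -/
noncomputable def col2 (n : ℕ) : ((Fin n → ℂ) × (Fin n → ℂ)) →ₗ[ℂ] Matrix (Fin n) (Fin 2) ℂ where
  toFun x := Matrix.of fun i l => if l = 0 then x.1 i else x.2 i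
  map_add' x y := by ext i l; by_cases h : l = 0 <;> simp [h]
  map_smul' c x := by ext i l; by_cases h : l = 0 <;> simp [h]

theorem col1_surj (n : ℕ) : Function.Surjective (col1 n) := by
  intro M
  refine ⟨fun i => M i 0, ?_⟩
  ext i l
  fin_cases l
  simp [col1]

theorem col2_surj (n : ℕ) : Function.Surjective (col2 n) := by
  intro M
  refine ⟨(fun i => M i 0, fun i => M i 1), ?_⟩
  ext i l
  fin_cases l <;> simp [col2]

theorem gen_prod {S T : Type*} [AddCommGroup S] [Module ℂ S] [AddCommGroup T] [Module ℂ T]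
    {P : S × T → Prop} (h : ∀ᶠ x in gen (S × T), P x) :
    ∀ᶠ s in gen S, ∀ᶠ t in gen T, P (s, t) := by
  obtain ⟨f, hf, ⟨⟨s₀, t₀⟩, h0⟩, h⟩ := h
  have h1 : PolyMap (fun s : S => (s, t₀)) := by
    intro L
    have : (fun s : S => L (s, t₀)) = fun s => (L ∘ₗ LinearMap.inl ℂ S T) s + L (0, t₀) := by
      funext s
      simp [← map_add]
    rw [this]
    exact add_mem' (linear_mem _) (const_mem _)
  refine (gen_of_ne (h1.comp_mem hf) (x := s₀) h0).mono fun s hs => ?_
  have h2 : PolyMap (fun t : T => (s, t)) := by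
    intro L
    have : (fun t : T => L (s, t)) = fun t => L (s, 0) + (L ∘ₗ LinearMap.inr ℂ S T) t := by
      funext t
      simp [← map_add]
    rw [this]
    exact add_mem' (const_mem _) (linear_mem _)
  exact (gen_of_ne (h2.comp_mem hf) (x := t₀) hs).mono fun t ht => h _ ht

theorem two_forms_gen {m : ℕ} (V : Submodule ℂ (R (m + 2))) [FiniteDimensional ℂ V] :
    ∀ᶠ u in gen (Fin (m + 2) → ℂ), ∀ᶠ v in gen (Fin (m + 2) → ℂ),
      ∃ ψ : Matrix (Fin (m + 2)) (Fin m) ℂ, Matrix.vecMul u ψ = 0 ∧ Matrix.vecMul v ψ = 0 ∧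
        rk V m ≤ finrank ℂ (res V ψ) := by
  filter_upwards [exists_hyper_gen V (j := m) (by omega), gen_ne_zero] with u hu hu0
  obtain ⟨χ, hχ1, hχ2⟩ := hu
  obtain ⟨ψ, π, h1, h2, -, h3⟩ := exists_param hu0
  have h4 : rk V m ≤ rk (res V ψ) m := by
    refine le_trans hχ2 ?_
    rw [← h3 m χ hχ1, ← res_res]
    exact le_rk _ _
  refine ((vecMul_tendsto h1).eventually
    (exists_hyper_gen (res V ψ) (j := m) (by omega))).mono ?_
  rintro v ⟨θ, hθ1, hθ2⟩
  refine ⟨ψ * θ, ?_, ?_, ?_⟩
  · rw [← Matrix.vecMul_vecMul, h2, Matrix.zero_vecMul]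
  · rw [← Matrix.vecMul_vecMul, hθ1]
  · rw [← res_res]
    exact le_trans h4 hθ2

/-- orthogonality of the values at orthogonal vectors -/
def Orth {n N : ℕ} (p : Fin N → R n) : Prop :=
  ∀ z w : Fin n → ℂ, ∑ i, z i * conj (w i) = 0 →
    ∑ m, eval z (p m) * conj (eval w (p m)) = 0

theorem super_two {m N : ℕ} (p : Fin N → R (m + 2)) (ho : Orth p) :
    rk (Submodule.span ℂ (Set.range p)) 2 + rk (Submodule.span ℂ (Set.range p)) m ≤ N := by
  have hfd : FiniteDimensional ℂ (Submodule.span ℂ (Set.range p)) :=
    FiniteDimensional.span_of_finite ℂ (Set.finite_range _)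
  set V := Submodule.span ℂ (Set.range p) with hV
  have hA := gen_prod ((tendsto_linear (col2 (m + 2)) (col2_surj _)).eventually (rk_gen V 2))
  have hB := two_forms_gen V
  have hB' := (conjV_tendsto (m + 2)).eventually hB
  obtain ⟨x, hx1, hx2⟩ := (hA.and hB').exists
  have hx3 := (conjV_tendsto (m + 2)).eventually hx2
  obtain ⟨y, hy1, ψ, hψ1, hψ2, hψ3⟩ := (hx1.and hx3).exists
  rw [← hy1]
  refine le_trans (add_le_add le_rfl hψ3) ?_
  apply orth_add
  intro s t
  apply ho
  have e1 : ∀ l, ∑ i, x i * conj (ψ i l) = 0 := by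
    intro l
    have := congrArg conj (congrFun hψ1 l)
    simpa [Matrix.vecMul, dotProduct, conjV] using this
  have e2 : ∀ l, ∑ i, y i * conj (ψ i l) = 0 := by
    intro l
    have := congrArg conj (congrFun hψ2 l)
    simpa [Matrix.vecMul, dotProduct, conjV] using this
  have e3 : ∀ i, (col2 (m + 2) (x, y)).mulVec s i = x i * s 0 + y i * s 1 := by
    intro i
    simp [col2, Matrix.mulVec, dotProduct, Fin.sum_univ_two]
  calc ∑ i, (col2 (m + 2) (x, y)).mulVec s i * conj (ψ.mulVec t i)
      = ∑ i, ∑ l, (s 0 * conj (t l) * (x i * conj (ψ i l)) +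
          s 1 * conj (t l) * (y i * conj (ψ i l))) := by
        apply Finset.sum_congr rfl
        intro i _
        rw [e3]
        simp only [Matrix.mulVec, dotProduct, map_sum, map_mul, Finset.mul_sum]
        apply Finset.sum_congr rfl
        intro l _
        ring
    _ = ∑ l, (s 0 * conj (t l) * (∑ i, x i * conj (ψ i l)) +
          s 1 * conj (t l) * (∑ i, y i * conj (ψ i l))) := by
        rw [Finset.sum_comm]
        apply Finset.sum_congr rfl
        intro l _
        rw [Finset.sum_add_distrib, Finset.mul_sum, Finset.mul_sum]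
    _ = 0 := by simp [e1, e2]

theorem super_one {m N : ℕ} (p : Fin N → R (m + 1)) (ho : Orth p) :
    rk (Submodule.span ℂ (Set.range p)) 1 + rk (Submodule.span ℂ (Set.range p)) m ≤ N := by
  have hfd : FiniteDimensional ℂ (Submodule.span ℂ (Set.range p)) :=
    FiniteDimensional.span_of_finite ℂ (Set.finite_range _)
  set V := Submodule.span ℂ (Set.range p) with hV
  have hA := (tendsto_linear (col1 (m + 1)) (col1_surj _)).eventually (rk_gen V 1)
  have hB := exists_hyper_gen V (j := m) (Nat.lt_succ_self m)
  have hB' := (conjV_tendsto (m + 1)).eventually hB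
  obtain ⟨x, hx1, ψ, hψ1, hψ3⟩ := (hA.and hB').exists
  rw [← hx1]
  refine le_trans (add_le_add le_rfl hψ3) ?_
  apply orth_add
  intro s t
  apply ho
  have e1 : ∀ l, ∑ i, x i * conj (ψ i l) = 0 := by
    intro l
    have := congrArg conj (congrFun hψ1 l)
    simpa [Matrix.vecMul, dotProduct, conjV] using this
  have e3 : ∀ i, (col1 (m + 1) x).mulVec s i = x i * s 0 := by
    intro i
    simp [col1, Matrix.mulVec, dotProduct]
  calc ∑ i, (col1 (m + 1) x).mulVec s i * conj (ψ.mulVec t i)
      = ∑ i, ∑ l, (s 0 * conj (t l) * (x i * conj (ψ i l))) := by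
        apply Finset.sum_congr rfl
        intro i _
        rw [e3]
        simp only [Matrix.mulVec, dotProduct, map_sum, map_mul, Finset.mul_sum]
        apply Finset.sum_congr rfl
        intro l _
        ring
    _ = ∑ l, (s 0 * conj (t l) * (∑ i, x i * conj (ψ i l))) := by
        rw [Finset.sum_comm]
        apply Finset.sum_congr rfl
        intro l _
        rw [Finset.mul_sum]
    _ = 0 := by simp [e1]

theorem one_le_rk_one {n : ℕ} (V : Submodule ℂ (R n)) [FiniteDimensional ℂ V] {f : R n}
    (hf : f ∈ V) (hf0 : f ≠ 0) : 1 ≤ rk V 1 := by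
  obtain ⟨x, hx⟩ : ∃ x, eval x f ≠ 0 := by
    by_contra h
    push Not at h
    exact hf0 (MvPolynomial.funext fun x => by simpa using h x)
  refine le_trans ?_ (le_rk V (col1 n x))
  rw [Nat.one_le_iff_ne_zero]
  intro h0
  rw [Submodule.finrank_eq_zero] at h0
  have h1 := pb_mem_res (col1 n x) hf
  rw [h0, Submodule.mem_bot] at h1
  apply hx
  have h2 := congrArg (eval (fun _ : Fin 1 => (1 : ℂ))) h1
  rw [eval_pb, map_zero] at h2
  have h3 : (col1 n x).mulVec (fun _ : Fin 1 => (1 : ℂ)) = x := by
    funext i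
    simp [col1, Matrix.mulVec, dotProduct]
  rwa [h3] at h2

end Pool.Agent.H216.SOS
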